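import Pool.Agent.DC.D.Causal

/-!
Project DC, block D (helper6): points of the hyperbolic plane as matrices.
-/

open scoped ENNReal UpperHalfPlane Matrix ContDiff
open MeasureTheory Set

namespace Pool.Agent.DC

/-- the half turn around the point `z`, a future vector of square `-1` -/
noncomputable def pt (z : ℍ) : M2 :=
  !![z.re / z.im, -((z.re ^ 2 + z.im ^ 2) / z.im); 1 / z.im, -(z.re / z.im)]

theorem pt_trace (z : ℍ) : (pt z).trace = 0 := by
  rw [Matrix.trace_fin_two]; simp [pt]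

theorem ip_pt (z w : ℍ) : ip (pt z) (pt w) = -Real.cosh (dist z w) := by
  have hz := z.im_pos
  have hw := w.im_pos
  rw [UpperHalfPlane.cosh_dist', Causal.ip_eq]
  simp only [pt, Matrix.of_apply, Matrix.cons_val', Matrix.cons_val_zero, Matrix.cons_val_one,
    Matrix.cons_val_fin_one]
  field_simp
  ring

theorem ip_pt_self (z : ℍ) : ip (pt z) (pt z) = -1 := by
  rw [ip_pt, dist_self, Real.cosh_zero]

/-- real and imaginary part of `g • z` -/
theorem smul_re_im (g : SL2) (z : ℍ) :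
    0 < ((g : M2) 1 0 * z.re + (g : M2) 1 1) ^ 2 + ((g : M2) 1 0 * z.im) ^ 2 ∧
    (g • z).im = z.im /
      (((g : M2) 1 0 * z.re + (g : M2) 1 1) ^ 2 + ((g : M2) 1 0 * z.im) ^ 2) ∧
    (g • z).re = (((g : M2) 0 0 * z.re + (g : M2) 0 1) * ((g : M2) 1 0 * z.re + (g : M2) 1 1) +
      (g : M2) 0 0 * (g : M2) 1 0 * z.im ^ 2) /
      (((g : M2) 1 0 * z.re + (g : M2) 1 1) ^ 2 + ((g : M2) 1 0 * z.im) ^ 2) := by
  have hz := z.im_pos
  have hdet := Causal.det_eq g
  have hD : 0 < ((g : M2) 1 0 * z.re + (g : M2) 1 1) ^ 2 + ((g : M2) 1 0 * z.im) ^ 2 := by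
    by_cases hc : (g : M2) 1 0 = 0
    · have hd : (g : M2) 1 1 ≠ 0 := by
        intro h; rw [hc, h] at hdet; simp at hdet
      rw [hc]
      have := sq_pos_of_ne_zero hd
      simpa using this
    · have : 0 < ((g : M2) 1 0 * z.im) ^ 2 := by positivity
      positivity
  have h : ((g • z : ℍ) : ℂ) = (((g : M2) 0 0 : ℂ) * (z : ℂ) + ((g : M2) 0 1 : ℂ)) /
      (((g : M2) 1 0 : ℂ) * (z : ℂ) + ((g : M2) 1 1 : ℂ)) :=
    UpperHalfPlane.coe_specialLinearGroup_apply g z
  have hne : ((g : M2) 1 0 : ℂ) * (z : ℂ) + ((g : M2) 1 1 : ℂ) ≠ 0 := by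
    intro h0
    have h1 := congrArg Complex.re h0
    have h2 := congrArg Complex.im h0
    simp at h1 h2
    rcases h2 with h2 | h2
    · rw [h2] at h1 hD; simp at h1; rw [h1] at hD; simp at hD
    · exact absurd h2 (ne_of_gt hz)
  have h3 : ((g • z : ℍ) : ℂ) * (((g : M2) 1 0 : ℂ) * (z : ℂ) + ((g : M2) 1 1 : ℂ)) =
      ((g : M2) 0 0 : ℂ) * (z : ℂ) + ((g : M2) 0 1 : ℂ) := by
    rw [h, div_mul_cancel₀ _ hne]
  have h4 := congrArg Complex.re h3
  have h5 := congrArg Complex.im h3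
  simp only [Complex.mul_re, Complex.mul_im, Complex.add_re, Complex.add_im, Complex.ofReal_re,
    Complex.ofReal_im, UpperHalfPlane.coe_re, UpperHalfPlane.coe_im, zero_mul, add_zero,
    sub_zero] at h4 h5
  generalize (g • z).re = u at *
  generalize (g • z).im = v at *
  generalize z.re = X at *
  generalize z.im = Y at *
  generalize (g : M2) 0 0 = a at *
  generalize (g : M2) 0 1 = b at *
  generalize (g : M2) 1 0 = c at *
  generalize (g : M2) 1 1 = d at *
  refine ⟨hD, ?_, ?_⟩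
  · rw [eq_div_iff hD.ne']
    linear_combination (c * X + d) * h5 - (c * Y) * h4 + Y * hdet
  · rw [eq_div_iff hD.ne']
    linear_combination (c * X + d) * h4 + (c * Y) * h5

theorem ad_pt (g : SL2) (z : ℍ) : ad g (pt z) = pt (g • z) := by
  obtain ⟨hD, him, hre⟩ := smul_re_im g z
  have hz := z.im_pos
  have hdet := Causal.det_eq g
  have h00 := Causal.ad_00 g (pt z)
  have h10 := Causal.ad_10 g (pt z)
  have p00 : pt z 0 0 = z.re / z.im := rfl
  have p01 : pt z 0 1 = -((z.re ^ 2 + z.im ^ 2) / z.im) := rfl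
  have p10 : pt z 1 0 = 1 / z.im := rfl
  have p11 : pt z 1 1 = -(z.re / z.im) := rfl
  have q00 : pt (g • z) 0 0 = (g • z).re / (g • z).im := rfl
  have q10 : pt (g • z) 1 0 = 1 / (g • z).im := rfl
  rw [p00, p01, p10, p11] at h00 h10
  rw [him, hre] at q00
  rw [him] at q10
  have e10 : ad g (pt z) 1 0 = pt (g • z) 1 0 := by
    rw [h10, q10]
    field_simp
    ring
  have e00 : ad g (pt z) 0 0 = pt (g • z) 0 0 := by
    rw [h00, q00, div_div_div_cancel_right₀ hD.ne']
    field_simp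
    ring
  have e11 : ad g (pt z) 1 1 = pt (g • z) 1 1 := by
    have h1 := ad_trace g (pt z)
    have h2 := pt_trace z
    have h3 := pt_trace (g • z)
    rw [h2, Matrix.trace_fin_two] at h1
    rw [Matrix.trace_fin_two] at h3
    linarith
  have e01 : ad g (pt z) 0 1 = pt (g • z) 0 1 := by
    -- from the invariant form
    have h1 := ip_ad g (pt z) (pt z)
    rw [ip_pt_self, ← ip_pt_self (g • z), Causal.ip_eq, Causal.ip_eq, e10, e00, e11] at h1
    have h2 : pt (g • z) 1 0 ≠ 0 := by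
      have : 0 < pt (g • z) 1 0 := by
        show 0 < 1 / (g • z).im
        exact one_div_pos.2 (g • z).im_pos
      exact this.ne'
    have h3 : (ad g (pt z) 0 1 - pt (g • z) 0 1) * pt (g • z) 1 0 = 0 := by linear_combination h1
    rcases mul_eq_zero.1 h3 with h4 | h4
    · linarith
    · exact absurd h4 h2
  ext i j
  fin_cases i <;> fin_cases j
  · exact e00
  · exact e01
  · exact e10
  · exact e11

/-- every timelike future vector is a multiple of a point -/
theorem exists_pt {X : M2} (hX : Fut X) (h : ip X X < 0) :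
    ∃ z : ℍ, X = Real.sqrt (-ip X X) • pt z := by
  obtain ⟨ht, h10, h01, hsq⟩ := hX
  have h11 : X 1 1 = -X 0 0 := Causal.tr_zero ht
  have hip : ip X X = X 0 0 ^ 2 + X 0 1 * X 1 0 := by
    rw [Causal.ip_eq, h11]; ring
  have hc : 0 < X 1 0 := by
    rcases h10.lt_or_eq with h1 | h1
    · exact h1
    · rw [hip, ← h1] at h
      nlinarith [sq_nonneg (X 0 0)]
  set s := Real.sqrt (-ip X X) with hs
  have hs0 : 0 < s := Real.sqrt_pos.2 (by linarith)
  have hs2 : s ^ 2 = -ip X X := Real.sq_sqrt (by linarith)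
  refine ⟨⟨⟨X 0 0 / X 1 0, s / X 1 0⟩, div_pos hs0 hc⟩, ?_⟩
  have hre : (⟨⟨X 0 0 / X 1 0, s / X 1 0⟩, div_pos hs0 hc⟩ : ℍ).re = X 0 0 / X 1 0 := rfl
  have him : (⟨⟨X 0 0 / X 1 0, s / X 1 0⟩, div_pos hs0 hc⟩ : ℍ).im = s / X 1 0 := rfl
  ext i j
  fin_cases i <;> fin_cases j
  · show X 0 0 = s * (_ / _)
    rw [hre, him]; field_simp
  · show X 0 1 = s * (-((_ ^ 2 + _ ^ 2) / _))
    rw [hre, him]; field_simp
    rw [hs2, hip]; ring
  · show X 1 0 = s * (1 / _)
    rw [him]; field_simp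
  · show X 1 1 = s * (-(_ / _))
    rw [hre, him, h11]; field_simp

end Pool.Agent.DC
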