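import Pool.Agent.DC.Defs
import Pool.Agent.DC.QC

/-!
# Project DC, block D: definitions
-/

open scoped ENNReal UpperHalfPlane Matrix
open MeasureTheory Set

namespace Pool.Agent.DC

abbrev M2 : Type := Matrix (Fin 2) (Fin 2) ℝ

abbrev SL2 : Type := Matrix.SpecialLinearGroup (Fin 2) ℝ

/-- the invariant form on trace zero matrices -/
noncomputable def ip (X Y : M2) : ℝ := (X * Y).trace / 2

/-- closed future cone -/
def Fut (X : M2) : Prop := X.trace = 0 ∧ 0 ≤ X 1 0 ∧ X 0 1 ≤ 0 ∧ X 0 0 ^ 2 ≤ -(X 0 1 * X 1 0)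

/-- conjugation -/
def ad (g : SL2) (X : M2) : M2 := (g : M2) * X * ((g⁻¹ : SL2) : M2)

/-- Three outward, positively oriented unit normals, pairwise disjoint mirrors. -/
structure Hex where
  C : Fin 3 → ℝ
  hC : ∀ i, 1 ≤ C i
  s : Fin 3 → M2
  tr : ∀ i, (s i).trace = 0
  det : ∀ i, (s i).det = -1
  gram : ∀ i, (s (i + 1) * s (i + 2)).trace = -2 * C i
  orient : 0 < (s 0 * s 1 * s 2).trace
  outward : 0 < (s 0 + s 1 + s 2) 1 0 - (s 0 + s 1 + s 2) 0 1

namespace Hex

variable (H : Hex)

/-- traceless part of the cuff -/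
noncomputable def u (k : Fin 3) : M2 := H.s (k + 1) * H.s (k + 2) + H.C k • (1 : M2)

/-- coordinate functional -/
noncomputable def xi (k : Fin 3) (X : M2) : ℝ := ip X (H.u k)

noncomputable def S (k : Fin 3) : ℝ := Real.sqrt (H.C k ^ 2 - 1)

/-- outward unit normal of the cuff `k` (if `1 < C k`) -/
noncomputable def a (k : Fin 3) : M2 := (-(H.S k)⁻¹) • H.u k

/-- reflection -/
def refl (j : Fin 3) (X : M2) : M2 := -(H.s j * X * H.s j)

/-- action of words: the head of the list acts last -/
def act : List (Fin 3) → M2 → M2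
  | [], X => X
  | j :: w, X => H.refl j (act w X)

/-- matrix product of a word -/
def W (w : List (Fin 3)) : M2 := (w.map H.s).prod

end Hex

namespace PantsGraph

variable {G : PantsGraph}

/-- oriented edges: departure from the cuff `side e b`, arrival at the cuff `side e (!b)` -/
def oe (e : Fin G.d × Bool) : G.PathGroup := if e.2 then (G.edge e.1)⁻¹ else G.edge e.1

/-- group of a pair of pants -/
def PG (P : Fin G.V) : Subgroup G.PathGroup := Subgroup.closure (Set.range fun i => G.cuff (P, i))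

/-- the element of the pants group whose holonomy is `s i * s j` -/
def cc (P : Fin G.V) (i j : Fin 3) : G.PathGroup :=
  if j = i + 1 then G.cuff (P, i + 2) else if i = j + 1 then (G.cuff (P, j + 2))⁻¹ else 1

/-- the element of an even word -/
def cw (P : Fin G.V) : List (Fin 3) → G.PathGroup
  | i :: j :: w => cc P i j * cw P w
  | _ => 1

/-- A cyclically reduced closed path with `r ≥ 1` edges (sequences of period `r`). -/
structure CycWord (G : PantsGraph) where
  r : ℕ
  hr : 1 ≤ r
  E : ℕ → Fin G.d × Bool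
  p : ℕ → G.PathGroup
  perE : ∀ m, E (m + r) = E m
  perp : ∀ m, p (m + r) = p m
  comp : ∀ m, (G.side (E (m + 1)).1 (E (m + 1)).2).1 = (G.side (E m).1 (!(E m).2)).1
  hp : ∀ m, p m ∈ PG (G.side (E m).1 (!(E m).2)).1
  red : ∀ m, E (m + 1) = ((E m).1, !(E m).2) → ∀ k : ℤ, p m ≠ G.cuff (G.side (E m).1 (!(E m).2)) ^ k

/-- partial products of a cyclic word -/
def CycWord.w (c : CycWord G) : ℕ → G.PathGroup
  | 0 => 1
  | m + 1 => c.w m * (oe (c.E m) * c.p m)

namespace FN

variable {x : G.Teich} (F : FN x)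

/-- outward unit normal of the cuff `side e b` -/
def aa (e : Fin G.d × Bool) : M2 := ad (F.N e.1 e.2) !![1, 0; 0, -1]

end FN

/-- The translation lengths at `x` are at most `K` times the translation lengths at `y`, after an
automorphism of the fundamental group (and hyperbolic at `y` implies hyperbolic at `x`). -/
def LenDom {x y : G.Teich} (Fx : FN x) (Fy : FN y) (K : ℝ) : Prop :=
  ∃ φ : MulAut G.pi1, ∀ γ : G.pi1,
    2 < |((Fy.hol ((φ γ : G.pi1) : G.PathGroup) : SL2) : M2).trace| →
      2 < |((Fx.hol (γ : G.PathGroup) : SL2) : M2).trace| ∧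
      tl (Fx.hol (γ : G.PathGroup)) ≤ K * tl (Fy.hol ((φ γ : G.pi1) : G.PathGroup))

end PantsGraph

end Pool.Agent.DC
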