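import Pool.Agent.DC.D.Base

/-!
# Project DC, block D: the causal structure of the trace form on `sl₂`
-/

open scoped ENNReal UpperHalfPlane Matrix ContDiff
open MeasureTheory Set

namespace Pool.Agent.DC

theorem Causal.ip_eq (X Y : M2) :
    ip X Y = (X 0 0 * Y 0 0 + X 0 1 * Y 1 0 + X 1 0 * Y 0 1 + X 1 1 * Y 1 1) / 2 := by
  unfold ip
  rw [Matrix.trace_fin_two, Matrix.mul_apply, Matrix.mul_apply, Fin.sum_univ_two, Fin.sum_univ_two]
  ring

theorem Causal.tr_eq (X : M2) : X.trace = X 0 0 + X 1 1 := Matrix.trace_fin_two X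

theorem Causal.tr_zero {X : M2} (h : X.trace = 0) : X 1 1 = -X 0 0 := by
  rw [Causal.tr_eq] at h
  linarith

theorem Causal.ip_eq' {X Y : M2} (hX : X.trace = 0) (hY : Y.trace = 0) :
    ip X Y = X 0 0 * Y 0 0 + (X 0 1 * Y 1 0 + X 1 0 * Y 0 1) / 2 := by
  rw [Causal.ip_eq, Causal.tr_zero hX, Causal.tr_zero hY]
  ring

/-- the Cauchy-Schwarz inequality behind everything -/
theorem Causal.cs_aux {a b c a' b' c' : ℝ} (hc : 0 ≤ c) (hb : b ≤ 0) (h : a ^ 2 ≤ -(b * c))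
    (hc' : 0 ≤ c') (hb' : b' ≤ 0) (h' : a' ^ 2 ≤ -(b' * c')) :
    2 * |a * a'| ≤ (-b) * c' + (-b') * c := by
  have h1 : (a * a') ^ 2 ≤ ((-b) * c') * ((-b') * c) := by
    have : (a * a') ^ 2 = a ^ 2 * a' ^ 2 := by ring
    rw [this]
    calc a ^ 2 * a' ^ 2 ≤ (-(b * c)) * (-(b' * c')) :=
          mul_le_mul h h' (sq_nonneg _) ((sq_nonneg _).trans h)
      _ = ((-b) * c') * ((-b') * c) := by ring
  have h2 : 0 ≤ (-b) * c' := mul_nonneg (by linarith) hc'
  have h3 : 0 ≤ (-b') * c := mul_nonneg (by linarith) hc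
  have h4 : (2 * |a * a'|) ^ 2 ≤ ((-b) * c' + (-b') * c) ^ 2 := by
    have : (2 * |a * a'|) ^ 2 = 4 * (a * a') ^ 2 := by
      rw [mul_pow, sq_abs]
      norm_num
    rw [this]
    nlinarith [sq_nonneg ((-b) * c' - (-b') * c)]
  exact le_of_sq_le_sq' h4 (by linarith)
where
  le_of_sq_le_sq' {x y : ℝ} (h : x ^ 2 ≤ y ^ 2) (hy : 0 ≤ y) : x ≤ y :=
    le_of_abs_le (abs_le_of_sq_le_sq h hy)

theorem fut_add {X Y : M2} (hX : Fut X) (hY : Fut Y) : Fut (X + Y) := by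
  obtain ⟨t, c, b, h⟩ := hX
  obtain ⟨t', c', b', h'⟩ := hY
  have h1 : -(X 0 1 * X 1 0) = -(X 0 1 * X 1 0) := rfl
  refine ⟨by rw [Matrix.trace_add, t, t', add_zero], ?_, ?_, ?_⟩
  · rw [Matrix.add_apply]; linarith
  · rw [Matrix.add_apply]; linarith
  · simp only [Matrix.add_apply]
    have := Causal.cs_aux c b h c' b' h'
    have h2 : X 0 0 * Y 0 0 ≤ |X 0 0 * Y 0 0| := le_abs_self _
    nlinarith

theorem fut_smul {c : ℝ} (hc : 0 ≤ c) {X : M2} (hX : Fut X) : Fut (c • X) := by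
  obtain ⟨t, h1, h2, h3⟩ := hX
  refine ⟨by rw [Matrix.trace_smul, t, smul_zero], ?_, ?_, ?_⟩
  · rw [Matrix.smul_apply]; exact mul_nonneg hc h1
  · rw [Matrix.smul_apply]; exact mul_nonpos_of_nonneg_of_nonpos hc h2
  · simp only [Matrix.smul_apply, smul_eq_mul]
    have : 0 ≤ c ^ 2 := sq_nonneg c
    nlinarith

/-- positivity of the quadratic form -/
theorem Causal.psd_aux {a b c : ℝ} (hc : 0 ≤ c) (hb : b ≤ 0) (h : a ^ 2 ≤ -(b * c)) (x y : ℝ) :
    0 ≤ c * x ^ 2 + 2 * a * x * y - b * y ^ 2 := by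
  rcases eq_or_lt_of_le hc with h0 | h0
  · rw [← h0] at h ⊢
    have ha : a = 0 := by
      have : a ^ 2 ≤ 0 := by simpa using h
      exact pow_eq_zero_iff (two_ne_zero) |>.1 (le_antisymm this (sq_nonneg _))
    rw [ha]
    nlinarith [sq_nonneg y]
  · have h1 : 0 ≤ c * (c * x ^ 2 + 2 * a * x * y - b * y ^ 2) := by
      have e : c * (c * x ^ 2 + 2 * a * x * y - b * y ^ 2) =
          (c * x + a * y) ^ 2 + (-(b * c) - a ^ 2) * y ^ 2 := by ring
      rw [e]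
      have : 0 ≤ -(b * c) - a ^ 2 := by linarith
      positivity
    exact nonneg_of_mul_nonneg_right h1 h0

theorem Causal.coe_inv (g : SL2) : ((g⁻¹ : SL2) : M2) = !![(g : M2) 1 1, -(g : M2) 0 1;
    -(g : M2) 1 0, (g : M2) 0 0] := by
  rw [Matrix.SpecialLinearGroup.coe_inv, Matrix.adjugate_fin_two]

theorem Causal.det_eq (g : SL2) : (g : M2) 0 0 * (g : M2) 1 1 - (g : M2) 0 1 * (g : M2) 1 0 = 1 := by
  have := g.det_coe
  rwa [Matrix.det_fin_two] at this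

theorem Causal.ad_00 (g : SL2) (X : M2) : ad g X 0 0 =
    ((g : M2) 0 0 * X 0 0 + (g : M2) 0 1 * X 1 0) * (g : M2) 1 1 -
    ((g : M2) 0 0 * X 0 1 + (g : M2) 0 1 * X 1 1) * (g : M2) 1 0 := by
  unfold ad
  rw [Causal.coe_inv]
  simp [Matrix.mul_apply, Fin.sum_univ_two]
  ring

theorem Causal.ad_01 (g : SL2) (X : M2) : ad g X 0 1 =
    -((g : M2) 0 0 * X 0 0 + (g : M2) 0 1 * X 1 0) * (g : M2) 0 1 +
    ((g : M2) 0 0 * X 0 1 + (g : M2) 0 1 * X 1 1) * (g : M2) 0 0 := by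
  unfold ad
  rw [Causal.coe_inv]
  simp [Matrix.mul_apply, Fin.sum_univ_two]
  ring

theorem Causal.ad_10 (g : SL2) (X : M2) : ad g X 1 0 =
    ((g : M2) 1 0 * X 0 0 + (g : M2) 1 1 * X 1 0) * (g : M2) 1 1 -
    ((g : M2) 1 0 * X 0 1 + (g : M2) 1 1 * X 1 1) * (g : M2) 1 0 := by
  unfold ad
  rw [Causal.coe_inv]
  simp [Matrix.mul_apply, Fin.sum_univ_two]
  ring

theorem Causal.ad_11 (g : SL2) (X : M2) : ad g X 1 1 =
    -((g : M2) 1 0 * X 0 0 + (g : M2) 1 1 * X 1 0) * (g : M2) 0 1 +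
    ((g : M2) 1 0 * X 0 1 + (g : M2) 1 1 * X 1 1) * (g : M2) 0 0 := by
  unfold ad
  rw [Causal.coe_inv]
  simp [Matrix.mul_apply, Fin.sum_univ_two]
  ring

theorem Causal.coe_inv_mul (g : SL2) : ((g⁻¹ : SL2) : M2) * (g : M2) = 1 := by
  have : ((g⁻¹ * g : SL2) : M2) = 1 := by rw [inv_mul_cancel]; rfl
  rwa [Matrix.SpecialLinearGroup.coe_mul] at this

theorem ad_trace (g : SL2) (X : M2) : (ad g X).trace = X.trace := by
  unfold ad
  rw [Matrix.trace_mul_comm, ← Matrix.mul_assoc, Causal.coe_inv_mul, Matrix.one_mul]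

theorem ip_comm (X Y : M2) : ip X Y = ip Y X := by
  unfold ip
  rw [Matrix.trace_mul_comm]

theorem ip_add_left (X Y Z : M2) : ip (X + Y) Z = ip X Z + ip Y Z := by
  unfold ip
  rw [Matrix.add_mul, Matrix.trace_add]
  ring

theorem ip_smul_left (c : ℝ) (X Z : M2) : ip (c • X) Z = c * ip X Z := by
  unfold ip
  rw [Matrix.smul_mul, Matrix.trace_smul, smul_eq_mul]
  ring

theorem ip_neg_left (X Z : M2) : ip (-X) Z = -ip X Z := by
  unfold ip
  rw [Matrix.neg_mul, Matrix.trace_neg]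
  ring

theorem ad_one (X : M2) : ad 1 X = X := by
  unfold ad
  simp

theorem ad_mul (g h : SL2) (X : M2) : ad (g * h) X = ad g (ad h X) := by
  unfold ad
  rw [mul_inv_rev, Matrix.SpecialLinearGroup.coe_mul, Matrix.SpecialLinearGroup.coe_mul]
  simp only [Matrix.mul_assoc]

theorem ad_add (g : SL2) (X Y : M2) : ad g (X + Y) = ad g X + ad g Y := by
  unfold ad
  rw [Matrix.mul_add, Matrix.add_mul]

theorem ad_neg (g : SL2) (X : M2) : ad g (-X) = -ad g X := by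
  unfold ad
  rw [Matrix.mul_neg, Matrix.neg_mul]

theorem ip_ad (g : SL2) (X Y : M2) : ip (ad g X) (ad g Y) = ip X Y := by
  unfold ip ad
  have e : (g : M2) * X * ((g⁻¹ : SL2) : M2) * ((g : M2) * Y * ((g⁻¹ : SL2) : M2)) =
      (g : M2) * (X * Y) * ((g⁻¹ : SL2) : M2) := by
    have h := Causal.coe_inv_mul g
    calc _ = (g : M2) * X * (((g⁻¹ : SL2) : M2) * (g : M2)) * (Y * ((g⁻¹ : SL2) : M2)) := by
          simp only [Matrix.mul_assoc]
      _ = _ := by rw [h]; simp only [Matrix.mul_assoc, Matrix.mul_one]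
  rw [e]
  have := ad_trace g (X * Y)
  unfold ad at this
  rw [this]

theorem fut_ad (g : SL2) {X : M2} (hX : Fut X) : Fut (ad g X) := by
  obtain ⟨t, hc, hb, h⟩ := hX
  have h11 := Causal.tr_zero t
  have hd := Causal.det_eq g
  refine ⟨by rw [ad_trace, t], ?_, ?_, ?_⟩
  · rw [Causal.ad_10, h11]
    have := Causal.psd_aux hc hb h ((g : M2) 1 1) ((g : M2) 1 0)
    nlinarith
  · rw [Causal.ad_01, h11]
    have := Causal.psd_aux hc hb h ((g : M2) 0 1) ((g : M2) 0 0)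
    nlinarith
  · have h1 : ip (ad g X) (ad g X) = ip X X := ip_ad g X X
    rw [Causal.ip_eq' (by rw [ad_trace, t]) (by rw [ad_trace, t]), Causal.ip_eq' t t] at h1
    nlinarith

theorem fut_ip_nonpos {X Y : M2} (hX : Fut X) (hY : Fut Y) : ip X Y ≤ 0 := by
  obtain ⟨t, c, b, h⟩ := hX
  obtain ⟨t', c', b', h'⟩ := hY
  rw [Causal.ip_eq' t t']
  have := Causal.cs_aux c b h c' b' h'
  have h2 : X 0 0 * Y 0 0 ≤ |X 0 0 * Y 0 0| := le_abs_self _
  linarith

theorem Causal.fut_or_neg {X : M2} (hX : X.trace = 0) (hXX : ip X X ≤ 0) : Fut X ∨ Fut (-X) := by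
  rw [Causal.ip_eq' hX hX] at hXX
  have h1 : X 0 0 ^ 2 ≤ -(X 0 1 * X 1 0) := by nlinarith
  have h2 : X 0 1 * X 1 0 ≤ 0 := by nlinarith [sq_nonneg (X 0 0)]
  rcases le_or_gt 0 (X 1 0) with hc | hc
  · rcases le_or_gt (X 0 1) 0 with hb | hb
    · exact Or.inl ⟨hX, hc, hb, h1⟩
    · have hc0 : X 1 0 = 0 := by
        by_contra hne
        have : 0 < X 1 0 := lt_of_le_of_ne hc (Ne.symm hne)
        nlinarith [mul_pos hb this]
      refine Or.inr ⟨by rw [Matrix.trace_neg, hX, neg_zero], ?_, ?_, ?_⟩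
      · rw [Matrix.neg_apply, hc0, neg_zero]
      · rw [Matrix.neg_apply]; linarith
      · simp only [Matrix.neg_apply]
        nlinarith
  · rcases le_or_gt 0 (X 0 1) with hb | hb
    · refine Or.inr ⟨by rw [Matrix.trace_neg, hX, neg_zero], ?_, ?_, ?_⟩
      · rw [Matrix.neg_apply]; linarith
      · rw [Matrix.neg_apply]; linarith
      · simp only [Matrix.neg_apply]
        nlinarith
    · exfalso
      nlinarith [mul_pos_of_neg_of_neg hb hc]

/-- a causal vector with negative product with a future vector is future -/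
theorem fut_of_ip_neg {X Y : M2} (hX : X.trace = 0) (hXX : ip X X ≤ 0) (hY : Fut Y)
    (h : ip X Y < 0) : Fut X := by
  rcases Causal.fut_or_neg hX hXX with h1 | h1
  · exact h1
  · exfalso
    have := fut_ip_nonpos h1 hY
    rw [ip_neg_left] at this
    linarith

theorem fut_of_outward {X : M2} (hX : X.trace = 0) (hXX : ip X X ≤ 0)
    (h : 0 < X 1 0 - X 0 1) : Fut X := by
  rcases Causal.fut_or_neg hX hXX with h1 | h1
  · exact h1
  · exfalso
    have h2 := h1.2.1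
    have h3 := h1.2.2.1
    rw [Matrix.neg_apply] at h2 h3
    linarith

theorem fut_pos {X : M2} (hX : Fut X) (h : X ≠ 0) : 0 < X 1 0 - X 0 1 := by
  obtain ⟨t, hc, hb, h1⟩ := hX
  by_contra hcon
  push Not at hcon
  have hc0 : X 1 0 = 0 := by linarith
  have hb0 : X 0 1 = 0 := by linarith
  have ha : X 0 0 = 0 := by
    rw [hc0, hb0] at h1
    have : X 0 0 ^ 2 ≤ 0 := by simpa using h1
    exact pow_eq_zero_iff (two_ne_zero) |>.1 (le_antisymm this (sq_nonneg _))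
  apply h
  ext i j
  fin_cases i <;> fin_cases j
  · simpa using ha
  · simpa using hb0
  · simpa using hc0
  · have := Causal.tr_zero t
    rw [ha, neg_zero] at this
    simpa using this

theorem trace_bound (g : SL2) {X : M2} (h0 : X.trace = 0) (h1 : ip X X = 1) :
    ip X (ad g X) ≤ (g : M2).trace ^ 2 / 2 - 1 := by
  have hd := Causal.det_eq g
  rw [Causal.ip_eq' h0 h0] at h1
  have hN : X 0 0 ^ 2 + X 0 1 * X 1 0 = 1 := by linarith
  rw [Causal.ip_eq' h0 (by rw [ad_trace, h0]), Causal.ad_00, Causal.ad_10, Causal.ad_01, Causal.tr_zero h0, Causal.tr_eq]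
  have key : (((g : M2) 0 0 + (g : M2) 1 1) ^ 2 / 2 - 1) -
      (X 0 0 * (((g : M2) 0 0 * X 0 0 + (g : M2) 0 1 * X 1 0) * (g : M2) 1 1 -
        ((g : M2) 0 0 * X 0 1 + (g : M2) 0 1 * -X 0 0) * (g : M2) 1 0) +
      (X 0 1 * (((g : M2) 1 0 * X 0 0 + (g : M2) 1 1 * X 1 0) * (g : M2) 1 1 -
        ((g : M2) 1 0 * X 0 1 + (g : M2) 1 1 * -X 0 0) * (g : M2) 1 0) +
      X 1 0 * (-((g : M2) 0 0 * X 0 0 + (g : M2) 0 1 * X 1 0) * (g : M2) 0 1 +
        ((g : M2) 0 0 * X 0 1 + (g : M2) 0 1 * -X 0 0) * (g : M2) 0 0)) / 2) =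
      (X 0 0 * ((g : M2) 0 0 - (g : M2) 1 1) + X 0 1 * (g : M2) 1 0 + X 1 0 * (g : M2) 0 1) ^ 2 / 2 := by
    linear_combination (-(((g : M2) 0 0 + (g : M2) 1 1) ^ 2 / 2 - 1)) * hN +
      (X 0 0 ^ 2 + X 0 1 * X 1 0) * hd
  nlinarith [sq_nonneg (X 0 0 * ((g : M2) 0 0 - (g : M2) 1 1) + X 0 1 * (g : M2) 1 0 +
    X 1 0 * (g : M2) 0 1)]

theorem Causal.fut_zero : Fut 0 := by
  refine ⟨by simp, by simp, by simp, by simp⟩

theorem chain_bound (n : ℕ → M2) (r : ℕ) (h0 : ∀ i ≤ r, (n i).trace = 0)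
    (h1 : ∀ i ≤ r, ip (n i) (n i) = 1) (hf : ∀ i < r, Fut (n (i + 1) - n i)) :
    1 + ∑ i ∈ Finset.range r, (ip (n i) (n (i + 1)) - 1) ≤ ip (n 0) (n r) := by
  have key : ∀ m ≤ r, Fut (n m - n 0) ∧
      1 + ∑ i ∈ Finset.range m, (ip (n i) (n (i + 1)) - 1) ≤ ip (n 0) (n m) := by
    intro m
    induction m with
    | zero =>
      intro _
      refine ⟨by rw [sub_self]; exact Causal.fut_zero, ?_⟩
      rw [h1 0 (Nat.zero_le _)]
      simp
    | succ m ih =>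
      intro hm
      obtain ⟨ih1, ih2⟩ := ih (by omega)
      have hv := hf m (by omega)
      refine ⟨?_, ?_⟩
      · have : n (m + 1) - n 0 = (n m - n 0) + (n (m + 1) - n m) := by abel
        rw [this]
        exact fut_add ih1 hv
      · rw [Finset.sum_range_succ]
        have h2 := fut_ip_nonpos ih1 hv
        have h3 : ip (n m - n 0) (n (m + 1) - n m) =
            ip (n m) (n (m + 1)) - ip (n m) (n m) - ip (n 0) (n (m + 1)) + ip (n 0) (n m) := by
          simp only [Causal.ip_eq, Matrix.sub_apply]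
          ring
        rw [h3, h1 m (by omega)] at h2
        linarith
  exact (key r le_rfl).2

end Pool.Agent.DC
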