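import Pool.Agent.DC.D.Growth

/-!
# Project DC, block D: words as matrices, trace of a cyclically reduced word
-/

open scoped ENNReal UpperHalfPlane Matrix ContDiff
open MeasureTheory Set

namespace Pool.Agent.DC

namespace Hex
variable (H : Hex)

theorem W_mul (v w : List (Fin 3)) : H.W (v ++ w) = H.W v * H.W w := by
  unfold W
  rw [List.map_append, List.prod_append]

theorem W_cons (j : Fin 3) (w : List (Fin 3)) : H.W (j :: w) = H.s j * H.W w := by
  unfold W
  rw [List.map_cons, List.prod_cons]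

theorem W_nil : H.W [] = 1 := by
  unfold W
  rw [List.map_nil, List.prod_nil]

theorem W_singleton (j : Fin 3) : H.W [j] = H.s j := by
  rw [W_cons, W_nil, mul_one]

theorem W_det_pow (w : List (Fin 3)) : (H.W w).det = (-1) ^ w.length := by
  induction w with
  | nil => simp [W_nil]
  | cons j w ih =>
    rw [W_cons, Matrix.det_mul, ih, H.det j, List.length_cons, pow_succ]
    ring

theorem W_det (w : List (Fin 3)) (hw : Even w.length) : (H.W w).det = 1 := by
  rw [W_det_pow, hw.neg_one_pow]

theorem W_reverse_cons (j : Fin 3) (w : List (Fin 3)) :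
    H.W (j :: w).reverse = H.W w.reverse * H.s j := by
  rw [List.reverse_cons, W_mul, W_singleton]

theorem W_mul_reverse (w : List (Fin 3)) : H.W w * H.W w.reverse = 1 := by
  induction w with
  | nil => simp [W_nil]
  | cons j w ih =>
    rw [W_reverse_cons, W_cons]
    calc H.s j * H.W w * (H.W w.reverse * H.s j)
        = H.s j * (H.W w * H.W w.reverse) * H.s j := by simp only [mul_assoc]
      _ = 1 := by rw [ih, mul_one, H.s_sq]

theorem act_eq_W (w : List (Fin 3)) (X : M2) :
    H.act w X = ((-1 : ℝ) ^ w.length) • (H.W w * X * H.W w.reverse) := by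
  induction w with
  | nil => simp [W_nil, act]
  | cons j w ih =>
    rw [W_reverse_cons, W_cons, List.length_cons]
    show -(H.s j * H.act w X * H.s j) = _
    rw [ih, pow_succ, mul_smul, Matrix.mul_smul, Matrix.smul_mul]
    simp only [mul_assoc, neg_smul, one_smul, smul_neg]

theorem act_eq_ad (w : List (Fin 3)) (hw : Even w.length) (g : SL2) (hg : (g : M2) = H.W w) (X : M2) :
    H.act w X = ad g X := by
  have h1 : ((g⁻¹ : SL2) : M2) * (g : M2) = 1 := by
    rw [← Matrix.SpecialLinearGroup.coe_mul, inv_mul_cancel, Matrix.SpecialLinearGroup.coe_one]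
  have h2 : ((g⁻¹ : SL2) : M2) = H.W w.reverse := by
    calc ((g⁻¹ : SL2) : M2) = ((g⁻¹ : SL2) : M2) * (H.W w * H.W w.reverse) := by
          rw [W_mul_reverse, mul_one]
      _ = (((g⁻¹ : SL2) : M2) * (g : M2)) * H.W w.reverse := by rw [hg, mul_assoc]
      _ = H.W w.reverse := by rw [h1, one_mul]
  unfold ad
  rw [h2, hg, act_eq_W, hw.neg_one_pow, one_smul]

theorem trace_W_comm (v w : List (Fin 3)) : (H.W (v ++ w)).trace = (H.W (w ++ v)).trace := by
  rw [W_mul, W_mul, Matrix.trace_mul_comm]

/-! ### The chain of normals -/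

theorem act_fut (w : List (Fin 3)) {X : M2} (hX : Fut X) : Fut (H.act w X) := by
  induction w with
  | nil => exact hX
  | cons j w ih => exact H.refl_fut j ih

theorem refl_sub (j : Fin 3) (X Y : M2) : H.refl j (X - Y) = H.refl j X - H.refl j Y := by
  unfold refl
  rw [Matrix.mul_sub, Matrix.sub_mul]
  abel

theorem act_sub (w : List (Fin 3)) (X Y : M2) : H.act w (X - Y) = H.act w X - H.act w Y := by
  induction w with
  | nil => rfl
  | cons j w ih =>
    show H.refl j (H.act w (X - Y)) = H.refl j (H.act w X) - H.refl j (H.act w Y)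
    rw [ih, refl_sub]

theorem refl_add (j : Fin 3) (X Y : M2) : H.refl j (X + Y) = H.refl j X + H.refl j Y := by
  unfold refl
  rw [Matrix.mul_add, Matrix.add_mul]
  abel

theorem refl_s_sub (a b : Fin 3) : H.refl a (H.s b) - H.s a = H.refl a (H.s a + H.s b) := by
  rw [refl_add, H.refl_s_self]
  abel

/-- the product of two different normals -/
theorem ip_s_ne {a b : Fin 3} (hab : a ≠ b) : ip (H.s a) (H.s b) ≤ -1 := by
  have h0 := H.ip_s_12 0
  have h1 := H.ip_s_12 1
  have h2 := H.ip_s_12 2
  have c0 := H.hC 0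
  have c1 := H.hC 1
  have c2 := H.hC 2
  have e01 : (0 : Fin 3) + 1 = 1 := rfl
  have e02 : (0 : Fin 3) + 2 = 2 := rfl
  have e11 : (1 : Fin 3) + 1 = 2 := rfl
  have e12 : (1 : Fin 3) + 2 = 0 := rfl
  have e21 : (2 : Fin 3) + 1 = 0 := rfl
  have e22 : (2 : Fin 3) + 2 = 1 := rfl
  rw [e01, e02] at h0
  rw [e11, e12] at h1
  rw [e21, e22] at h2
  fin_cases a <;> fin_cases b
  · exact absurd rfl hab
  · show ip (H.s 0) (H.s 1) ≤ -1
    linarith
  · show ip (H.s 0) (H.s 2) ≤ -1
    rw [ip_comm]
    linarith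
  · show ip (H.s 1) (H.s 0) ≤ -1
    rw [ip_comm]
    linarith
  · exact absurd rfl hab
  · show ip (H.s 1) (H.s 2) ≤ -1
    linarith
  · show ip (H.s 2) (H.s 0) ≤ -1
    linarith
  · show ip (H.s 2) (H.s 1) ≤ -1
    rw [ip_comm]
    linarith
  · exact absurd rfl hab

theorem ip_s_refl (a : Fin 3) (X : M2) : ip (H.s a) (H.refl a X) = -ip (H.s a) X := by
  have h := H.ip_refl a (H.s a) (H.refl a X)
  rw [H.refl_refl, H.refl_s_self, ip_neg_left] at h
  linarith

/-- the normals along a word -/
noncomputable def nu (w : List (Fin 3)) (m : ℕ) : M2 := H.act (w.take m) (H.s (w.getD m 0))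

theorem take_succ_getD (w : List (Fin 3)) (m : ℕ) (hm : m < w.length) :
    w.take (m + 1) = w.take m ++ [w.getD m 0] := by
  rw [List.take_add_one, List.getD_eq_getElem?_getD, List.getElem?_eq_getElem hm]
  simp

theorem act_single (j : Fin 3) (X : M2) : H.act [j] X = H.refl j X := rfl

theorem nu_succ (w : List (Fin 3)) (m : ℕ) (hm : m < w.length) :
    H.nu w (m + 1) = H.act (w.take m) (H.refl (w.getD m 0) (H.s (w.getD (m + 1) 0))) := by
  unfold nu
  rw [take_succ_getD w m hm, H.act_append, act_single]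

theorem chain_getD {w : List (Fin 3)} (hch : List.IsChain (· ≠ ·) w) (m : ℕ)
    (hm : m + 1 < w.length) : w.getD m 0 ≠ w.getD (m + 1) 0 := by
  have h := (List.isChain_iff_getElem.mp hch) m hm
  have hm' : m < w.length := by omega
  rw [List.getD_eq_getElem w 0 hm', List.getD_eq_getElem w 0 hm]
  exact h

theorem nu_fut {w : List (Fin 3)} (hch : List.IsChain (· ≠ ·) w) (m : ℕ)
    (hm : m + 1 < w.length) : Fut (H.nu w (m + 1) - H.nu w m) := by
  rw [nu_succ H w m (by omega)]
  show Fut (H.act (w.take m) _ - H.act (w.take m) _)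
  rw [← act_sub, refl_s_sub]
  exact H.act_fut _ (H.refl_fut _ (H.fut_s_add (chain_getD hch m hm)))

theorem nu_ip {w : List (Fin 3)} (hch : List.IsChain (· ≠ ·) w) (m : ℕ)
    (hm : m + 1 < w.length) : 1 ≤ ip (H.nu w m) (H.nu w (m + 1)) := by
  rw [nu_succ H w m (by omega)]
  show 1 ≤ ip (H.act (w.take m) _) (H.act (w.take m) _)
  rw [H.ip_act, ip_s_refl]
  have := H.ip_s_ne (chain_getD hch m hm)
  linarith

theorem nu_trace (w : List (Fin 3)) (m : ℕ) : (H.nu w m).trace = 0 :=
  H.act_trace _ (H.tr _)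

theorem nu_ip_self (w : List (Fin 3)) (m : ℕ) : ip (H.nu w m) (H.nu w m) = 1 := by
  unfold nu
  rw [H.ip_act, H.ip_s_s]

/-- the chain bound for a reduced word which starts with three distinct letters -/
theorem nu_bound {w : List (Fin 3)} (hch : List.IsChain (· ≠ ·) w) (i j k : Fin 3)
    (hij : i ≠ j) (hjk : j ≠ k) (hik : i ≠ k) (n : ℕ) (hn : 2 ≤ n) (hlen : n < w.length)
    (h0 : w.getD 0 0 = i) (h1 : w.getD 1 0 = j) (h2 : w.getD 2 0 = k) :
    3 ≤ ip (H.nu w 0) (H.nu w n) := by
  obtain ⟨r, rfl⟩ : ∃ r, n = r + 2 := ⟨n - 2, by omega⟩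
  let f : ℕ → M2 := fun t => if t = 0 then H.nu w 0 else H.nu w (t + 1)
  have f0 : f 0 = H.nu w 0 := if_pos rfl
  have fs : ∀ t, f (t + 1) = H.nu w (t + 2) := fun t => if_neg (Nat.succ_ne_zero t)
  have key := chain_bound f (r + 1)
    (fun t _ => by
      rcases t with _ | t
      · rw [f0]; exact H.nu_trace _ _
      · rw [fs]; exact H.nu_trace _ _)
    (fun t _ => by
      rcases t with _ | t
      · rw [f0]; exact H.nu_ip_self _ _
      · rw [fs]; exact H.nu_ip_self _ _)
    (fun t ht => by
      rcases t with _ | t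
      · rw [f0, fs]
        have e : H.nu w (0 + 2) - H.nu w 0 =
            (H.nu w (0 + 1) - H.nu w 0) + (H.nu w (1 + 1) - H.nu w 1) := by
          abel
        rw [e]
        exact fut_add (H.nu_fut hch 0 (by omega)) (H.nu_fut hch 1 (by omega))
      · rw [fs, fs]
        exact H.nu_fut hch (t + 2) (by omega))
  have hfirst : 3 ≤ ip (f 0) (f 1) := by
    rw [f0, fs 0]
    have e1 : H.nu w 0 = H.s i := by
      unfold nu
      rw [List.take_zero, h0]
      rfl
    have e2 : H.nu w (0 + 2) = H.refl i (H.refl j (H.s k)) := by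
      rw [nu_succ H w 1 (by omega), take_succ_getD w 0 (by omega), List.take_zero, h0, h1, h2]
      rfl
    rw [e1, e2, ip_s_refl, H.refl_eq j (H.tr k)]
    have hc1 := H.ip_s_ne hij
    have hc2 := H.ip_s_ne hjk
    have hc3 := H.ip_s_ne hik
    have e3 : ip (H.s i) (H.s k - (2 * ip (H.s k) (H.s j)) • H.s j) =
        ip (H.s i) (H.s k) - 2 * ip (H.s j) (H.s k) * ip (H.s i) (H.s j) := by
      rw [ip_comm (H.s i), sub_eq_add_neg, ip_add_left, ip_neg_left, ip_smul_left,
        ip_comm (H.s k) (H.s i), ip_comm (H.s k) (H.s j), ip_comm (H.s j) (H.s i)]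
      ring
    rw [e3]
    have h4 : 1 ≤ (-ip (H.s j) (H.s k)) * (-ip (H.s i) (H.s j)) :=
      one_le_mul_of_one_le_of_one_le (by linarith) (by linarith)
    linarith
  have hrest : ∀ t ∈ Finset.range r, 0 ≤ ip (f (t + 1)) (f (t + 1 + 1)) - 1 := by
    intro t ht
    rw [Finset.mem_range] at ht
    rw [fs, fs]
    have := H.nu_ip hch (t + 2) (by omega)
    linarith
  rw [Finset.sum_range_succ'] at key
  have hsum := Finset.sum_nonneg hrest
  have e : f (r + 1) = H.nu w (r + 2) := fs r
  rw [e] at key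
  have e' : f (0 + 1) = f 1 := rfl
  rw [e'] at key
  rw [f0] at key hfirst
  linarith

/-- a cyclically reduced even word which starts with three distinct letters -/
theorem trace_three (i j k : Fin 3) (w : List (Fin 3)) (hij : i ≠ j) (hjk : j ≠ k) (hik : i ≠ k)
    (hev : Even (i :: j :: k :: w).length) (hch : List.IsChain (· ≠ ·) (i :: j :: k :: w))
    (hlast : ∀ m, (i :: j :: k :: w).getLast? = some m → m ≠ i) :
    8 ≤ (H.W (i :: j :: k :: w)).trace ^ 2 := by
  set v : List (Fin 3) := i :: j :: k :: w with hv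
  let g : SL2 := ⟨H.W v, H.W_det v hev⟩
  have hg : (g : M2) = H.W v := rfl
  have hch' : List.IsChain (· ≠ ·) (v ++ [i]) := by
    rw [List.isChain_append]
    refine ⟨hch, List.isChain_singleton i, ?_⟩
    intro x hx y hy
    have hy' : y = i := by
      simpa using hy.symm
    rw [hy']
    exact hlast x (by simpa using hx)
  have hb := H.nu_bound hch' i j k hij hjk hik v.length (by simp [hv]) (by simp)
    (by simp [hv]) (by simp [hv]) (by simp [hv])
  have e0 : H.nu (v ++ [i]) 0 = H.s i := by
    unfold nu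
    rw [List.take_zero]
    show H.act [] (H.s i) = H.s i
    rfl
  have en : H.nu (v ++ [i]) v.length = ad g (H.s i) := by
    unfold nu
    rw [List.take_left]
    have : (v ++ [i]).getD v.length 0 = i := by
      simp
    rw [this]
    exact H.act_eq_ad v hev g hg _
  rw [e0, en] at hb
  have ht := trace_bound g (H.tr i) (H.ip_s_s i)
  rw [hg] at ht
  linarith

end Hex

end Pool.Agent.DC
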