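import Pool.Agent.DC.D.HexNormal
import Pool.Agent.DC.D.WordMat

/-!
Project DC, block D (helper6): the centre of a hexagon along reduced words, walls.
-/

open scoped ENNReal UpperHalfPlane Matrix ContDiff
open MeasureTheory Set

namespace Pool.Agent.DC

/-- Gram determinant of three vectors -/
theorem gram_three (X Y Z : M2) (hX : X.trace = 0) (hY : Y.trace = 0) (hZ : Z.trace = 0) :
    ip X X * (ip Y Y * ip Z Z - ip Y Z * ip Y Z) - ip X Y * (ip X Y * ip Z Z - ip Y Z * ip X Z)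
      + ip X Z * (ip X Y * ip Y Z - ip Y Y * ip X Z) = -((X * Y * Z).trace / 2) ^ 2 := by
  rw [Matrix.trace_fin_two] at hX hY hZ
  have h1 : X 1 1 = -X 0 0 := by linarith
  have h2 : Y 1 1 = -Y 0 0 := by linarith
  have h3 : Z 1 1 = -Z 0 0 := by linarith
  simp only [ip, Matrix.trace_fin_two, Matrix.mul_apply, Fin.sum_univ_two, h1, h2, h3]
  ring

/-- a point `p` and a point `q` separated by the wall `n`, `p` at distance from the wall -/
theorem wall_sep {n p q : M2} {κ : ℝ} (hn : n.trace = 0) (hp : p.trace = 0) (hq : q.trace = 0)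
    (hnn : ip n n = 1) (hpp : ip p p = -κ) (hqq : ip q q = -κ) (hκ : 0 < κ) (hy : ip p q ≤ 0)
    (h1 : ip n p ≤ -1) (h2 : 0 ≤ ip n q) : κ ^ 2 + κ ≤ ip p q ^ 2 := by
  have h := gram_three n p q hn hp hq
  rw [hnn, hpp, hqq] at h
  have h3 : 0 ≤ ((n * p * q).trace / 2) ^ 2 := sq_nonneg _
  have h4 : 0 ≤ (ip n p * ip n q) * ip p q := by
    have : ip n p * ip n q ≤ 0 := mul_nonpos_of_nonpos_of_nonneg (by linarith) h2
    exact mul_nonneg_of_nonpos_of_nonpos this hy
  have h50 : 1 ≤ (ip n p) ^ 2 := by nlinarith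
  have h5 : κ ≤ κ * (ip n p) ^ 2 := le_mul_of_one_le_right hκ.le h50
  have h6 : 0 ≤ κ * (ip n q) ^ 2 := by positivity
  nlinarith

namespace Hex
variable (H : Hex)

/-- the centre of the hexagon (not normalised) -/
noncomputable def ctr : M2 := -(H.u 0 + H.u 1 + H.u 2)

theorem ctr_eq (m : Fin 3) : H.ctr = -(H.u m + H.u (m + 1) + H.u (m + 2)) := by
  fin_cases m
  · rfl
  · show -(H.u 0 + H.u 1 + H.u 2) = -(H.u 1 + H.u 2 + H.u 0)
    abel
  · show -(H.u 0 + H.u 1 + H.u 2) = -(H.u 2 + H.u 0 + H.u 1)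
    abel

theorem ctr_trace : H.ctr.trace = 0 := by
  rw [ctr, Matrix.trace_neg, Matrix.trace_add, Matrix.trace_add, H.u_trace, H.u_trace, H.u_trace]
  simp

theorem ip_u_u2 (m : Fin 3) : ip (H.u (m + 2)) (H.u m) =
    -(H.C (m + 1) + H.C (m + 2) * H.C m) := by
  have h := H.ip_u_u1 (m + 2)
  have e1 : m + 2 + 1 = m := by fin_cases m <;> rfl
  have e2 : m + 2 + 2 = m + 1 := by fin_cases m <;> rfl
  rwa [e1, e2] at h

theorem xi_ctr (m : Fin 3) : H.xi m H.ctr =
    1 - H.C m ^ 2 + (H.C (m + 2) + H.C m * H.C (m + 1)) + (H.C (m + 1) + H.C (m + 2) * H.C m) := by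
  rw [xi, H.ctr_eq m, ip_neg_left, ip_add_left, ip_add_left, H.ip_u_u, H.ip_u_u2,
    ip_comm (H.u (m + 1)), H.ip_u_u1]
  ring

theorem xi_ctr_ge (hC : ∀ m, H.C m ≤ 5 / 4) (m : Fin 3) : 3 ≤ H.xi m H.ctr := by
  rw [xi_ctr]
  have h0 := H.hC m
  have h1 := H.hC (m + 1)
  have h2 := H.hC (m + 2)
  have h3 := hC m
  nlinarith

theorem xi_ctr_le (hC : ∀ m, H.C m ≤ 5 / 4) (m : Fin 3) : H.xi m H.ctr ≤ 6 := by
  rw [xi_ctr]
  have h0 := H.hC m
  have h1 := H.hC (m + 1)
  have h2 := H.hC (m + 2)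
  have h3 := hC m
  have h4 := hC (m + 1)
  have h5 := hC (m + 2)
  nlinarith

theorem ip_ctr_s (m : Fin 3) : ip H.ctr (H.s m) = -ip (H.u m) (H.s m) := by
  have h1 := H.ip_u_s1 (m + 2)
  have h2 := H.ip_u_s2 (m + 1)
  have e1 : m + 2 + 1 = m := by fin_cases m <;> rfl
  have e2 : m + 1 + 2 = m := by fin_cases m <;> rfl
  rw [e1] at h1
  rw [e2] at h2
  rw [H.ctr_eq m, ip_neg_left, ip_add_left, ip_add_left, h1, h2]
  ring

/-- the volume of the three normals -/
theorem ip_u_s_ge (m : Fin 3) : 1 ≤ ip (H.u m) (H.s m) := by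
  have hp := H.ip_u_s_self m
  have h := gram_three (H.s 0) (H.s 1) (H.s 2) (H.tr 0) (H.tr 1) (H.tr 2)
  have e0 : ip (H.s 1) (H.s 2) = -H.C 0 := H.ip_s_12 0
  have e1 : ip (H.s 2) (H.s 0) = -H.C 1 := H.ip_s_12 1
  have e2 : ip (H.s 0) (H.s 1) = -H.C 2 := H.ip_s_12 2
  rw [ip_comm (H.s 0) (H.s 2), e0, e1, e2, H.ip_s_s, H.ip_s_s, H.ip_s_s] at h
  rw [H.ip_u_s_all] at hp ⊢
  have c0 := H.hC 0
  have c1 := H.hC 1
  have c2 := H.hC 2
  have h01 : 1 ≤ H.C 0 * H.C 1 := by nlinarith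
  have h012 : 1 ≤ H.C 0 * H.C 1 * H.C 2 := by nlinarith
  have hsq : 1 ≤ ((H.s 0 * H.s 1 * H.s 2).trace / 2) ^ 2 := by nlinarith
  nlinarith

theorem ip_s_expand (j : Fin 3) (X : M2) : ip (H.u j) (H.s j) * ip X (H.s j) =
    H.xi j X - H.C (j + 2) * H.xi (j + 1) X - H.C (j + 1) * H.xi (j + 2) X := by
  have h := congrArg (fun Y => ip X Y) (H.s_expand j)
  simp only [sub_eq_add_neg] at h
  rw [ip_comm X, ip_smul_left, ip_comm X, ip_add_left, ip_add_left, ip_neg_left, ip_neg_left,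
    ip_smul_left, ip_smul_left, ip_comm _ X, ip_comm _ X, ip_comm _ X, ip_comm _ X] at h
  rw [h]
  simp only [xi]
  ring

/-- growth of the coordinates of the centre along a reduced word -/
theorem growth_ctr (hC : ∀ m, H.C m ≤ 5 / 4) : ∀ w : List (Fin 3), List.IsChain (· ≠ ·) w →
    (H.act w H.ctr).trace = 0 ∧ (∀ m, 3 ≤ H.xi m (H.act w H.ctr)) ∧
    (∀ j, w.head? = some j → ∀ m, H.xi m (H.act w H.ctr) ≤ H.xi j (H.act w H.ctr)) := by
  intro w
  induction w with
  | nil =>
    intro _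
    exact ⟨H.ctr_trace, H.xi_ctr_ge hC, by simp⟩
  | cons j w ih =>
    intro hw
    have hw' : List.IsChain (· ≠ ·) w := hw.tail
    obtain ⟨ht, h3, hd⟩ := ih hw'
    have hself := H.xi_refl_self j ht
    have hne := fun k hk => H.xi_refl_ne j k hk ht
    have c1 := H.hC (j + 1)
    have c2 := H.hC (j + 2)
    have x0 := h3 j
    have x1 := h3 (j + 1)
    have x2 := h3 (j + 2)
    have m1 : H.xi (j + 2) (H.act w H.ctr) ≤ H.C (j + 1) * H.xi (j + 2) (H.act w H.ctr) :=
      le_mul_of_one_le_left (by linarith) c1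
    have m2 : H.xi (j + 1) (H.act w H.ctr) ≤ H.C (j + 2) * H.xi (j + 1) (H.act w H.ctr) :=
      le_mul_of_one_le_left (by linarith) c2
    -- the new coordinate dominates the old ones
    have key : (∀ m, H.xi m (H.act w H.ctr) ≤ H.xi j (H.refl j (H.act w H.ctr))) := by
      cases w with
      | nil =>
        intro m
        have := H.xi_ctr_le hC m
        have := H.xi_ctr_le hC j
        simp only [act] at *
        rw [hself]
        linarith
      | cons i w =>
        have hij : i ≠ j := by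
          intro h
          have := (List.isChain_cons_cons.1 hw).1
          exact this h.symm
        have hdi := hd i rfl
        have hcase : i = j + 1 ∨ i = j + 2 := by
          revert hij; fin_cases i <;> fin_cases j <;> decide
        intro m
        have hm := hdi m
        have hj := hdi j
        rw [hself]
        rcases hcase with rfl | rfl <;> linarith
    refine ⟨H.refl_trace j ht, ?_, ?_⟩
    · intro m
      by_cases hm : m = j
      · subst hm
        exact x0.trans (key m)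
      · rw [act, hne m hm]; exact h3 m
    · intro j' hj' m
      simp only [List.head?_cons, Option.some.injEq] at hj'
      subst hj'
      by_cases hm : m = j
      · subst hm; exact le_refl _
      · rw [act, hne m hm]; exact key m

/-- the first wall of a nonempty reduced word separates the centre from its image -/
theorem wall_word (hC : ∀ m, H.C m ≤ 5 / 4) (i : Fin 3) (w : List (Fin 3))
    (hw : List.IsChain (· ≠ ·) (i :: w)) : 0 ≤ ip (H.s i) (H.act (i :: w) H.ctr) := by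
  obtain ⟨ht, h3, hd⟩ := H.growth_ctr hC w hw.tail
  have h1 : ip (H.s i) (H.act (i :: w) H.ctr) = -ip (H.act w H.ctr) (H.s i) := by
    have := H.ip_refl i (H.s i) (H.act w H.ctr)
    rw [H.refl_s_self, ip_neg_left] at this
    rw [act, ip_comm (H.act w H.ctr)]
    linarith
  rw [h1, neg_nonneg]
  have hτ := H.ip_u_s_ge i
  have hexp := H.ip_s_expand i (H.act w H.ctr)
  have c1 := H.hC (i + 1)
  have c2 := H.hC (i + 2)
  have x0 := h3 i
  have x1 := h3 (i + 1)
  have x2 := h3 (i + 2)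
  have m1 : H.xi (i + 2) (H.act w H.ctr) ≤ H.C (i + 1) * H.xi (i + 2) (H.act w H.ctr) :=
    le_mul_of_one_le_left (by linarith) c1
  have m2 : H.xi (i + 1) (H.act w H.ctr) ≤ H.C (i + 2) * H.xi (i + 1) (H.act w H.ctr) :=
    le_mul_of_one_le_left (by linarith) c2
  cases w with
  | nil =>
    have := H.ip_ctr_s i
    simp only [act]
    rw [this]
    linarith
  | cons k w =>
    have hki : k ≠ i := by
      intro h
      have := (List.isChain_cons_cons.1 hw).1
      exact this h.symm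
    have hdi := hd k rfl i
    have hcase : k = i + 1 ∨ k = i + 2 := by
      revert hki; fin_cases k <;> fin_cases i <;> decide
    have hneg : ip (H.u i) (H.s i) * ip (H.act (k :: w) H.ctr) (H.s i) ≤ 0 := by
      rw [hexp]
      rcases hcase with rfl | rfl <;> linarith
    by_contra hcon
    rw [not_le] at hcon
    have : 0 < ip (H.u i) (H.s i) * ip (H.act (k :: w) H.ctr) (H.s i) :=
      mul_pos (by linarith) hcon
    linarith

theorem ip_ctr_s_le (m : Fin 3) : ip (H.s m) H.ctr ≤ -1 := by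
  rw [ip_comm, H.ip_ctr_s]
  have := H.ip_u_s_ge m
  linarith

theorem ip_a_act_ctr (hC : ∀ m, H.C m ≤ 5 / 4) {i : Fin 3} (hi : 1 < H.C i) (w : List (Fin 3))
    (hw : List.IsChain (· ≠ ·) w) : ip (H.a i) (H.act w H.ctr) ≤ -1 := by
  obtain ⟨ht, h3, hd⟩ := H.growth_ctr hC w hw
  rw [H.ip_a_eq]
  have hS := H.S_pos hi
  have hS2 := H.S_sq i
  have hS3 : H.S i ≤ 1 := by
    have := hC i
    have := H.hC i
    nlinarith
  have h := h3 i
  have : 1 ≤ H.xi i (H.act w H.ctr) / H.S i := by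
    rw [le_div_iff₀ hS]; linarith
  linarith

theorem ip_ctr_ctr (hC : ∀ m, H.C m ≤ 5 / 4) : ip H.ctr H.ctr < 0 := by
  have h : ip H.ctr H.ctr = -(H.xi 0 H.ctr + H.xi 1 H.ctr + H.xi 2 H.ctr) := by
    simp only [xi]
    nth_rw 1 [ctr]
    rw [ip_neg_left, ip_add_left, ip_add_left, ip_comm (H.u 0), ip_comm (H.u 1), ip_comm (H.u 2)]
  rw [h]
  have := H.xi_ctr_ge hC 0
  have := H.xi_ctr_ge hC 1
  have := H.xi_ctr_ge hC 2
  linarith

theorem ctr_fut (hC : ∀ m, H.C m ≤ 5 / 4) : Fut H.ctr :=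
  H.fut_center fun m => (hC m).trans (by norm_num)

end Hex

end Pool.Agent.DC
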