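import Pool.Agent.DC.D.PathBasic

/-!
# Project DC, row D11: cyclic reduction of closed paths
-/

open scoped ENNReal UpperHalfPlane Matrix ContDiff
open MeasureTheory Set

namespace Pool.Agent.DC

namespace PantsGraph
variable {G : PantsGraph}

/-- one step of a path: an oriented edge followed by an element of a pants group -/
abbrev CRStep (G : PantsGraph) : Type := (Fin G.d × Bool) × G.PathGroup

/-- start of a step -/
def crSrc (s : CRStep G) : Fin G.V := (G.side s.1.1 s.1.2).1

/-- end of a step -/
def crTgt (s : CRStep G) : Fin G.V := (G.side s.1.1 (!s.1.2)).1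

/-- the element of a list of steps -/
def crWd : List (CRStep G) → G.PathGroup
  | [] => 1
  | s :: l => oe s.1 * s.2 * crWd l

/-- the list of steps is a path from `P` to `Q` -/
def CROk : Fin G.V → List (CRStep G) → Fin G.V → Prop
  | P, [], Q => P = Q
  | P, s :: l, Q => crSrc s = P ∧ s.2 ∈ PG (crTgt s) ∧ CROk (crTgt s) l Q

theorem crWd_append (l₁ l₂ : List (CRStep G)) : crWd (l₁ ++ l₂) = crWd l₁ * crWd l₂ := by
  induction l₁ with
  | nil => simp [crWd]
  | cons s l ih => simp [crWd, ih, mul_assoc]

theorem crOk_append {P Q : Fin G.V} {l₁ l₂ : List (CRStep G)} :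
    CROk P (l₁ ++ l₂) Q ↔ ∃ R, CROk P l₁ R ∧ CROk R l₂ Q := by
  induction l₁ generalizing P with
  | nil => simp [CROk]
  | cons s l ih =>
    simp only [List.cons_append, CROk]
    rw [ih]
    constructor
    · rintro ⟨h1, h2, R, h3, h4⟩
      exact ⟨R, ⟨h1, h2, h3⟩, h4⟩
    · rintro ⟨R, ⟨h1, h2, h3⟩, h4⟩
      exact ⟨h1, h2, R, h3, h4⟩

theorem crOk_isPath {P Q : Fin G.V} {l : List (CRStep G)} (h : CROk P l Q) :
    G.IsPath P Q (crWd l) := by
  induction l generalizing P with
  | nil =>
    have h1 : P = Q := h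
    subst h1
    exact IsPath.refl P
  | cons s l ih =>
    obtain ⟨h1, h2, h3⟩ := h
    have h4 := isPath_oe (G := G) s.1
    have h5 := isPath_pg _ h2
    subst h1
    exact (h4.mul h5).mul (ih h3)

/-- multiplication from the right by an element of the last pants group -/
theorem crAbsorb {Q : Fin G.V} {x : G.PathGroup} (hx : x ∈ PG Q) (l : List (CRStep G)) :
    ∀ (P : Fin G.V) (q : G.PathGroup), q ∈ PG P → CROk P l Q →
      ∃ q' ∈ PG P, ∃ l', CROk P l' Q ∧ l'.length = l.length ∧
        q * crWd l * x = q' * crWd l' := by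
  induction l with
  | nil =>
    intro P q hq h
    have h1 : P = Q := h
    subst h1
    exact ⟨q * x, mul_mem hq hx, [], rfl, rfl, by simp [crWd]⟩
  | cons s l ih =>
    intro P q hq h
    obtain ⟨h1, h2, h3⟩ := h
    obtain ⟨q', hq', l', hl', hlen, he⟩ := ih _ s.2 h2 h3
    refine ⟨q, hq, (s.1, q') :: l', ⟨h1, hq', hl'⟩, by simp [hlen], ?_⟩
    simp only [crWd]
    calc q * (oe s.1 * s.2 * crWd l) * x = q * (oe s.1 * (s.2 * crWd l * x)) := by
          simp only [mul_assoc]
      _ = q * (oe s.1 * q' * crWd l') := by rw [he]; simp only [mul_assoc]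

/-- absorption without a first element, nonempty list -/
theorem crAbsorb' {Q : Fin G.V} {x : G.PathGroup} (hx : x ∈ PG Q) {l : List (CRStep G)}
    (hne : l ≠ []) {P : Fin G.V} (h : CROk P l Q) :
    ∃ l', CROk P l' Q ∧ l'.length = l.length ∧ crWd l * x = crWd l' := by
  cases l with
  | nil => exact absurd rfl hne
  | cons s l =>
    obtain ⟨h1, h2, h3⟩ := h
    obtain ⟨q', hq', l', hl', hlen, he⟩ := crAbsorb hx l _ s.2 h2 h3
    refine ⟨(s.1, q') :: l', ⟨h1, hq', hl'⟩, by simp [hlen], ?_⟩
    simp only [crWd]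
    rw [mul_assoc, mul_assoc, mul_assoc, ← mul_assoc s.2, he]

theorem crWord {P Q : Fin G.V} {g : G.PathGroup} (hg : G.IsPath P Q g) :
    ∃ q ∈ PG P, ∃ l, CROk P l Q ∧ g = q * crWd l := by
  induction hg with
  | refl => exact ⟨1, one_mem _, [], rfl, by simp [crWd]⟩
  | @cuff Q g i _ ih =>
    obtain ⟨q, hq, l, hl, rfl⟩ := ih
    have hx : G.cuff (Q, i) ∈ PG Q := Subgroup.subset_closure ⟨i, rfl⟩
    obtain ⟨q', hq', l', hl', -, he⟩ := crAbsorb hx l P q hq hl
    exact ⟨q', hq', l', hl', he⟩
  | @cuffInv Q g i _ ih =>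
    obtain ⟨q, hq, l, hl, rfl⟩ := ih
    have hx : (G.cuff (Q, i))⁻¹ ∈ PG Q := inv_mem (Subgroup.subset_closure ⟨i, rfl⟩)
    obtain ⟨q', hq', l', hl', -, he⟩ := crAbsorb hx l P q hq hl
    exact ⟨q', hq', l', hl', he⟩
  | @edge g e _ ih =>
    obtain ⟨q, hq, l, hl, rfl⟩ := ih
    refine ⟨q, hq, l ++ [((e, false), 1)], ?_, ?_⟩
    · rw [crOk_append]
      exact ⟨_, hl, rfl, one_mem _, rfl⟩
    · rw [crWd_append]
      simp [crWd, oe, mul_assoc]
  | @edgeInv g e _ ih =>
    obtain ⟨q, hq, l, hl, rfl⟩ := ih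
    refine ⟨q, hq, l ++ [((e, true), 1)], ?_, ?_⟩
    · rw [crOk_append]
      exact ⟨_, hl, rfl, one_mem _, rfl⟩
    · rw [crWd_append]
      simp [crWd, oe, mul_assoc]

/-- a backtracking can be removed -/
theorem crRemove {P Q : Fin G.V} {l₁ l₂ : List (CRStep G)} {a b : CRStep G}
    (hok : CROk P (l₁ ++ a :: b :: l₂) Q) (hab : b.1 = (a.1.1, !a.1.2)) (k : ℤ)
    (hk : a.2 = G.cuff (G.side a.1.1 (!a.1.2)) ^ k) {q : G.PathGroup} (hq : q ∈ PG P) :
    ∃ q' ∈ PG P, ∃ l', CROk P l' Q ∧ l'.length + 2 = (l₁ ++ a :: b :: l₂).length ∧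
      q * crWd (l₁ ++ a :: b :: l₂) = q' * crWd l' := by
  rw [crOk_append] at hok
  obtain ⟨R, h1, h2, h3, h4, h5, h6⟩ := hok
  have hR : crTgt b = R := by
    rw [← h2]
    unfold crTgt crSrc
    rw [hab, Bool.not_not]
  rw [hR] at h5 h6
  have hx : (G.cuff (G.side a.1.1 a.1.2))⁻¹ ^ k * b.2 ∈ PG R := by
    refine mul_mem (zpow_mem (inv_mem ?_) k) h5
    refine Subgroup.subset_closure ⟨(G.side a.1.1 a.1.2).2, ?_⟩
    rw [← h2]
    rfl
  have he : oe a.1 * a.2 * oe b.1 = (G.cuff (G.side a.1.1 a.1.2))⁻¹ ^ k := by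
    rw [hk, hab, oe_inv, ← oe_rel, conj_zpow]
  obtain ⟨q', hq', l', hl', hlen, hw⟩ := crAbsorb hx l₁ P q hq h1
  refine ⟨q', hq', l' ++ l₂, crOk_append.mpr ⟨R, hl', h6⟩, by simp [hlen]; omega, ?_⟩
  rw [crWd_append, crWd_append, ← mul_assoc q' (crWd l'), ← hw, ← he]
  simp only [crWd, mul_assoc]

theorem crOk_comp {P Q : Fin G.V} {l : List (CRStep G)} (h : CROk P l Q) (j : ℕ)
    (hj : j + 1 < l.length) : crSrc l[j + 1] = crTgt l[j] := by
  induction l generalizing P j with
  | nil => simp at hj
  | cons s l ih =>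
    obtain ⟨h1, h2, h3⟩ := h
    cases j with
    | zero =>
      cases l with
      | nil => simp at hj
      | cons t l => exact h3.1
    | succ j => exact ih h3 j (by simpa using hj)

theorem crOk_mem {P Q : Fin G.V} {l : List (CRStep G)} (h : CROk P l Q) (j : ℕ)
    (hj : j < l.length) : (l[j]).2 ∈ PG (crTgt l[j]) := by
  induction l generalizing P j with
  | nil => simp at hj
  | cons s l ih =>
    obtain ⟨h1, h2, h3⟩ := h
    cases j with
    | zero => exact h2
    | succ j => exact ih h3 j (by simpa using hj)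

theorem crOk_head {P Q : Fin G.V} {l : List (CRStep G)} (h : CROk P l Q)
    (hj : 0 < l.length) : crSrc l[0] = P := by
  cases l with
  | nil => simp at hj
  | cons s l => exact h.1

theorem crOk_last {P Q : Fin G.V} {l : List (CRStep G)} (h : CROk P l Q) (j : ℕ)
    (hj : j + 1 = l.length) : crTgt (l[j]'(by omega)) = Q := by
  induction l generalizing P j with
  | nil => simp at hj
  | cons s l ih =>
    obtain ⟨h1, h2, h3⟩ := h
    cases j with
    | zero =>
      cases l with
      | nil => exact h3
      | cons t l => simp at hj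
    | succ j => exact ih h3 j (by simpa using hj)

theorem cr_w_take (c : CycWord G) (l : List (CRStep G)) (h : ∀ m, (hm : m < l.length) →
    c.E m = (l[m]).1 ∧ c.p m = (l[m]).2) (m : ℕ) (hm : m ≤ l.length) :
    c.w m = crWd (l.take m) := by
  induction m with
  | zero => simp [CycWord.w, crWd]
  | succ m ih =>
    have h1 := h m (by omega)
    rw [CycWord.w, ih (by omega), List.take_succ_eq_append_getElem (by omega), crWd_append, h1.1,
      h1.2]
    simp [crWd]

/-- cyclic reduction: closed path of minimal length in its conjugacy class -/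
theorem cyc_reduce (P : Fin G.V) (u : G.PathGroup) (hu : G.IsPath P P u) :
    (∃ (Q : Fin G.V) (v p : G.PathGroup), G.IsPath P Q v ∧ p ∈ PG Q ∧ u = v * p * v⁻¹) ∨
    (∃ (c : CycWord G) (v : G.PathGroup), G.IsPath P (G.side (c.E 0).1 (c.E 0).2).1 v ∧
      u = v * c.w c.r * v⁻¹) := by
  classical
  have hex : ∃ n : ℕ, ∃ (Q : Fin G.V) (v q : G.PathGroup) (l : List (CRStep G)),
      G.IsPath P Q v ∧ q ∈ PG Q ∧ CROk Q l Q ∧ l.length = n ∧ u = v * (q * crWd l) * v⁻¹ := by
    obtain ⟨q, hq, l, hl, he⟩ := crWord hu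
    exact ⟨l.length, P, 1, q, l, IsPath.refl P, hq, hl, rfl, by rw [he]; simp⟩
  obtain ⟨Q, v, q, l, hv, hq, hl, hlen, he⟩ := Nat.find_spec hex
  have hmin : ∀ (Q' : Fin G.V) (v' q' : G.PathGroup) (l' : List (CRStep G)),
      G.IsPath P Q' v' → q' ∈ PG Q' → CROk Q' l' Q' → u = v' * (q' * crWd l') * v'⁻¹ →
      l.length ≤ l'.length := by
    intro Q' v' q' l' h1 h2 h3 h4
    rw [hlen]
    exact Nat.find_min' hex ⟨Q', v', q', l', h1, h2, h3, rfl, h4⟩
  clear hlen
  rcases Nat.eq_zero_or_pos l.length with h0 | h0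
  · left
    rw [List.length_eq_zero_iff] at h0
    subst h0
    exact ⟨Q, v, q, hv, hq, by rw [he]; simp [crWd]⟩
  right
  -- absorb `q` at the end
  obtain ⟨l', hl', hlen', hw'⟩ := crAbsorb' hq (List.length_pos_iff.mp h0) hl
  have hv' : G.IsPath P Q (v * q) := hv.mul (isPath_pg Q hq)
  have he' : u = (v * q) * crWd l' * (v * q)⁻¹ := by
    rw [← hw', he]
    group
  have hr : 0 < l'.length := by omega
  -- no backtracking
  have hno : ∀ (R : Fin G.V) (z : G.PathGroup) (l₁ l₂ : List (CRStep G)) (a b : CRStep G),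
      G.IsPath P R z → CROk R (l₁ ++ a :: b :: l₂) R →
      (l₁ ++ a :: b :: l₂).length = l'.length →
      u = z * crWd (l₁ ++ a :: b :: l₂) * z⁻¹ → b.1 = (a.1.1, !a.1.2) →
      ∀ k : ℤ, a.2 ≠ G.cuff (G.side a.1.1 (!a.1.2)) ^ k := by
    intro R z l₁ l₂ a b hz hok hln hu2 hab k hk
    obtain ⟨q2, hq2, l3, hl3, hlen3, hw3⟩ := crRemove hok hab k hk (one_mem (PG R))
    rw [one_mul] at hw3
    have h1 := hmin R z q2 l3 hz hq2 hl3 (by rw [← hw3]; exact hu2)
    omega
  have hmod : ∀ m, m % l'.length < l'.length := fun m => Nat.mod_lt _ hr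
  have hcomp : ∀ m, crSrc (l'[(m + 1) % l'.length]'(hmod _)) =
      crTgt (l'[m % l'.length]'(hmod _)) := by
    intro m
    rcases Nat.lt_or_ge (m % l'.length + 1) l'.length with h1 | h1
    · have h2 : (m + 1) % l'.length = m % l'.length + 1 := by
        rw [Nat.add_mod, Nat.mod_eq_of_lt (show 1 < l'.length by omega), Nat.mod_eq_of_lt h1]
      have h3 := crOk_comp hl' (m % l'.length) h1
      simp only [h2]
      exact h3
    · have h2 : m % l'.length + 1 = l'.length := by
        have := hmod m
        omega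
      have h3 : (m + 1) % l'.length = 0 := by
        rw [Nat.add_mod]
        rcases Nat.lt_or_ge 1 l'.length with h4 | h4
        · rw [Nat.mod_eq_of_lt h4, h2, Nat.mod_self]
        · have h5 : l'.length = 1 := by omega
          rw [h5]
          simp [Nat.mod_one]
      have h5 := crOk_last hl' (m % l'.length) h2
      have h6 := crOk_head hl' hr
      simp only [h3]
      rw [h5, h6]
  refine ⟨{ r := l'.length, hr := hr,
            E := fun m => (l'[m % l'.length]'(hmod m)).1,
            p := fun m => (l'[m % l'.length]'(hmod m)).2,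
            perE := fun m => by simp only [Nat.add_mod_right],
            perp := fun m => by simp only [Nat.add_mod_right],
            comp := fun m => hcomp m,
            hp := fun m => crOk_mem hl' _ (hmod m),
            red := ?_ }, v * q, ?_, ?_⟩
  · intro m hm k hk
    rcases Nat.lt_or_ge (m % l'.length + 1) l'.length with h1 | h1
    · have h2 : (m + 1) % l'.length = m % l'.length + 1 := by
        rw [Nat.add_mod, Nat.mod_eq_of_lt (show 1 < l'.length by omega), Nat.mod_eq_of_lt h1]
      simp only [h2] at hm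
      have h3 : l' = l'.take (m % l'.length) ++ l'[m % l'.length] ::
          l'[m % l'.length + 1] :: l'.drop (m % l'.length + 2) := by
        rw [← List.drop_eq_getElem_cons, ← List.drop_eq_getElem_cons, List.take_append_drop]
      exact hno Q (v * q) _ _ _ _ hv' (by rw [← h3]; exact hl') (by rw [← h3])
        (by rw [← h3]; exact he') hm k hk
    · have h2 : m % l'.length + 1 = l'.length := by
        have := hmod m
        omega
      rcases Nat.lt_or_ge 1 l'.length with h4 | h4
      · have h3 : (m + 1) % l'.length = 0 := by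
          rw [Nat.add_mod, Nat.mod_eq_of_lt h4, h2, Nat.mod_self]
        simp only [h3] at hm
        -- rotate by one step
        obtain ⟨s, t, hst⟩ : ∃ s t, l' = s :: t := List.exists_cons_of_length_pos hr
        have ht : t ≠ [] := by
          intro h
          rw [hst, h] at h4
          simp at h4
        obtain ⟨t', e, hte⟩ : ∃ t' e, t = t' ++ [e] := by
          rcases List.eq_nil_or_concat t with h | ⟨t', e, h⟩
          · exact absurd h ht
          · exact ⟨t', e, by rw [h, List.concat_eq_append]⟩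
        have hs0 : l'[0] = s := by simp [hst]
        have hel : l'[m % l'.length]'(hmod m) = e := by
          have h5 : m % l'.length = t'.length + 1 := by
            have h6 : l'.length = t'.length + 2 := by
              rw [hst, hte]
              simp
            omega
          simp only [h5]
          simp [hst, hte]
        rw [hs0, hel] at hm
        rw [hel] at hk
        have hok : CROk (crTgt s) (t' ++ e :: s :: []) (crTgt s) := by
          have h5 : t' ++ e :: s :: [] = t ++ [s] := by rw [hte]; simp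
          rw [h5, crOk_append]
          rw [hst] at hl'
          obtain ⟨h6, h7, h8⟩ := hl'
          exact ⟨Q, h8, h6, h7, rfl⟩
        refine hno (crTgt s) (v * q * (oe s.1 * s.2)) t' [] e s ?_ hok ?_ ?_ hm k hk
        · refine hv'.mul ?_
          rw [hst] at hl'
          obtain ⟨h6, h7, h8⟩ := hl'
          have h9 := (isPath_oe (G := G) s.1).mul (isPath_pg _ h7)
          have h10 : (G.side s.1.1 s.1.2).1 = Q := h6
          rw [h10] at h9
          exact h9
        · rw [hst, hte]
          simp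
        · have h5 : t' ++ e :: s :: [] = t ++ [s] := by rw [hte]; simp
          rw [h5, crWd_append, he', hst]
          simp only [crWd]
          group
      · have h5 : l'.length = 1 := by omega
        have h6 : (m + 1) % l'.length = m % l'.length := by
          rw [h5, Nat.mod_one, Nat.mod_one]
        simp only [h6] at hm
        have h7 := congrArg Prod.snd hm
        simp at h7
  · have h1 : crSrc (l'[0 % l'.length]'(hmod 0)) = Q := by
      simp only [Nat.zero_mod]
      exact crOk_head hl' hr
    show G.IsPath P (crSrc (l'[0 % l'.length]'(hmod 0))) (v * q)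
    rw [h1]
    exact hv'
  · rw [cr_w_take _ l' ?_ l'.length le_rfl]
    · rw [List.take_length]
      exact he'
    · intro m hm
      simp only [Nat.mod_eq_of_lt hm]
      exact ⟨trivial, trivial⟩

end PantsGraph

end Pool.Agent.DC
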