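import Pool.Agent.DC.D.WordMat

/-!
# Project DC, block D: trace of cyclically reduced even words
-/

open scoped ENNReal UpperHalfPlane Matrix ContDiff
open MeasureTheory Set

namespace Pool.Agent.DC

theorem cyct_alt (i j : Fin 3) : ∀ (n : ℕ) (w : List (Fin 3)), w.length = 2 * n →
    (∀ m, m < n → w[2 * m]? = some i ∧ w[2 * m + 1]? = some j) →
    w = (List.replicate n [i, j]).flatten := by
  intro n
  induction n with
  | zero =>
    intro w hw _
    have : w = [] := List.length_eq_zero_iff.mp (by simpa using hw)
    simp [this]
  | succ n ih =>
    intro w hw h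
    match w, hw, h with
    | [], hw, _ => simp at hw
    | [a], hw, _ => simp at hw; omega
    | a :: b :: w', hw, h =>
      have h0 := h 0 (Nat.succ_pos n)
      simp only [Nat.mul_zero, List.getElem?_cons_zero, Option.some.injEq, Nat.zero_add,
        List.getElem?_cons_succ] at h0
      obtain ⟨h1, h2⟩ := h0
      subst h1
      subst h2
      have hw' : w'.length = 2 * n := by
        simp only [List.length_cons] at hw
        omega
      have := ih w' hw' (fun m hm => by
        have h3 := h (m + 1) (Nat.succ_lt_succ hm)
        have e1 : 2 * (m + 1) = 2 * m + 1 + 1 := by ring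
        rw [e1] at h3
        simpa only [List.getElem?_cons_succ] using h3)
      rw [List.replicate_succ, List.flatten_cons, ← this]
      rfl

namespace Hex
variable (H : Hex)

/-- trichotomy for cyclically reduced even words -/
theorem cyc_trace (w : List (Fin 3)) (hev : Even w.length) (hch : List.IsChain (· ≠ ·) w)
    (hcyc : ∀ a b, w.head? = some a → w.getLast? = some b → a ≠ b) :
    8 ≤ (H.W w).trace ^ 2 ∨ w = [] ∨ ∃ (i j : Fin 3) (n : ℕ), i ≠ j ∧
      w = (List.replicate n [i, j]).flatten := by
  classical
  by_cases hw0 : w = []
  · exact Or.inr (Or.inl hw0)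
  have hn0 : 0 < w.length := List.length_pos_iff.mpr hw0
  obtain ⟨N, hN⟩ := hev
  have hN1 : 1 ≤ N := by omega
  -- cyclic function
  set n := w.length with hn
  let f : ℕ → Fin 3 := fun m => w[m % n]'(Nat.mod_lt _ hn0)
  have hfper : ∀ m, f (m + n) = f m := by
    intro m
    simp only [f, Nat.add_mod_right]
  have hfne : ∀ q, f q ≠ f (q + 1) := by
    intro q
    by_cases hq : q % n + 1 < n
    · have e : (q + 1) % n = q % n + 1 := by
        rw [Nat.add_mod, Nat.mod_eq_of_lt (by omega : 1 < n), Nat.mod_eq_of_lt hq]
      have := (List.isChain_iff_getElem.mp hch) (q % n) hq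
      simp only [f, e]
      exact this
    · have hlt := Nat.mod_lt q hn0
      have e1 : q % n = n - 1 := by omega
      have e : (q + 1) % n = 0 := by
        have h2 : 1 < n := by omega
        rw [Nat.add_mod, Nat.mod_eq_of_lt h2, e1, Nat.sub_add_cancel (by omega), Nat.mod_self]
      simp only [f, e, e1]
      intro hc
      refine hcyc (w[0]'hn0) (w[n - 1]'(by omega)) ?_ ?_ hc.symm
      · rw [List.head?_eq_getElem?, List.getElem?_eq_getElem hn0]
      · rw [List.getLast?_eq_getElem?, List.getElem?_eq_getElem (by omega)]
  by_cases hper : ∀ m, f (m + 2) = f m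
  · right; right
    refine ⟨f 0, f 1, N, hfne 0, ?_⟩
    have hE : ∀ m, f (2 * m) = f 0 ∧ f (2 * m + 1) = f 1 := by
      intro m
      induction m with
      | zero => exact ⟨rfl, rfl⟩
      | succ m ih =>
        have e1 : 2 * (m + 1) = 2 * m + 2 := by ring
        have e2 : 2 * (m + 1) + 1 = (2 * m + 1) + 2 := by ring
        rw [e2, e1, hper, hper]
        exact ih
    refine cyct_alt _ _ N w (by omega) ?_
    intro m hm
    have l1 : 2 * m < n := by omega
    have l2 : 2 * m + 1 < n := by omega
    have k1 := (hE m).1
    have k2 := (hE m).2
    constructor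
    · rw [List.getElem?_eq_getElem l1, ← k1]
      simp only [f, Nat.mod_eq_of_lt l1]
    · rw [List.getElem?_eq_getElem l2, ← k2]
      simp only [f, Nat.mod_eq_of_lt l2]
  · left
    push Not at hper
    obtain ⟨m, hm⟩ := hper
    have hn3 : 3 ≤ n := by
      by_contra hc
      have : n = 2 := by omega
      apply hm
      have := hfper m
      rw [‹n = 2›] at this
      exact this
    -- rotate
    set u := w.rotate m with hu
    have hul : u.length = n := by rw [hu, List.length_rotate]
    have hget : ∀ k (hk : k < u.length), u[k] = f (m + k) := by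
      intro k hk
      simp only [hu, List.getElem_rotate, f, Nat.add_comm m k]
      rfl
    have htr : (H.W w).trace = (H.W u).trace := by
      have e1 : u = w.drop (m % n) ++ w.take (m % n) := by
        rw [hu, List.rotate_eq_drop_append_take_mod]
      rw [e1, ← H.trace_W_comm, List.take_append_drop]
    have hchu : List.IsChain (· ≠ ·) u := by
      rw [List.isChain_iff_getElem]
      intro k hk
      rw [hget, hget]
      exact hfne (m + k)
    rw [htr]
    match hh : u, hul, hget, hchu with
    | [], hul, _, _ => simp at hul; omega
    | [a], hul, _, _ => simp at hul; omega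
    | [a, b], hul, _, _ => simp at hul; omega
    | a :: b :: c :: v, hul, hget, hchu =>
      have ha : a = f m := hget 0 (by simp)
      have hb : b = f (m + 1) := hget 1 (by simp)
      have hc : c = f (m + 2) := hget 2 (by simp)
      refine H.trace_three a b c v ?_ ?_ ?_ ?_ hchu ?_
      · rw [ha, hb]; exact hfne m
      · rw [hb, hc]; exact hfne (m + 1)
      · rw [ha, hc]; exact fun h => hm h.symm
      · rw [hul]; exact ⟨N, hN⟩
      · intro x hx
        rw [List.getLast?_eq_getElem?] at hx
        have hk : (a :: b :: c :: v).length - 1 < (a :: b :: c :: v).length := by simp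
        rw [List.getElem?_eq_getElem hk, hget _ hk] at hx
        simp only [Option.some.injEq] at hx
        rw [hul] at hx
        rw [← hx, ha]
        have h1 := hfne (m + (n - 1))
        have e : m + (n - 1) + 1 = m + n := by omega
        rw [e, hfper] at h1
        exact h1

end Hex

end Pool.Agent.DC
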