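import Pool.Agent.DC.D.Growth

/-! # Project DC, block D: separation of cuffs -/

open scoped ENNReal UpperHalfPlane Matrix ContDiff
open MeasureTheory Set

namespace Pool.Agent.DC

namespace Hex
variable (H : Hex)

theorem sep_sum3 (f : Fin 3 → ℝ) (i : Fin 3) : f 0 + f 1 + f 2 = f i + f (i + 1) + f (i + 2) := by
  have e1 : (1 + 1 : Fin 3) = 2 := rfl
  have e2 : (1 + 2 : Fin 3) = 0 := rfl
  have e3 : (2 + 1 : Fin 3) = 0 := rfl
  have e4 : (2 + 2 : Fin 3) = 1 := rfl
  fin_cases i
  · simp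
  · show f 0 + f 1 + f 2 = f 1 + f (1 + 1) + f (1 + 2)
    rw [e1, e2]; ring
  · show f 0 + f 1 + f 2 = f 2 + f (2 + 1) + f (2 + 2)
    rw [e3, e4]; ring

theorem sep_cases (i k : Fin 3) (h : i ≠ k) : i = k + 1 ∨ i = k + 2 := by
  revert i k
  decide

theorem sep_S_le (hC : ∀ m, H.C m ≤ 5 / 4) {k : Fin 3} (hk : 1 < H.C k) : H.S k ≤ 3 / 4 := by
  have h1 := H.S_sq k
  have h2 := H.S_pos hk
  have h3 := hC k
  nlinarith

/-- value for two different cuffs -/
theorem sep_aa (hC : ∀ m, H.C m ≤ 5 / 4) {i k : Fin 3} (hi : 1 < H.C i) (hk : 1 < H.C k)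
    (hik : i ≠ k) : ip (H.a i) (H.a k) ≤ -3 := by
  have hSi := H.S_pos hi
  have hSk := H.S_pos hk
  have hi' := H.sep_S_le hC hi
  have hk' := H.sep_S_le hC hk
  have hxi : 2 / H.S k ≤ H.xi i (H.a k) := by
    rcases sep_cases i k hik with h | h
    · rw [h, H.xi_a_1 hk]
      apply div_le_div_of_nonneg_right _ hSk.le
      have h1 := H.hC (k + 2)
      have h2 := H.hC k
      have h3 := H.hC (k + 1)
      nlinarith
    · rw [h, H.xi_a_2 hk]
      apply div_le_div_of_nonneg_right _ hSk.le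
      have h1 := H.hC (k + 2)
      have h2 := H.hC k
      have h3 := H.hC (k + 1)
      nlinarith
  rw [H.ip_a_eq]
  have h1 : 3 * H.S i ≤ 2 / H.S k := by
    rw [le_div_iff₀ hSk]
    nlinarith
  have h2 : 3 ≤ H.xi i (H.a k) / H.S i := by
    rw [le_div_iff₀ hSi]
    linarith
  linarith

theorem sep_big (hC : ∀ m, H.C m ≤ 5 / 4) {i k : Fin 3} (hi : 1 < H.C i) (hk : 1 < H.C k)
    {X : M2} (hX : 8 / H.S k ≤ H.xi i X) : ip (H.a i) X ≤ -3 := by
  have hSi := H.S_pos hi
  have hSk := H.S_pos hk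
  have hi' := H.sep_S_le hC hi
  have hk' := H.sep_S_le hC hk
  rw [H.ip_a_eq]
  have h1 : 3 * H.S i ≤ 8 / H.S k := by
    rw [le_div_iff₀ hSk]
    nlinarith
  have h2 : 3 ≤ H.xi i X / H.S i := by
    rw [le_div_iff₀ hSi]
    linarith
  linarith

theorem sep_last {k : Fin 3} {w : List (Fin 3)} (h : k ∈ w) :
    ∃ v w2 : List (Fin 3), w = (v ++ [k]) ++ w2 ∧ k ∉ w2 := by
  obtain ⟨p, q, h1, h2⟩ := List.eq_append_cons_of_mem (List.mem_reverse.2 h)
  refine ⟨q.reverse, p.reverse, ?_, ?_⟩
  · have h3 := congrArg List.reverse h1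
    rw [List.reverse_reverse] at h3
    rw [h3]
    simp
  · rwa [List.mem_reverse]

/-- sum of the coordinates of a cuff normal -/
theorem sep_sum_a (hC : ∀ m, H.C m ≤ 5 / 4) {i : Fin 3} (hi : 1 < H.C i) :
    0 < H.xi 0 (H.a i) + H.xi 1 (H.a i) + H.xi 2 (H.a i) := by
  have hSi := H.S_pos hi
  have hi' := H.sep_S_le hC hi
  rw [sep_sum3 (fun m => H.xi m (H.a i)) i, H.xi_a_self hi, H.xi_a_1 hi, H.xi_a_2 hi]
  have h1 := H.hC (i + 1)
  have h2 := H.hC (i + 2)
  have h3 := H.hC i
  have h4 : 1 / H.S i ≤ (H.C (i + 2) + H.C i * H.C (i + 1)) / H.S i := by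
    apply div_le_div_of_nonneg_right _ hSi.le
    nlinarith
  have h5 : 0 ≤ (H.C (i + 1) + H.C i * H.C (i + 2)) / H.S i := by
    apply div_nonneg _ hSi.le
    nlinarith
  have h6 : H.S i < 1 / H.S i := by
    rw [lt_div_iff₀ hSi]
    nlinarith
  linarith

theorem separation (hC : ∀ m, H.C m ≤ 5 / 4) {i k : Fin 3} (hi : 1 < H.C i) (hk : 1 < H.C k)
    (w : List (Fin 3)) (hw : List.IsChain (· ≠ ·) w) (h : k ∈ w ∨ i ≠ k) :
    ip (H.a i) (H.act w (H.a k)) ≤ -3 ∧ Fut (H.a i + H.act w (H.a k)) := by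
  have hSk := H.S_pos hk
  -- the two facts
  have key : ip (H.a i) (H.act w (H.a k)) ≤ -3 ∧
      0 < H.xi 0 (H.act w (H.a k)) + H.xi 1 (H.act w (H.a k)) + H.xi 2 (H.act w (H.a k)) := by
    by_cases hkw : k ∈ w
    · obtain ⟨v, w2, hvw, hk2⟩ := sep_last hkw
      have hact : H.act w (H.a k) = H.act (v ++ [k]) (H.a k) := by
        rw [hvw]
        exact H.act_a_strip k (v ++ [k]) w2 (fun m hm hmk => hk2 (hmk ▸ hm))
      have hch : List.IsChain (· ≠ ·) (v ++ [k]) := by
        rw [hvw] at hw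
        exact hw.left_of_append
      rw [hact]
      constructor
      · by_cases hiw : i ∈ v ++ [k]
        · obtain ⟨p, q, h1, h2⟩ := List.eq_append_cons_of_mem hiw
          rw [h1, H.ip_a_act_strip i p (i :: q) (fun m hm hmi => h2 (hmi ▸ hm))]
          have hch2 : List.IsChain (· ≠ ·) (i :: q) := by
            rw [h1] at hch
            exact hch.right_of_append
          have hl : (i :: q).getLast? = some k := by
            have h3 : (v ++ [k]).getLast? = some k := by simp
            rw [h1] at h3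
            rw [List.getLast?_append] at h3
            simpa using h3
          exact H.sep_big hC hi hk (H.growth hk i q hch2 hl).2.2
        · have hik : i ≠ k := by
            intro hik
            apply hiw
            rw [hik]
            simp
          have h3 := H.ip_a_act_strip i (v ++ [k]) [] (fun m hm hmi => hiw (hmi ▸ hm)) (H.a k)
          rw [List.append_nil] at h3
          rw [h3]
          exact H.sep_aa hC hi hk hik
      · obtain ⟨j, t, hjt⟩ : ∃ j t, v ++ [k] = j :: t := by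
          cases v with
          | nil => exact ⟨k, [], rfl⟩
          | cons j t => exact ⟨j, t ++ [k], rfl⟩
        have hl : (j :: t).getLast? = some k := by
          rw [← hjt]; simp
        rw [hjt] at hch ⊢
        obtain ⟨g1, -, g3⟩ := H.growth hk j t hch hl
        have g4 : 0 < 8 / H.S k := by positivity
        have g0 := g1 j
        have g5 := g1 (j + 1)
        have g6 := g1 (j + 2)
        rw [sep_sum3 (fun m => H.xi m (H.act (j :: t) (H.a k))) j]
        linarith
    · have hact : H.act w (H.a k) = H.a k := by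
        have h3 := H.act_a_strip k [] w (fun m hm hmk => hkw (hmk ▸ hm))
        rw [List.nil_append] at h3
        exact h3
      have hik : i ≠ k := by
        rcases h with h | h
        · exact absurd h hkw
        · exact h
      rw [hact]
      exact ⟨H.sep_aa hC hi hk hik, H.sep_sum_a hC hk⟩
  obtain ⟨k1, k2⟩ := key
  refine ⟨k1, ?_⟩
  have hti := H.a_trace i
  have htk : (H.act w (H.a k)).trace = 0 := H.act_trace w (H.a_trace k)
  have hXX : ip (H.a i + H.act w (H.a k)) (H.a i + H.act w (H.a k)) ≤ 0 := by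
    rw [ip_add_left, ip_comm (H.a i) _, ip_comm (H.act w (H.a k)) _, ip_add_left, ip_add_left,
      H.ip_a_a hi, H.ip_act, H.ip_a_a hk, ip_comm (H.act w (H.a k)) (H.a i)]
    linarith
  have hcen : Fut (-(H.u 0 + H.u 1 + H.u 2)) := by
    apply H.fut_center
    intro m
    have := hC m
    linarith
  refine fut_of_ip_neg (by rw [Matrix.trace_add, hti, htk, add_zero]) hXX hcen ?_
  have hX : ∀ X : M2, ip X (-(H.u 0 + H.u 1 + H.u 2)) = -(H.xi 0 X + H.xi 1 X + H.xi 2 X) := by
    intro X
    rw [ip_comm, ip_neg_left, ip_add_left, ip_add_left, ip_comm (H.u 0), ip_comm (H.u 1),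
      ip_comm (H.u 2)]
    rfl
  have hs := H.sep_sum_a hC hi
  rw [ip_add_left, hX, hX]
  linarith

end Hex

end Pool.Agent.DC
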