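import Pool.Agent.DC.D.FNHex
import Pool.Agent.DC.D.Separation

/-!
# Project DC, block D: passage through a pair of pants, cyclically reduced closed paths are long
-/

open scoped ENNReal UpperHalfPlane Matrix ContDiff
open MeasureTheory Set

namespace Pool.Agent.DC

namespace PantsGraph
variable {G : PantsGraph}

/-- two sides with the same cuff are equal -/
theorem side_inj {e f : Fin G.d × Bool} (h : G.side e.1 e.2 = G.side f.1 f.2) : e = f := by
  have h1 : (Sum.elim (fun p : Fin G.d × Bool => G.side p.1 p.2) G.puncture) (Sum.inl e) =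
      (Sum.elim (fun p : Fin G.d × Bool => G.side p.1 p.2) G.puncture) (Sum.inl f) := by
    rw [Sum.elim_inl, Sum.elim_inl]
    exact h
  exact Sum.inl_injective (G.bij.injective h1)

namespace FN
variable {x : G.Teich} (F : FN x)

theorem aa_trace (e : Fin G.d × Bool) : (F.aa e).trace = 0 := by
  unfold aa
  rw [ad_trace, Matrix.trace_fin_two]
  simp

theorem ip_aa (e : Fin G.d × Bool) : ip (F.aa e) (F.aa e) = 1 := by
  unfold aa
  rw [ip_ad]
  unfold ip
  rw [Matrix.trace_fin_two]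
  simp [Matrix.mul_apply, Fin.sum_univ_two]

theorem one_lt_C_side (H : Hex) (e : Fin G.d) (b : Bool) (hs : H.s = F.s (G.side e b).1) :
    1 < H.C (G.side e b).2 := by
  rw [F.hex_C_side H e b hs, Real.one_lt_cosh]
  have h : 0 < len x e := Real.exp_pos _
  exact ne_of_gt (by linarith)

/-- passage through a pair of pants -/
theorem passage (hx : ∀ e, len x e ≤ 1) (e f : Fin G.d × Bool)
    (hP : (G.side e.1 e.2).1 = (G.side f.1 f.2).1) (p : G.PathGroup) (hp : p ∈ PG (G.side e.1 e.2).1)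
    (hne : e = f → ∀ k : ℤ, p ≠ G.cuff (G.side e.1 e.2) ^ k) :
    ip (F.aa e) (ad (F.hol p) (F.aa f)) ≤ -3 ∧ Fut (F.aa e + ad (F.hol p) (F.aa f)) := by
  obtain ⟨H, hs, _⟩ := F.exists_hex (G.side e.1 e.2).1
  obtain ⟨w, hev, hch, hpw⟩ := pg_word (G.side e.1 e.2).1 hp
  have hs2 : H.s = F.s (G.side f.1 f.2).1 := by rw [← hP]; exact hs
  have ha : H.a (G.side e.1 e.2).2 = F.aa e := F.hex_a H e.1 e.2 hs
  have hb : H.a (G.side f.1 f.2).2 = F.aa f := F.hex_a H f.1 f.2 hs2
  have hCe := F.one_lt_C_side H e.1 e.2 hs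
  have hCf := F.one_lt_C_side H f.1 f.2 hs2
  have hC : ∀ m, H.C m ≤ 5 / 4 := fun m => F.hex_C_le (G.side e.1 e.2).1 H hs hx m
  have hk : (G.side f.1 f.2).2 ∈ w ∨ (G.side e.1 e.2).2 ≠ (G.side f.1 f.2).2 := by
    by_contra hcon
    rw [not_or, not_not] at hcon
    obtain ⟨h1, h2⟩ := hcon
    obtain ⟨n, hn⟩ := cw_two_letters (G.side e.1 e.2).1 (G.side f.1 f.2).2 w hev hch h1
    have hside : G.side e.1 e.2 = G.side f.1 f.2 := Prod.ext hP h2
    have hef : e = f := side_inj hside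
    apply hne hef n
    rw [hpw, hn, ← h2]
  have hsep := H.separation hC hCe hCf w hch hk
  have hW : (F.hol p : M2) = H.W w := by
    rw [hpw]
    exact F.hol_cw (G.side e.1 e.2).1 H hs w hev
  rw [H.act_eq_ad w hev (F.hol p) hW, ha, hb] at hsep
  exact hsep

theorem cyc_step (hx : ∀ e, len x e ≤ 1) (c : CycWord G) (m : ℕ) :
    3 ≤ ip (ad (F.hol (c.w m)) (F.aa (c.E m))) (ad (F.hol (c.w (m + 1))) (F.aa (c.E (m + 1)))) ∧
    Fut (ad (F.hol (c.w (m + 1))) (F.aa (c.E (m + 1))) - ad (F.hol (c.w m)) (F.aa (c.E m))) := by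
  have hpass := F.passage hx ((c.E m).1, !(c.E m).2) (c.E (m + 1)) (c.comp m).symm (c.p m)
    (c.hp m) (fun h => c.red m h.symm)
  have h1 : F.aa (c.E m) = -ad (F.hol (oe (c.E m))) (F.aa ((c.E m).1, !(c.E m).2)) := by
    rw [F.hol_oe_aa, neg_neg]
  have h2 : ad (F.hol (c.w (m + 1))) (F.aa (c.E (m + 1))) =
      ad (F.hol (c.w m)) (ad (F.hol (oe (c.E m))) (ad (F.hol (c.p m)) (F.aa (c.E (m + 1))))) := by
    show ad (F.hol (c.w m * (oe (c.E m) * c.p m))) (F.aa (c.E (m + 1))) = _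
    rw [map_mul, map_mul, ad_mul, ad_mul]
  constructor
  · rw [h2, h1, ip_ad, ip_neg_left, ip_ad]
    linarith [hpass.1]
  · have h3 : ad (F.hol (c.w (m + 1))) (F.aa (c.E (m + 1))) - ad (F.hol (c.w m)) (F.aa (c.E m)) =
        ad (F.hol (c.w m)) (ad (F.hol (oe (c.E m)))
          (F.aa ((c.E m).1, !(c.E m).2) + ad (F.hol (c.p m)) (F.aa (c.E (m + 1))))) := by
      rw [h2, ad_add, ad_add]
      rw [show ad (F.hol (c.w m)) (F.aa (c.E m)) = -ad (F.hol (c.w m))
        (ad (F.hol (oe (c.E m))) (F.aa ((c.E m).1, !(c.E m).2))) from by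
          rw [← ad_neg, ← h1]]
      rw [sub_neg_eq_add, add_comm]
    rw [h3]
    exact fut_ad _ (fut_ad _ hpass.2)

/-- a cyclically reduced closed path with at least one edge is long -/
theorem cyc_long (hx : ∀ e, len x e ≤ 1) (c : CycWord G) :
    8 ≤ (F.hol (c.w c.r) : M2).trace ^ 2 := by
  have hch := chain_bound (fun m => ad (F.hol (c.w m)) (F.aa (c.E m))) c.r
    (fun i _ => by rw [ad_trace]; exact F.aa_trace _)
    (fun i _ => by rw [ip_ad]; exact F.ip_aa _)
    (fun i _ => (F.cyc_step hx c i).2)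
  have h0 : ad (F.hol (c.w 0)) (F.aa (c.E 0)) = F.aa (c.E 0) := by
    show ad (F.hol 1) (F.aa (c.E 0)) = _
    rw [map_one, ad_one]
  have hE : c.E c.r = c.E 0 := by
    have := c.perE 0
    rw [zero_add] at this
    exact this
  have hsum : (c.r : ℝ) * 2 ≤ ∑ i ∈ Finset.range c.r,
      (ip (ad (F.hol (c.w i)) (F.aa (c.E i))) (ad (F.hol (c.w (i + 1))) (F.aa (c.E (i + 1)))) - 1) := by
    have h1 : ∑ _i ∈ Finset.range c.r, (2 : ℝ) = (c.r : ℝ) * 2 := by
      rw [Finset.sum_const, Finset.card_range, nsmul_eq_mul]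
    rw [← h1]
    refine Finset.sum_le_sum (fun i _ => ?_)
    have h2 := (F.cyc_step hx c i).1
    linarith
  have htb := trace_bound (F.hol (c.w c.r)) (F.aa_trace (c.E 0)) (F.ip_aa (c.E 0))
  beta_reduce at hch
  rw [h0, hE] at hch
  have hr : (1 : ℝ) ≤ (c.r : ℝ) := by exact_mod_cast c.hr
  linarith

end FN

end PantsGraph

end Pool.Agent.DC
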