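import Pool.Agent.DC.D.PathBasic

/-!
Project DC, block D (helper6): every path is an element of a pants group or a path without
backtracking.
-/

namespace Pool.Agent.DC
namespace PantsGraph
variable {G : PantsGraph}

/-- `Red P e w p`: `w * p` is a path without backtracking which starts at `P`, its last edge is
`e`, and `p` is its last element of a pants group. -/
inductive Red (P : Fin G.V) : Fin G.d × Bool → G.PathGroup → G.PathGroup → Prop
  | single {e : Fin G.d × Bool} {p0 p : G.PathGroup} (he : (G.side e.1 e.2).1 = P) (h0 : p0 ∈ PG P)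
      (hp : p ∈ PG (G.side e.1 (!e.2)).1) : Red P e (p0 * oe e) p
  | step {e f : Fin G.d × Bool} {w p p' : G.PathGroup} (h : Red P e w p)
      (hef : (G.side e.1 (!e.2)).1 = (G.side f.1 f.2).1)
      (hne : ((e.1, !e.2) : Fin G.d × Bool) = f → ∀ k : ℤ, p ≠ G.cuff (G.side e.1 (!e.2)) ^ k)
      (hp' : p' ∈ PG (G.side f.1 (!f.2)).1) : Red P f (w * p * oe f) p'

theorem Red.change {P : Fin G.V} {e : Fin G.d × Bool} {w p q : G.PathGroup} (h : Red P e w p)
    (hq : q ∈ PG (G.side e.1 (!e.2)).1) : Red P e w q := by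
  cases h with
  | single he h0 hp => exact Red.single he h0 hq
  | step h hef hne hp' => exact Red.step h hef hne hq

theorem Red.mem {P : Fin G.V} {e : Fin G.d × Bool} {w p : G.PathGroup} (h : Red P e w p) :
    p ∈ PG (G.side e.1 (!e.2)).1 := by
  cases h with
  | single he h0 hp => exact hp
  | step h hef hne hp' => exact hp'

/-- `g` is a path from `P` to `Q` in reduced form -/
def RForm (P Q : Fin G.V) (g : G.PathGroup) : Prop :=
  (P = Q ∧ g ∈ PG P) ∨ ∃ (e : Fin G.d × Bool) (w p : G.PathGroup), Red P e w p ∧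
    (G.side e.1 (!e.2)).1 = Q ∧ g = w * p

theorem RForm.mul_pg {P Q : Fin G.V} {g c : G.PathGroup} (h : RForm P Q g) (hc : c ∈ PG Q) :
    RForm P Q (g * c) := by
  rcases h with ⟨rfl, h⟩ | ⟨e, w, p, h, he, rfl⟩
  · exact Or.inl ⟨rfl, (PG P).mul_mem h hc⟩
  · refine Or.inr ⟨e, w, p * c, ?_, he, by rw [mul_assoc]⟩
    rw [← he] at hc
    exact h.change ((PG _).mul_mem h.mem hc)

theorem cuff_mem_pg (p : Fin G.V × Fin 3) : G.cuff p ∈ PG p.1 :=
  Subgroup.subset_closure ⟨p.2, rfl⟩

theorem RForm.mul_oe {P : Fin G.V} {g : G.PathGroup} (f : Fin G.d × Bool)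
    (h : RForm P (G.side f.1 f.2).1 g) : RForm P (G.side f.1 (!f.2)).1 (g * oe f) := by
  rcases h with ⟨hP, h⟩ | ⟨e, w, p, h, he, rfl⟩
  · refine Or.inr ⟨f, g * oe f, 1, ?_, rfl, (mul_one _).symm⟩
    exact Red.single hP.symm h (one_mem _)
  · by_cases hback : ((e.1, !e.2) : Fin G.d × Bool) = f ∧
        ∃ k : ℤ, p = G.cuff (G.side e.1 (!e.2)) ^ k
    · obtain ⟨rfl, k, rfl⟩ := hback
      -- cancel
      have hrel : oe e * G.cuff (G.side e.1 (!e.2)) ^ k * oe (G := G) (e.1, !e.2) =
          G.cuff (G.side e.1 e.2) ^ (-k) := by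
        rw [oe_inv, ← conj_zpow, oe_rel, inv_zpow, zpow_neg]
      have hk : G.cuff (G.side e.1 e.2) ^ (-k) ∈ PG (G.side e.1 e.2).1 :=
        (PG _).zpow_mem (cuff_mem_pg _) _
      simp only [Bool.not_not]
      cases h with
      | @single _ p0 _ he' h0 hp =>
        refine Or.inl ⟨he'.symm, ?_⟩
        have : p0 * oe e * G.cuff (G.side e.1 (!e.2)) ^ k * oe (e.1, !e.2) =
            p0 * G.cuff (G.side e.1 e.2) ^ (-k) := by
          rw [← hrel]; group
        rw [this]
        rw [he'] at hk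
        exact (PG P).mul_mem h0 hk
      | @step e' _ w' p' _ h' hef hne hp' =>
        have : w' * p' * oe e * G.cuff (G.side e.1 (!e.2)) ^ k * oe (e.1, !e.2) =
            (w' * p') * G.cuff (G.side e.1 e.2) ^ (-k) := by
          rw [← hrel]; group
        rw [this]
        exact RForm.mul_pg (Or.inr ⟨e', w', p', h', hef, rfl⟩) hk
    · refine Or.inr ⟨f, w * p * oe f, 1, ?_, rfl, (mul_one _).symm⟩
      refine Red.step h he ?_ (one_mem _)
      intro hf k hk
      exact hback ⟨hf, k, hk⟩

/-- every path has a reduced form -/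
theorem rform_of_isPath {P Q : Fin G.V} {g : G.PathGroup} (h : G.IsPath P Q g) : RForm P Q g := by
  induction h with
  | refl => exact Or.inl ⟨rfl, one_mem _⟩
  | cuff i _ ih => exact ih.mul_pg (cuff_mem_pg (_, i))
  | cuffInv i _ ih => exact ih.mul_pg ((PG _).inv_mem (cuff_mem_pg (_, i)))
  | edge e _ ih => 
    have := RForm.mul_oe (G := G) (e, false) ih
    simpa [oe] using this
  | edgeInv e _ ih =>
    have := RForm.mul_oe (G := G) (e, true) ih
    simpa [oe] using this

end PantsGraph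
end Pool.Agent.DC
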