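import Pool.Agent.DC.D.Center
import Pool.Agent.DC.D.RedPath
import Pool.Agent.DC.D.Passage

/-!
Project DC, block D (helper6): the holonomy is discrete and faithful when all curves are short.
-/

open scoped ENNReal UpperHalfPlane Matrix ContDiff
open MeasureTheory Set

namespace Pool.Agent.DC

namespace PantsGraph
variable {G : PantsGraph}

namespace FN
variable {x : G.Teich} (F : FN x)

/-- a cuff seen from the centre of the hexagon of its pants, after an element of the pants group -/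
theorem ip_aa_ad_ctr (hx : ∀ e, len x e ≤ 1) (e : Fin G.d × Bool) (H : Hex)
    (hs : H.s = F.s (G.side e.1 e.2).1) (p : G.PathGroup) (hp : p ∈ PG (G.side e.1 e.2).1) :
    ip (F.aa e) (ad (F.hol p) H.ctr) ≤ -1 := by
  obtain ⟨w, hev, hch, rfl⟩ := pg_word _ hp
  have hC : ∀ m, H.C m ≤ 5 / 4 := F.hex_C_le _ H hs hx
  have h1 : ad (F.hol (cw (G.side e.1 e.2).1 w)) H.ctr = H.act w H.ctr :=
    (H.act_eq_ad w hev _ (F.hol_cw _ H hs w hev) H.ctr).symm
  rw [h1, show F.aa e = F.aa (e.1, e.2) from rfl, ← F.hex_a H e.1 e.2 hs]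
  exact H.ip_a_act_ctr hC (F.one_lt_C_side H e.1 e.2 hs) w hch

/-- the walls met by a path without backtracking -/
theorem red_wall (hx : ∀ e, len x e ≤ 1) {P : Fin G.V} {e : Fin G.d × Bool} {w p : G.PathGroup}
    (h : Red P e w p) : ∃ (e0 : Fin G.d × Bool) (p0 : G.PathGroup), (G.side e0.1 e0.2).1 = P ∧
      p0 ∈ PG P ∧ Fut (-ad (F.hol w) (F.aa (e.1, !e.2)) - ad (F.hol p0) (F.aa e0)) := by
  induction h with
  | @single e p0 p he h0 hp =>
    refine ⟨e, p0, he, h0, ?_⟩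
    rw [map_mul, ad_mul, F.hol_oe_aa, ad_neg, neg_neg, sub_self]
    exact Causal.fut_zero
  | @step e f w p p' h hef hne hp' ih =>
    obtain ⟨e0, p0, he0, hp0, hfut⟩ := ih
    refine ⟨e0, p0, he0, hp0, ?_⟩
    have hpass := (F.passage hx (e.1, !e.2) f hef p (hef ▸ h.mem) hne).2
    have h2 := fut_add hfut (fut_ad (F.hol w) hpass)
    have e1 : -ad (F.hol (w * p * oe f)) (F.aa (f.1, !f.2)) = ad (F.hol w) (ad (F.hol p) (F.aa f)) := by
      rw [map_mul, ad_mul, F.hol_oe_aa, ad_neg, neg_neg, map_mul, ad_mul]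
    rw [e1]
    rw [ad_add] at h2
    convert h2 using 1
    abel

/-- a nontrivial closed path separates the centre from its image by a wall -/
theorem exists_wall (hx : ∀ e, len x e ≤ 1) (P : Fin G.V) (H : Hex) (hs : H.s = F.s P)
    (γ : G.PathGroup) (hγ : G.IsPath P P γ) (hne : γ ≠ 1) :
    ∃ n : M2, n.trace = 0 ∧ ip n n = 1 ∧ ip n H.ctr ≤ -1 ∧ 0 ≤ ip n (ad (F.hol γ) H.ctr) := by
  have hC : ∀ m, H.C m ≤ 5 / 4 := F.hex_C_le _ H hs hx
  rcases rform_of_isPath hγ with ⟨-, hp⟩ | ⟨e, w, p, hred, he, rfl⟩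
  · obtain ⟨w, hev, hch, rfl⟩ := pg_word _ hp
    cases w with
    | nil => exact absurd rfl hne
    | cons i w =>
      refine ⟨H.s i, H.tr i, H.ip_s_s i, H.ip_ctr_s_le i, ?_⟩
      have h1 : ad (F.hol (cw P (i :: w))) H.ctr = H.act (i :: w) H.ctr :=
        (H.act_eq_ad _ hev _ (F.hol_cw _ H hs _ hev) H.ctr).symm
      rw [h1]
      exact H.wall_word hC i w hch
  · obtain ⟨e0, p0, he0, hp0, hfut⟩ := F.red_wall hx hred
    refine ⟨ad (F.hol p0) (F.aa e0), ?_, ?_, ?_, ?_⟩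
    · rw [ad_trace, F.aa_trace]
    · rw [ip_ad, F.ip_aa]
    · have h1 : ip (ad (F.hol p0) (F.aa e0)) H.ctr = ip (F.aa e0) (ad (F.hol p0⁻¹) H.ctr) := by
        rw [← ip_ad (F.hol p0) (F.aa e0), ← ad_mul, ← map_mul, mul_inv_cancel, map_one, ad_one]
      rw [h1]
      exact F.ip_aa_ad_ctr hx e0 H (by rw [hs, he0]) p0⁻¹ (by rw [he0]; exact (PG P).inv_mem hp0)
    · -- compare with the last wall
      have hq : Fut (ad (F.hol (w * p)) H.ctr) := fut_ad _ (H.ctr_fut hC)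
      have h1 := fut_ip_nonpos hfut hq
      have h2 : ip (ad (F.hol w) (F.aa (e.1, !e.2))) (ad (F.hol (w * p)) H.ctr) ≤ -1 := by
        rw [map_mul, ad_mul, ip_ad]
        refine F.ip_aa_ad_ctr hx (e.1, !e.2) H (by rw [hs, ← he]) p ?_
        exact hred.mem
      rw [sub_eq_add_neg, ip_add_left, ip_neg_left, ip_neg_left] at h1
      linarith

/-- quantitative discreteness at the centre -/
theorem ctr_moved (hx : ∀ e, len x e ≤ 1) (P : Fin G.V) (H : Hex) (hs : H.s = F.s P)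
    (γ : G.PathGroup) (hγ : G.IsPath P P γ) (hne : γ ≠ 1) :
    (ip H.ctr H.ctr) ^ 2 - ip H.ctr H.ctr ≤ (ip H.ctr (ad (F.hol γ) H.ctr)) ^ 2 := by
  have hC : ∀ m, H.C m ≤ 5 / 4 := F.hex_C_le _ H hs hx
  obtain ⟨n, hn, hnn, h1, h2⟩ := F.exists_wall hx P H hs γ hγ hne
  have hκ := H.ip_ctr_ctr hC
  have h := wall_sep (κ := -ip H.ctr H.ctr) hn H.ctr_trace
    (q := ad (F.hol γ) H.ctr) (by rw [ad_trace, H.ctr_trace]) hnn (by ring)
    (by rw [ip_ad]; ring) (by linarith)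
    (fut_ip_nonpos (H.ctr_fut hC) (fut_ad _ (H.ctr_fut hC))) h1 h2
  nlinarith

end FN
end PantsGraph

end Pool.Agent.DC
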