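import Pool.Agent.DC.D.Action

/-!
Project DC, block D (helper6): the infimal displacement of an element of `SL(2, ℝ)` acting on the
hyperbolic plane.
-/

open scoped ENNReal UpperHalfPlane Matrix ContDiff
open MeasureTheory Set

namespace Pool.Agent.DC

/-- infimal displacement -/
noncomputable def dispA (A : SL2) : ℝ := ⨅ z : ℍ, dist z (A • z)

/-- product of a point with the traceless part of a matrix -/
noncomputable def ipU (A : SL2) (z : ℍ) : ℝ :=
  (((A : M2) 0 0 - (A : M2) 1 1) * z.re - (z.re ^ 2 + z.im ^ 2) * (A : M2) 1 0 + (A : M2) 0 1) /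
    (2 * z.im)

theorem cosh_half_dist_sq (A : SL2) (z : ℍ) :
    Real.cosh (dist z (A • z) / 2) ^ 2 = (A : M2).trace ^ 2 / 4 + ipU A z ^ 2 := by
  have hz := z.im_pos
  have h1 : Real.cosh (dist z (A • z)) = 2 * Real.cosh (dist z (A • z) / 2) ^ 2 - 1 := by
    have := Real.cosh_two_mul (dist z (A • z) / 2)
    rw [show 2 * (dist z (A • z) / 2) = dist z (A • z) by ring] at this
    have h2 := Real.cosh_sq (dist z (A • z) / 2)
    rw [this]; linarith
  have h2 := ip_pt z (A • z)
  rw [← ad_pt, Causal.ip_eq, Causal.ad_00, Causal.ad_01, Causal.ad_10, Causal.ad_11] at h2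
  have p00 : pt z 0 0 = z.re / z.im := rfl
  have p01 : pt z 0 1 = -((z.re ^ 2 + z.im ^ 2) / z.im) := rfl
  have p10 : pt z 1 0 = 1 / z.im := rfl
  have p11 : pt z 1 1 = -(z.re / z.im) := rfl
  rw [p00, p01, p10, p11] at h2
  have hdet := Causal.det_eq A
  have h3 : Real.cosh (dist z (A • z) / 2) ^ 2 = (Real.cosh (dist z (A • z)) + 1) / 2 := by
    rw [h1]; ring
  rw [h3, ← neg_neg (Real.cosh (dist z (A • z))), ← h2, Matrix.trace_fin_two, ipU]
  field_simp
  generalize z.re = X at *
  generalize z.im = Y at *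
  generalize (A : M2) 0 0 = a at *
  generalize (A : M2) 0 1 = b at *
  generalize (A : M2) 1 0 = c at *
  generalize (A : M2) 1 1 = d at *
  linear_combination (exp := 1) (-8 * Y ^ 2) * hdet

theorem dispA_nonneg (A : SL2) : 0 ≤ dispA A := Real.iInf_nonneg fun _ => dist_nonneg

theorem dispA_le (A : SL2) (z : ℍ) : dispA A ≤ dist z (A • z) :=
  ciInf_le ⟨0, by rintro _ ⟨w, rfl⟩; exact dist_nonneg⟩ z

/-- almost optimal points -/
theorem exists_ipU_le (A : SL2) {ε : ℝ} (hε : 0 < ε) :
    ∃ z : ℍ, (A : M2).trace ^ 2 / 4 + ipU A z ^ 2 ≤ max 1 ((A : M2).trace ^ 2 / 4) + ε := by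
  have hdet := Causal.det_eq A
  have htr : (A : M2).trace = (A : M2) 0 0 + (A : M2) 1 1 := Matrix.trace_fin_two _
  rw [htr]
  generalize ha : (A : M2) 0 0 = a at *
  generalize hb : (A : M2) 0 1 = b at *
  generalize hc : (A : M2) 1 0 = c at *
  generalize hd : (A : M2) 1 1 = d at *
  have key : ∀ (X Y : ℝ) (hY : 0 < Y), ∃ z : ℍ,
      ipU A z = ((a - d) * X - (X ^ 2 + Y ^ 2) * c + b) / (2 * Y) := by
    intro X Y hY
    refine ⟨⟨⟨X, Y⟩, hY⟩, ?_⟩
    rw [ipU, ha, hb, hc, hd]
    rfl
  have hm1 : (a + d) ^ 2 / 4 ≤ max 1 ((a + d) ^ 2 / 4) := le_max_right _ _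
  have hm2 : 1 ≤ max 1 ((a + d) ^ 2 / 4) := le_max_left _ _
  by_cases hc0 : c = 0
  · subst hc0
    by_cases had : a = d
    · -- parabolic or identity
      obtain ⟨z, hz⟩ := key 0 ((|b| + 1) / Real.sqrt ε) (by positivity)
      refine ⟨z, ?_⟩
      have hs : 0 < Real.sqrt ε := Real.sqrt_pos.2 hε
      have hs2 : Real.sqrt ε ^ 2 = ε := Real.sq_sqrt hε.le
      have h1 : ipU A z = b * Real.sqrt ε / (2 * (|b| + 1)) := by
        rw [hz]; field_simp; ring
      have h2 : ipU A z ^ 2 ≤ ε := by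
        rw [h1, div_pow, mul_pow, hs2, div_le_iff₀ (by positivity)]
        have h3 : b ^ 2 ≤ (2 * (|b| + 1)) ^ 2 := by
          rw [← sq_abs b]
          have := abs_nonneg b
          nlinarith
        nlinarith
      linarith
    · obtain ⟨z, hz⟩ := key (-b / (a - d)) 1 one_pos
      refine ⟨z, ?_⟩
      have h1 : ipU A z = 0 := by
        rw [hz]
        have : a - d ≠ 0 := sub_ne_zero.2 had
        field_simp
        ring
      rw [h1]
      linarith
  · -- c ≠ 0
    set D : ℝ := (a - d) ^ 2 / 4 + b * c with hD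
    have hDt : D = (a + d) ^ 2 / 4 - 1 := by rw [hD]; linarith
    have hval : ∀ Y : ℝ, 0 < Y → ∃ z : ℍ, ipU A z = (D / c - c * Y ^ 2) / (2 * Y) := by
      intro Y hY
      obtain ⟨z, hz⟩ := key ((a - d) / (2 * c)) Y hY
      refine ⟨z, ?_⟩
      rw [hz, hD]
      field_simp
      ring
    rcases lt_trichotomy D 0 with h | h | h
    · obtain ⟨z, hz⟩ := hval (Real.sqrt (-D) / |c|) (div_pos (Real.sqrt_pos.2 (by linarith)) (abs_pos.2 hc0))
      refine ⟨z, ?_⟩
      have hs2 : Real.sqrt (-D) ^ 2 = -D := Real.sq_sqrt (by linarith)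
      have hs0 : 0 < Real.sqrt (-D) := Real.sqrt_pos.2 (by linarith)
      have hY2 : (Real.sqrt (-D) / |c|) ^ 2 = -D / c ^ 2 := by rw [div_pow, hs2, sq_abs]
      have h1 : ipU A z ^ 2 = -D := by
        rw [hz, div_pow, mul_pow, hY2]
        field_simp
        ring
      rw [h1, hDt]
      linarith
    · obtain ⟨z, hz⟩ := hval (2 * Real.sqrt ε / |c|)
        (div_pos (by positivity) (abs_pos.2 hc0))
      refine ⟨z, ?_⟩
      have hs2 : Real.sqrt ε ^ 2 = ε := Real.sq_sqrt hε.le
      have hs0 : 0 < Real.sqrt ε := Real.sqrt_pos.2 hε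
      have hY2 : (2 * Real.sqrt ε / |c|) ^ 2 = 4 * ε / c ^ 2 := by
        rw [div_pow, mul_pow, hs2, sq_abs]; ring
      have h1 : ipU A z ^ 2 = ε := by
        rw [hz, h, zero_div, zero_sub, div_pow, neg_sq, mul_pow, mul_pow, hY2]
        field_simp
        ring
      rw [h1]
      linarith
    · obtain ⟨z, hz⟩ := hval (Real.sqrt D / |c|) (div_pos (Real.sqrt_pos.2 h) (abs_pos.2 hc0))
      refine ⟨z, ?_⟩
      have hs2 : Real.sqrt D ^ 2 = D := Real.sq_sqrt h.le
      have hY2 : (Real.sqrt D / |c|) ^ 2 = D / c ^ 2 := by rw [div_pow, hs2, sq_abs]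
      have h1 : ipU A z = 0 := by
        rw [hz, hY2]
        field_simp
        ring
      rw [h1]
      linarith

/-- the infimal displacement of a matrix -/
theorem cosh_dispA_sq (A : SL2) :
    Real.cosh (dispA A / 2) ^ 2 = max 1 ((A : M2).trace ^ 2 / 4) := by
  apply le_antisymm
  · apply le_of_forall_pos_le_add
    intro ε hε
    obtain ⟨z, hz⟩ := exists_ipU_le A hε
    rw [← cosh_half_dist_sq] at hz
    refine le_trans ?_ hz
    have h1 := dispA_le A z
    have h0 := dispA_nonneg A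
    have h2 : Real.cosh (dispA A / 2) ≤ Real.cosh (dist z (A • z) / 2) := by
      rw [Real.cosh_le_cosh, abs_of_nonneg (by linarith), abs_of_nonneg (by linarith)]
      linarith
    have h3 := Real.one_le_cosh (dispA A / 2)
    nlinarith
  · -- lower bound
    set M := max 1 ((A : M2).trace ^ 2 / 4) with hM
    have hM1 : 1 ≤ M := le_max_left _ _
    have hs1 : 1 ≤ Real.sqrt M := by rw [Real.one_le_sqrt]; exact hM1
    have hL : ∀ z : ℍ, 2 * Real.arcosh (Real.sqrt M) ≤ dist z (A • z) := by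
      intro z
      have h1 := cosh_half_dist_sq A z
      have h2 : M ≤ Real.cosh (dist z (A • z) / 2) ^ 2 := by
        rw [hM]
        apply max_le
        · have := Real.one_le_cosh (dist z (A • z) / 2)
          nlinarith
        · rw [h1]
          have := sq_nonneg (ipU A z)
          linarith
      have h3 : Real.sqrt M ≤ Real.cosh (dist z (A • z) / 2) := by
        rw [Real.sqrt_le_left (by positivity)]
        exact h2
      have h4 : Real.arcosh (Real.sqrt M) ≤ dist z (A • z) / 2 := by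
        rw [← Real.arcosh_cosh (show 0 ≤ dist z (A • z) / 2 by positivity)]
        exact (Real.arcosh_le_arcosh (by positivity) (by positivity)).2 h3
      linarith
    have h5 : 2 * Real.arcosh (Real.sqrt M) ≤ dispA A := le_ciInf hL
    have h6 : Real.cosh (Real.arcosh (Real.sqrt M)) ≤ Real.cosh (dispA A / 2) := by
      have h7 : 0 ≤ Real.arcosh (Real.sqrt M) := Real.arcosh_nonneg hs1
      rw [Real.cosh_le_cosh, abs_of_nonneg h7, abs_of_nonneg (by linarith)]
      linarith
    rw [Real.cosh_arcosh hs1] at h6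
    have h8 : Real.sqrt M ^ 2 = M := Real.sq_sqrt (by linarith)
    have h9 : 0 ≤ Real.sqrt M := Real.sqrt_nonneg _
    nlinarith

theorem cosh_dispA (A : SL2) : Real.cosh (dispA A / 2) = max 1 (|(A : M2).trace| / 2) := by
  have h := cosh_dispA_sq A
  have h1 : 0 ≤ Real.cosh (dispA A / 2) := (Real.cosh_pos _).le
  have h2 : 0 ≤ max 1 (|(A : M2).trace| / 2) := le_trans zero_le_one (le_max_left _ _)
  have h3 : max 1 ((A : M2).trace ^ 2 / 4) = (max 1 (|(A : M2).trace| / 2)) ^ 2 := by
    have h4 : (A : M2).trace ^ 2 / 4 = (|(A : M2).trace| / 2) ^ 2 := by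
      rw [div_pow, sq_abs]; norm_num
    rw [h4]
    rcases le_total 1 (|(A : M2).trace| / 2) with h5 | h5
    · rw [max_eq_right h5, max_eq_right (by nlinarith)]
    · rw [max_eq_left h5, max_eq_left]
      · norm_num
      · have : 0 ≤ |(A : M2).trace| / 2 := by positivity
        nlinarith
  rw [h3] at h
  exact (pow_left_inj₀ h1 h2 two_ne_zero).1 h

theorem dispA_eq_zero_iff (A : SL2) : dispA A = 0 ↔ (A : M2).trace ^ 2 ≤ 4 := by
  have h := cosh_dispA_sq A
  constructor
  · intro h0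
    rw [h0, zero_div, Real.cosh_zero, one_pow] at h
    have : (A : M2).trace ^ 2 / 4 ≤ 1 := (le_max_right 1 _).trans (le_of_eq h.symm)
    linarith
  · intro h4
    rw [max_eq_left (by linarith)] at h
    have h1 : Real.cosh (dispA A / 2) = 1 := by
      have := Real.one_le_cosh (dispA A / 2)
      nlinarith
    by_contra hne
    have h2 : dispA A / 2 ≠ 0 := by
      intro h3; apply hne; linarith
    have := Real.one_lt_cosh.2 h2
    linarith

/-- a matrix with `tr² ≥ 4` and a fixed point is `± 1` -/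
theorem ad_eq_of_fixed {A : SL2} {z : ℍ} (h : A • z = z) (ht : 4 ≤ (A : M2).trace ^ 2) (X : M2) :
    ad A X = X := by
  have hz := z.im_pos
  have h1 := cosh_half_dist_sq A z
  rw [h, dist_self, zero_div, Real.cosh_zero, one_pow] at h1
  have h2 := sq_nonneg (ipU A z)
  have h3 : ipU A z = 0 := by
    have : ipU A z ^ 2 = 0 := by linarith
    exact pow_eq_zero_iff two_ne_zero |>.1 this
  have h4 : (A : M2).trace ^ 2 = 4 := by linarith
  rw [Matrix.trace_fin_two] at h4
  have hdet := Causal.det_eq A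
  rw [ipU, div_eq_zero_iff] at h3
  rcases h3 with h3 | h3
  · have h5 : ((A : M2) 0 0 - (A : M2) 1 1 - 2 * (A : M2) 1 0 * z.re) ^ 2 +
        4 * ((A : M2) 1 0 * z.im) ^ 2 = 0 := by
      linear_combination h4 - 4 * hdet - 4 * (A : M2) 1 0 * h3
    have h6 : (A : M2) 1 0 * z.im = 0 := by
      have : ((A : M2) 1 0 * z.im) ^ 2 = 0 := by
        nlinarith [sq_nonneg ((A : M2) 0 0 - (A : M2) 1 1 - 2 * (A : M2) 1 0 * z.re),
          sq_nonneg ((A : M2) 1 0 * z.im)]
      exact pow_eq_zero_iff two_ne_zero |>.1 this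
    have hc : (A : M2) 1 0 = 0 := by
      rcases mul_eq_zero.1 h6 with h7 | h7
      · exact h7
      · exact absurd h7 hz.ne'
    have had : (A : M2) 0 0 = (A : M2) 1 1 := by
      rw [hc] at h5
      have : ((A : M2) 0 0 - (A : M2) 1 1) ^ 2 = 0 := by linear_combination h5
      have := pow_eq_zero_iff two_ne_zero |>.1 this
      linarith
    have hb : (A : M2) 0 1 = 0 := by
      rw [hc, had] at h3
      linear_combination h3
    rw [hb, hc, had] at hdet
    have hsq : (A : M2) 1 1 * (A : M2) 1 1 = 1 := by linear_combination hdet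
    ext i j
    fin_cases i <;> fin_cases j
    · show ad A X 0 0 = X 0 0
      rw [Causal.ad_00, hb, hc, had]; linear_combination (X 0 0) * hsq
    · show ad A X 0 1 = X 0 1
      rw [Causal.ad_01, hb, had]; linear_combination (X 0 1) * hsq
    · show ad A X 1 0 = X 1 0
      rw [Causal.ad_10, hc]; linear_combination (X 1 0) * hsq
    · show ad A X 1 1 = X 1 1
      rw [Causal.ad_11, hb, hc, had]; linear_combination (X 1 1) * hsq
  · exfalso; linarith


theorem eq_of_cosh_half_dist {z w : ℍ} (h : Real.cosh (dist z w / 2) = 1) : z = w := by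
  by_contra hne
  have h1 : 0 < dist z w := dist_pos.2 hne
  have := Real.one_lt_cosh.2 (show dist z w / 2 ≠ 0 by positivity)
  linarith

theorem smul_eq_of_ad {A : SL2} (h : ∀ X, ad A X = X) (w : ℍ) : A • w = w := by
  have h1 := ip_pt w (A • w)
  rw [← ad_pt, h, ip_pt_self] at h1
  have h2 : Real.cosh (dist w (A • w)) = 1 := by linarith
  by_contra hne
  have h3 : 0 < dist w (A • w) := dist_pos.2 (Ne.symm hne)
  have := Real.one_lt_cosh.2 h3.ne'
  linarith

/-- elliptic elements have a fixed point -/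
theorem exists_fixed_of_trace {A : SL2} (h : (A : M2).trace ^ 2 < 4) : ∃ z : ℍ, A • z = z := by
  have hdet := Causal.det_eq A
  have htr : (A : M2).trace = (A : M2) 0 0 + (A : M2) 1 1 := Matrix.trace_fin_two _
  have hc0 : (A : M2) 1 0 ≠ 0 := by
    intro hc
    rw [htr] at h
    rw [hc] at hdet
    nlinarith [sq_nonneg ((A : M2) 0 0 - (A : M2) 1 1)]
  set c := (A : M2) 1 0 with hc
  set D : ℝ := ((A : M2) 0 0 - (A : M2) 1 1) ^ 2 / 4 + (A : M2) 0 1 * c with hD
  have hDt : D = (A : M2).trace ^ 2 / 4 - 1 := by rw [hD, htr]; linarith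
  have hY : 0 < Real.sqrt (-D) / |c| := div_pos (Real.sqrt_pos.2 (by linarith)) (abs_pos.2 hc0)
  have hs2 : Real.sqrt (-D) ^ 2 = -D := Real.sq_sqrt (by linarith)
  have hY2 : (Real.sqrt (-D) / |c|) ^ 2 = -D / c ^ 2 := by rw [div_pow, hs2, sq_abs]
  let z : ℍ := ⟨⟨((A : M2) 0 0 - (A : M2) 1 1) / (2 * c), Real.sqrt (-D) / |c|⟩, hY⟩
  have hre : z.re = ((A : M2) 0 0 - (A : M2) 1 1) / (2 * c) := rfl
  have him : z.im = Real.sqrt (-D) / |c| := rfl
  refine ⟨z, ?_⟩
  have h1 : ipU A z ^ 2 = -D := by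
    rw [ipU, div_pow, mul_pow, hre, him, hY2, ← hc]
    have hD' : (A : M2) 0 1 = (D - ((A : M2) 0 0 - (A : M2) 1 1) ^ 2 / 4) / c := by
      rw [hD]; field_simp; ring
    rw [hD']
    have hDne : D ≠ 0 := by rw [hDt]; linarith
    field_simp
    ring
  have h2 := cosh_half_dist_sq A z
  rw [h1, hDt] at h2
  have h3 : Real.cosh (dist z (A • z) / 2) = 1 := by
    have := Real.cosh_pos (dist z (A • z) / 2)
    nlinarith
  exact (eq_of_cosh_half_dist h3).symm

theorem no_fixed_of_trace {A : SL2} (h : 4 < (A : M2).trace ^ 2) (z : ℍ) : A • z ≠ z := by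
  intro hz
  have h1 := cosh_half_dist_sq A z
  rw [hz, dist_self, zero_div, Real.cosh_zero, one_pow] at h1
  have := sq_nonneg (ipU A z)
  linarith

end Pool.Agent.DC
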