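import Pool.Agent.DC.D.StdFrame

/-!
# Project DC, block D: existence of Fenchel-Nielsen structures, smooth in the coordinates
-/

open scoped ENNReal UpperHalfPlane Matrix ContDiff
open MeasureTheory Set

namespace Pool.Agent.DC

namespace PantsGraph

namespace FNEx

section

variable (G : PantsGraph)

/-- the kind of a cuff: side of a curve or puncture -/
noncomputable def kind : Fin G.V × Fin 3 ≃ (Fin G.d × Bool) ⊕ Fin G.n :=
  (Equiv.ofBijective _ G.bij).symm

theorem kind_side (e : Fin G.d) (b : Bool) : kind G (G.side e b) = Sum.inl (e, b) := by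
  rw [kind, Equiv.symm_apply_eq]
  rfl

theorem kind_puncture (j : Fin G.n) : kind G (G.puncture j) = Sum.inr j := by
  rw [kind, Equiv.symm_apply_eq]
  rfl

end

variable {G : PantsGraph}

/-- hyperbolic cosine of the half length of a cuff -/
noncomputable def CC (l : Fin G.d → ℝ) (p : Fin G.V × Fin 3) : ℝ :=
  Sum.elim (fun q : Fin G.d × Bool => Real.cosh (l q.1 / 2)) (fun _ => 1) (kind G p)

theorem CC_side (l : Fin G.d → ℝ) (e : Fin G.d) (b : Bool) :
    CC l (G.side e b) = Real.cosh (l e / 2) := by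
  rw [CC, kind_side]
  rfl

theorem CC_puncture (l : Fin G.d → ℝ) (j : Fin G.n) : CC l (G.puncture j) = 1 := by
  rw [CC, kind_puncture]
  rfl

theorem CC_ge (l : Fin G.d → ℝ) (p : Fin G.V × Fin 3) : 1 ≤ CC l p := by
  rw [CC]
  rcases kind G p with q | j
  · exact Real.one_le_cosh _
  · exact le_refl _

theorem len_pos (x : G.Teich) (e : Fin G.d) : 0 < len x e := Real.exp_pos _

theorem len_smooth (e : Fin G.d) : ContDiff ℝ ∞ fun x : G.Teich => len x e := by
  unfold len
  exact Real.contDiff_exp.comp (contDiff_euclidean.1 contDiff_id _)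

theorem shift_smooth (e : Fin G.d) : ContDiff ℝ ∞ fun x : G.Teich => shift x e := by
  unfold shift
  exact ((len_smooth e).mul (contDiff_euclidean.1 contDiff_id _)).div_const _

theorem CC_smooth (p : Fin G.V × Fin 3) : ContDiff ℝ ∞ fun x : G.Teich => CC (len x) p := by
  unfold CC
  rcases kind G p with q | j
  · exact Real.contDiff_cosh.comp ((len_smooth q.1).div_const _)
  · exact contDiff_const

/-- the seams -/
noncomputable def ss (l : Fin G.d → ℝ) (P : Fin G.V) : Fin 3 → M2 :=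
  stdS fun i => CC l (P, i)

theorem ss_smooth (P : Fin G.V) (i : Fin 3) (a b : Fin 2) :
    ContDiff ℝ ∞ fun x : G.Teich => ss (len x) P i a b :=
  stdS_smooth i a b (fun x : G.Teich => fun i => CC (len x) (P, i)) (fun _ _ => CC_ge _ _)
    (fun i => CC_smooth (P, i))

theorem ss_trace (l : Fin G.d → ℝ) (P : Fin G.V) (i : Fin 3) : (ss l P i).trace = 0 := by
  obtain ⟨H, h1, h2⟩ := stdS_hex (fun i => CC l (P, i)) (fun i => CC_ge _ _)
  rw [ss, ← h1]
  exact H.tr i

theorem ss_det (l : Fin G.d → ℝ) (P : Fin G.V) (i : Fin 3) : (ss l P i).det = -1 := by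
  obtain ⟨H, h1, h2⟩ := stdS_hex (fun i => CC l (P, i)) (fun i => CC_ge _ _)
  rw [ss, ← h1]
  exact H.det i

theorem ss_gram (l : Fin G.d → ℝ) (P : Fin G.V) (i : Fin 3) :
    (ss l P (i + 1) * ss l P (i + 2)).trace = -2 * CC l (P, i) := by
  obtain ⟨H, h1, h2⟩ := stdS_hex (fun i => CC l (P, i)) (fun i => CC_ge _ _)
  rw [ss, ← h1, H.gram, h2]

theorem ss_orient (l : Fin G.d → ℝ) (P : Fin G.V) :
    0 < (ss l P 0 * ss l P 1 * ss l P 2).trace := by
  obtain ⟨H, h1, h2⟩ := stdS_hex (fun i => CC l (P, i)) (fun i => CC_ge _ _)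
  rw [ss, ← h1]
  exact H.orient

theorem ss_outward (l : Fin G.d → ℝ) (P : Fin G.V) :
    0 < (ss l P 0 + ss l P 1 + ss l P 2) 1 0 - (ss l P 0 + ss l P 1 + ss l P 2) 0 1 := by
  obtain ⟨H, h1, h2⟩ := stdS_hex (fun i => CC l (P, i)) (fun i => CC_ge _ _)
  rw [ss, ← h1]
  exact H.outward

/-- outward unit normal of the cuff of a side -/
noncomputable def ZZ (l : Fin G.d → ℝ) (e : Fin G.d) (b : Bool) : M2 :=
  (-(Real.sinh (l e / 2))⁻¹) • (ss l (G.side e b).1 ((G.side e b).2 + 1) *
    ss l (G.side e b).1 ((G.side e b).2 + 2) + Real.cosh (l e / 2) • (1 : M2))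

/-- Cayley-Hamilton for a product of two reflections -/
theorem two_refl (A B : M2) (c : ℝ) (hA : A.det = -1) (hB : B.det = -1)
    (h : (A * B).trace = -2 * c) :
    (A * B + c • (1 : M2)) * (A * B + c • (1 : M2)) = (c ^ 2 - 1) • (1 : M2) := by
  have hd : (A * B).det = 1 := by rw [Matrix.det_mul, hA, hB]; norm_num
  generalize A * B = X at h hd ⊢
  rw [Matrix.det_fin_two] at hd
  rw [Matrix.trace_fin_two] at h
  have h1 : X 1 1 = -2 * c - X 0 0 := by linarith
  rw [h1] at hd
  ext i j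
  fin_cases i <;> fin_cases j <;>
    simp [Matrix.mul_apply, Fin.sum_univ_two, h1, Matrix.smul_apply] <;> nlinarith

theorem sq_of_td (A : M2) (h0 : A.trace = 0) (h1 : A.det = -1) : A * A = 1 :=
  sq_of_trace_det A h0 h1

variable {l : Fin G.d → ℝ}

theorem sinh_pos' {t : ℝ} (h : 0 < t) : 0 < Real.sinh (t / 2) := Real.sinh_pos_iff.2 (by linarith)

theorem ss_gram_side (e : Fin G.d) (b : Bool) :
    (ss l (G.side e b).1 ((G.side e b).2 + 1) *
      ss l (G.side e b).1 ((G.side e b).2 + 2)).trace = -2 * Real.cosh (l e / 2) := by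
  rw [ss_gram, Prod.mk.eta, CC_side]

theorem ZZ_trace (e : Fin G.d) (b : Bool) : (ZZ l e b).trace = 0 := by
  rw [ZZ, Matrix.trace_smul, Matrix.trace_add, ss_gram_side, Matrix.trace_smul, Matrix.trace_one]
  simp only [Fintype.card_fin, smul_eq_mul]
  push_cast
  ring

theorem ZZ_ip (hl : ∀ e, 0 < l e) (e : Fin G.d) (b : Bool) : ip (ZZ l e b) (ZZ l e b) = 1 := by
  have h1 := two_refl (ss l (G.side e b).1 ((G.side e b).2 + 1))
    (ss l (G.side e b).1 ((G.side e b).2 + 2)) (Real.cosh (l e / 2)) (ss_det _ _ _)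
    (ss_det _ _ _) (ss_gram_side e b)
  have h2 := sinh_pos' (hl e)
  have h3 := Real.cosh_sq (l e / 2)
  rw [ip, ZZ, Matrix.smul_mul, Matrix.mul_smul, h1, smul_smul, smul_smul, Matrix.trace_smul,
    Matrix.trace_one]
  simp only [Fintype.card_fin, smul_eq_mul]
  rw [h3]
  push_cast
  field_simp
  ring

theorem ss_ip (P : Fin G.V) (i : Fin 3) : ip (ss l P i) (ss l P i) = 1 := by
  rw [ip, sq_of_td _ (ss_trace _ _ _) (ss_det _ _ _), Matrix.trace_one]
  simp

theorem ss_ZZ_ip (e : Fin G.d) (b : Bool) :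
    ip (ss l (G.side e b).1 ((G.side e b).2 + 1)) (ZZ l e b) = 0 := by
  rw [ip, ZZ, Matrix.mul_smul, Matrix.mul_add, ← Matrix.mul_assoc,
    sq_of_td _ (ss_trace _ _ _) (ss_det _ _ _), Matrix.one_mul, Matrix.mul_smul, Matrix.mul_one,
    Matrix.trace_smul, Matrix.trace_add, Matrix.trace_smul, ss_trace, ss_trace]
  simp

theorem ZZ_ne (hl : ∀ e, 0 < l e) (e : Fin G.d) (b : Bool) : ZZ l e b 1 0 ≠ 0 := by
  have h2 := sinh_pos' (hl e)
  have h1 : 1 < CC l ((G.side e b).1, (G.side e b).2) := by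
    rw [Prod.mk.eta, CC_side]
    exact Real.one_lt_cosh.2 (by have := hl e; positivity)
  have h3 := stdS_ne (fun i => CC l ((G.side e b).1, i)) (fun i => CC_ge _ _) (G.side e b).2 h1
  rw [ZZ]
  simp only [Matrix.smul_apply, Matrix.add_apply, smul_eq_mul]
  rw [Matrix.one_apply_ne (by decide), mul_zero, add_zero]
  exact mul_ne_zero (neg_ne_zero.2 (inv_ne_zero h2.ne')) h3

/-- the frame -/
noncomputable def NN (l : Fin G.d → ℝ) (e : Fin G.d) (b : Bool) : M2 :=
  frameM (ss l (G.side e b).1 ((G.side e b).2 + 1)) (ZZ l e b)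

theorem NN_spec (hl : ∀ e, 0 < l e) (e : Fin G.d) (b : Bool) :
    (NN l e b).det = 1 ∧ ZZ l e b * NN l e b = NN l e b * !![1, 0; 0, -1] ∧
    ∃ ε : ℝ, (ε = 1 ∨ ε = -1) ∧ ss l (G.side e b).1 ((G.side e b).2 + 1) * NN l e b =
      ε • (NN l e b * !![0, 1; 1, 0]) :=
  frameM_spec _ _ (ss_trace _ _ _) (ss_ip _ _) (ZZ_trace _ _) (ZZ_ip hl _ _) (ss_ZZ_ip _ _)
    (ZZ_ne hl _ _)

theorem seam_aux (N : SL2) (s : M2) (ε : ℝ) (h : s * (N : M2) = ε • ((N : M2) * !![0, 1; 1, 0])) :
    s = ε • ((N : M2) * !![0, 1; 1, 0] * ((N⁻¹ : SL2) : M2)) := by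
  have h3 : (N : M2) * ((N⁻¹ : SL2) : M2) = 1 := by
    rw [← Matrix.SpecialLinearGroup.coe_mul, mul_inv_cancel, Matrix.SpecialLinearGroup.coe_one]
  calc s = s * ((N : M2) * ((N⁻¹ : SL2) : M2)) := by rw [h3, Matrix.mul_one]
    _ = s * (N : M2) * ((N⁻¹ : SL2) : M2) := by rw [Matrix.mul_assoc]
    _ = _ := by rw [h, Matrix.smul_mul]

/-- the structure -/
noncomputable def theFN (x : G.Teich) : FN x where
  s := ss (len x)
  trace_s P i := ss_trace _ _ _
  det_s P i := ss_det _ _ _
  gram_side e b := ss_gram_side e b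
  gram_puncture j := by rw [ss_gram, Prod.mk.eta, CC_puncture]; norm_num
  orient P := ss_orient _ _
  outward P := ss_outward _ _
  N e b := ⟨NN (len x) e b, (NN_spec (len_pos x) e b).1⟩
  N_cuff e b := by
    have h1 := dil_frame ⟨NN (len x) e b, (NN_spec (len_pos x) e b).1⟩ (ZZ (len x) e b) (len x e)
      (NN_spec (len_pos x) e b).2.1
    have h2 := sinh_pos' (len_pos x e)
    rw [h1, ZZ, smul_smul]
    have h3 : Real.sinh (len x e / 2) * -(Real.sinh (len x e / 2))⁻¹ = -1 := by
      field_simp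
    rw [h3, neg_one_smul]
    abel
  N_seam e b := by
    obtain ⟨ε, h1, h2⟩ := (NN_spec (len_pos x) e b).2.2
    exact ⟨ε, h1, seam_aux ⟨NN (len x) e b, (NN_spec (len_pos x) e b).1⟩ _ ε h2⟩

/-- smooth families of matrices of determinant one -/
def Sm (f : G.Teich → M2) : Prop := ∀ i j, ContDiff ℝ ∞ fun x => f x i j

theorem Sm.mul {f g : G.Teich → M2} (hf : Sm f) (hg : Sm g) : Sm fun x => f x * g x := by
  intro i j
  simp only [Matrix.mul_apply, Fin.sum_univ_two]
  exact ((hf _ _).mul (hg _ _)).add ((hf _ _).mul (hg _ _))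

theorem Sm.const (A : M2) : Sm (G := G) fun _ => A := fun _ _ => contDiff_const

theorem Sm.inv {f : G.Teich → SL2} (hf : Sm fun x => (f x : M2)) :
    Sm fun x => (((f x)⁻¹ : SL2) : M2) := by
  intro i j
  simp only [Matrix.SpecialLinearGroup.coe_inv, Matrix.adjugate_fin_two]
  fin_cases i <;> fin_cases j
  · exact hf 1 1
  · exact (hf 0 1).neg
  · exact (hf 1 0).neg
  · exact hf 0 0

theorem ss_Sm (P : Fin G.V) (i : Fin 3) : Sm fun x : G.Teich => ss (len x) P i :=
  fun a b => ss_smooth P i a b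

theorem ZZ_Sm (e : Fin G.d) (b : Bool) : Sm fun x : G.Teich => ZZ (len x) e b := by
  have h1 : ContDiff ℝ ∞ fun x : G.Teich => Real.sinh (len x e / 2) :=
    Real.contDiff_sinh.comp ((len_smooth e).div_const _)
  have h2 : ContDiff ℝ ∞ fun x : G.Teich => Real.cosh (len x e / 2) :=
    Real.contDiff_cosh.comp ((len_smooth e).div_const _)
  intro i j
  have h3 := ((ss_Sm (G.side e b).1 ((G.side e b).2 + 1)).mul
    (ss_Sm (G.side e b).1 ((G.side e b).2 + 2))) i j
  simp only [ZZ, Matrix.smul_apply, Matrix.add_apply, smul_eq_mul]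
  refine ((h1.inv fun x => ?_).neg).mul (h3.add (h2.mul contDiff_const))
  exact (sinh_pos' (len_pos x e)).ne'

theorem NN_Sm (e : Fin G.d) (b : Bool) : Sm fun x : G.Teich => NN (len x) e b := by
  intro i j
  exact frameM_smooth i j (fun x : G.Teich => ss (len x) (G.side e b).1 ((G.side e b).2 + 1))
    (fun x : G.Teich => ZZ (len x) e b) (fun i j => ss_smooth _ _ i j) (ZZ_Sm e b)
    (fun x => ⟨ss_trace _ _ _, ss_ip _ _, ZZ_trace _ _, ZZ_ip (len_pos x) _ _, ss_ZZ_ip _ _,
      ZZ_ne (len_pos x) _ _⟩)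

theorem dil_Sm (e : Fin G.d) : Sm fun x : G.Teich => (dil (shift x e) : M2) := by
  have h1 : ContDiff ℝ ∞ fun x : G.Teich => Real.exp (shift x e / 2) :=
    Real.contDiff_exp.comp ((shift_smooth e).div_const _)
  have h2 : ContDiff ℝ ∞ fun x : G.Teich => Real.exp (-(shift x e / 2)) :=
    Real.contDiff_exp.comp ((shift_smooth e).div_const _).neg
  intro i j
  simp only [dil_coe]
  fin_cases i <;> fin_cases j
  · exact h1
  · exact contDiff_const
  · exact contDiff_const
  · exact h2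

theorem gen_Sm (g : G.Gen) :
    Sm fun x : G.Teich => (((theFN x).hol (PresentedGroup.of g) : SL2) : M2) := by
  rcases g with p | e
  · have h1 : ∀ x : G.Teich, (((theFN x).hol (PresentedGroup.of (Sum.inl p)) : SL2) : M2) =
        ss (len x) p.1 (p.2 + 1) * ss (len x) p.1 (p.2 + 2) := by
      intro x
      have := (theFN x).hol_cuff p
      rw [cuff] at this
      rw [this]
      rfl
    simp only [h1]
    exact (ss_Sm _ _).mul (ss_Sm _ _)
  · have h1 : ∀ x : G.Teich, (((theFN x).hol (PresentedGroup.of (Sum.inr e)) : SL2) : M2) =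
        ((theFN x).N e false : M2) * (dil (shift x e) : M2) * (turn : M2) *
          ((((theFN x).N e true)⁻¹ : SL2) : M2) := by
      intro x
      have := (theFN x).hol_edge e
      rw [edge] at this
      rw [this, FN.edgeM, Matrix.SpecialLinearGroup.coe_mul, Matrix.SpecialLinearGroup.coe_mul,
        Matrix.SpecialLinearGroup.coe_mul]
    simp only [h1]
    have hN : ∀ b, Sm fun x : G.Teich => ((theFN x).N e b : M2) := fun b => NN_Sm e b
    exact (((hN false).mul (dil_Sm e)).mul (Sm.const _)).mul (hN true).inv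

theorem hol_Sm (γ : G.PathGroup) : Sm fun x : G.Teich => (((theFN x).hol γ : SL2) : M2) := by
  have h : γ ∈ Subgroup.closure (Set.range (PresentedGroup.of (rels := G.rels))) := by
    rw [PresentedGroup.closure_range_of]
    exact Subgroup.mem_top _
  induction h using Subgroup.closure_induction with
  | mem y hy =>
    obtain ⟨g, rfl⟩ := hy
    exact gen_Sm g
  | one =>
    simp only [map_one]
    exact Sm.const _
  | mul y z _ _ hy hz =>
    simp only [map_mul, Matrix.SpecialLinearGroup.coe_mul]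
    exact hy.mul hz
  | inv y _ hy =>
    simp only [map_inv]
    exact hy.inv

end FNEx

open FNEx in
theorem exists_FN_smooth (G : PantsGraph) : ∃ F : ∀ x : G.Teich, FN x,
    (∀ γ i j, ContDiff ℝ ∞ fun x => (((F x).hol γ : SL2) : M2) i j) ∧
    (∀ x y : G.Teich, (∀ e, x (Fin.castAdd G.d e) = y (Fin.castAdd G.d e)) →
      (F x).s = (F y).s ∧ (F x).N = (F y).N) := by
  refine ⟨fun x => theFN x, fun γ i j => hol_Sm γ i j, fun x y h => ?_⟩
  have hl : len x = len y := by
    funext e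
    rw [len, len, h e]
  refine ⟨?_, ?_⟩
  · show ss (len x) = ss (len y)
    rw [hl]
  · funext e b
    apply Subtype.ext
    show NN (len x) e b = NN (len y) e b
    rw [hl]

end PantsGraph

end Pool.Agent.DC
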