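import Pool.Agent.DC.D.PantsWord

/-!
# Project DC, block D, row D10: relations of the path group, basic paths
-/

open scoped ENNReal UpperHalfPlane Matrix ContDiff
open MeasureTheory Set

namespace Pool.Agent.DC

namespace PantsGraph
variable {G : PantsGraph}

theorem edge_rel (e : Fin G.d) :
    G.edge e * G.cuff (G.side e true) * (G.edge e)⁻¹ * G.cuff (G.side e false) = 1 := by
  have h : (FreeGroup.of (Sum.inr e) * FreeGroup.of (Sum.inl (G.side e true)) *
      (FreeGroup.of (Sum.inr e))⁻¹ * FreeGroup.of (Sum.inl (G.side e false)) :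
      FreeGroup G.Gen) ∈ G.rels := Or.inr ⟨e, rfl⟩
  have h2 := PresentedGroup.one_of_mem h
  simpa [PresentedGroup.of, edge, cuff] using h2

/-- both orientations -/
theorem oe_rel (e : Fin G.d × Bool) : oe e * G.cuff (G.side e.1 (!e.2)) * (oe e)⁻¹ =
    (G.cuff (G.side e.1 e.2))⁻¹ := by
  obtain ⟨e, b⟩ := e
  have h := edge_rel e
  have h1 : G.edge e * G.cuff (G.side e true) * (G.edge e)⁻¹ = (G.cuff (G.side e false))⁻¹ :=
    eq_inv_of_mul_eq_one_left h
  cases b
  · simpa [oe] using h1
  · have h2 : G.cuff (G.side e false) = G.edge e * (G.cuff (G.side e true))⁻¹ * (G.edge e)⁻¹ := by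
      rw [← inv_inv (G.cuff (G.side e false)), ← h1]
      group
    simp only [oe, if_true, Bool.not_true, inv_inv]
    rw [h2]
    group

theorem oe_inv (e : Fin G.d × Bool) : oe (G := G) (e.1, !e.2) = (oe e)⁻¹ := by
  obtain ⟨e, b⟩ := e
  cases b <;> simp [oe]

theorem isPath_oe (e : Fin G.d × Bool) :
    G.IsPath (G.side e.1 e.2).1 (G.side e.1 (!e.2)).1 (oe e) := by
  obtain ⟨e, b⟩ := e
  cases b
  · have h : G.IsPath (G.side e false).1 (G.side e true).1 (1 * G.edge e) :=
      (IsPath.refl _).edge e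
    rw [one_mul] at h
    simpa [oe] using h
  · have h : G.IsPath (G.side e true).1 (G.side e false).1 (1 * (G.edge e)⁻¹) :=
      (IsPath.refl _).edgeInv e
    rw [one_mul] at h
    simpa [oe] using h

theorem isPath_pg (P : Fin G.V) {g : G.PathGroup} (hg : g ∈ PG P) : G.IsPath P P g := by
  refine Subgroup.closure_induction (p := fun x _ => G.IsPath P P x) ?_ ?_ ?_ ?_ hg
  · rintro x ⟨i, rfl⟩
    have h : G.IsPath P P (1 * G.cuff (P, i)) := (IsPath.refl P).cuff i
    rwa [one_mul] at h
  · exact IsPath.refl P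
  · intro x y _ _ hx hy
    exact hx.mul hy
  · intro x _ hx
    exact hx.inv

theorem isPath_conn (P : Fin G.V) : ∃ w, G.IsPath G.base P w := by
  have h := G.conn P
  induction h with
  | refl => exact ⟨1, IsPath.refl _⟩
  | tail _ h2 ih =>
    obtain ⟨w, hw⟩ := ih
    obtain ⟨e, b, h3, h4⟩ := h2
    have h5 := isPath_oe (G := G) (e, b)
    refine ⟨w * oe (e, b), ?_⟩
    simp only at h5
    rw [h3, h4] at h5
    exact hw.mul h5

end PantsGraph

end Pool.Agent.DC
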