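import Pool.Agent.DC.D.HexNormal
import Pool.Agent.DC.D.PathBasic
import Pool.Agent.DC.D.WordMat

/-!
# Project DC, block D, row D12: the hexagon of a pair of pants, holonomy of cuffs and edges
-/

open scoped ENNReal UpperHalfPlane Matrix ContDiff
open MeasureTheory Set

namespace Pool.Agent.DC

namespace PantsGraph
variable {G : PantsGraph}

namespace FN
variable {x : G.Teich} (F : FN x)

/-! ### auxiliary facts -/

private theorem fh_ad_mul (g h : SL2) (X : M2) : ad (g * h) X = ad g (ad h X) := by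
  unfold ad
  rw [mul_inv_rev, Matrix.SpecialLinearGroup.coe_mul, Matrix.SpecialLinearGroup.coe_mul]
  simp only [Matrix.mul_assoc]

private theorem fh_ad_neg (g : SL2) (X : M2) : ad g (-X) = -ad g X := by
  unfold ad
  rw [Matrix.mul_neg, Matrix.neg_mul]

private theorem fh_ad_one (X : M2) : ad 1 X = X := by
  unfold ad
  simp

private theorem fh_ad_inv (g : SL2) (X : M2) : ad g⁻¹ (ad g X) = X := by
  rw [← fh_ad_mul, inv_mul_cancel, fh_ad_one]

private theorem fh_coe_mul_inv (g : SL2) : (g : M2) * ((g⁻¹ : SL2) : M2) = 1 := by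
  rw [← Matrix.SpecialLinearGroup.coe_mul, mul_inv_cancel, Matrix.SpecialLinearGroup.coe_one]

private theorem fh_dil_add (s t : ℝ) : dil s * dil t = dil (s + t) := by
  apply Subtype.ext
  rw [Matrix.SpecialLinearGroup.coe_mul, dil_coe, dil_coe, dil_coe]
  have h1 : (s + t) / 2 = s / 2 + t / 2 := by ring
  have h2 : -((s + t) / 2) = -(s / 2) + -(t / 2) := by ring
  rw [h2, h1, Real.exp_add, Real.exp_add]
  simp

private theorem fh_dil_zero : dil 0 = 1 := by
  apply Subtype.ext
  rw [dil_coe, Matrix.SpecialLinearGroup.coe_one]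
  simp [Matrix.one_fin_two]

private theorem fh_dil_neg (t : ℝ) : (dil t)⁻¹ = dil (-t) := by
  apply inv_eq_of_mul_eq_one_right
  rw [fh_dil_add, add_neg_cancel, fh_dil_zero]

private theorem fh_dil_pow (l : ℝ) (m : ℕ) : dil l ^ m = dil (m * l) := by
  induction m with
  | zero => simp [fh_dil_zero]
  | succ m ih =>
    rw [pow_succ, ih, fh_dil_add]
    congr 1
    push_cast
    ring

private theorem fh_dil_zpow (l : ℝ) (n : ℤ) : dil l ^ n = dil (n * l) := by
  cases n with
  | ofNat m => simpa using fh_dil_pow l m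
  | negSucc m =>
    rw [zpow_negSucc, fh_dil_pow, fh_dil_neg]
    congr 1
    rw [Int.cast_negSucc]
    push_cast
    ring

private theorem fh_dil_trace (t : ℝ) : (dil t : M2).trace = 2 * Real.cosh (t / 2) := by
  rw [dil_coe, Matrix.trace_fin_two_of, Real.cosh_eq]
  ring

private theorem fh_dil_split (t : ℝ) : (dil t : M2) =
    Real.cosh (t / 2) • (1 : M2) + Real.sinh (t / 2) • (!![1, 0; 0, -1] : M2) := by
  rw [dil_coe]
  have h1 : Real.exp (t / 2) = Real.cosh (t / 2) + Real.sinh (t / 2) := by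
    rw [Real.cosh_add_sinh]
  have h2 : Real.exp (-(t / 2)) = Real.cosh (t / 2) - Real.sinh (t / 2) := by
    rw [Real.cosh_sub_sinh]
  rw [h1, h2]
  ext i j
  fin_cases i <;> fin_cases j <;> simp [sub_eq_add_neg]

private theorem fh_ad_dil (t : ℝ) : ad (dil t) !![1, 0; 0, -1] = !![1, 0; 0, -1] := by
  unfold ad
  rw [fh_dil_neg, dil_coe, dil_coe]
  have h : Real.exp (t / 2) * Real.exp (-t / 2) = 1 := by
    rw [← Real.exp_add]
    have : t / 2 + -t / 2 = 0 := by ring
    rw [this, Real.exp_zero]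
  have h3 : Real.exp (-(t / 2)) * Real.exp (-(-t / 2)) = 1 := by
    rw [← Real.exp_add]
    have : -(t / 2) + -(-t / 2) = 0 := by ring
    rw [this, Real.exp_zero]
  ext i j
  fin_cases i <;> fin_cases j <;> simp [h, h3]

private theorem fh_ad_turn : ad turn !![1, 0; 0, -1] = -!![1, 0; 0, -1] := by
  unfold ad
  rw [Matrix.SpecialLinearGroup.coe_inv, turn_coe]
  ext i j
  fin_cases i <;> fin_cases j <;> simp [Matrix.adjugate_fin_two]

private theorem fh_len_pos (e : Fin G.d) : 0 < len x e := Real.exp_pos _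

private theorem fh_trace_conj (g h : SL2) : ((g * h * g⁻¹ : SL2) : M2).trace = (h : M2).trace := by
  rw [Matrix.SpecialLinearGroup.coe_mul, Matrix.trace_mul_comm, ← Matrix.SpecialLinearGroup.coe_mul,
    ← mul_assoc, inv_mul_cancel, one_mul]

private theorem fh_cuff_cases (p : Fin G.V × Fin 3) :
    (∃ e b, G.side e b = p) ∨ ∃ j, G.puncture j = p := by
  obtain ⟨q, hq⟩ := G.bij.2 p
  rcases q with ⟨e, b⟩ | j
  · exact Or.inl ⟨e, b, hq⟩
  · exact Or.inr ⟨j, hq⟩

private theorem fh_C_ge (P : Fin G.V) (i : Fin 3) :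
    1 ≤ -(F.s P (i + 1) * F.s P (i + 2)).trace / 2 := by
  rcases fh_cuff_cases (G := G) (P, i) with ⟨e, b, h⟩ | ⟨j, h⟩
  · have h1 := F.gram_side e b
    rw [h] at h1
    simp only at h1
    rw [h1]
    have := Real.one_le_cosh (len x e / 2)
    linarith
  · have h1 := F.gram_puncture j
    rw [h] at h1
    simp only at h1
    rw [h1]
    norm_num

/-- the hexagon of the pants `P` -/
theorem exists_hex (P : Fin G.V) : ∃ H : Hex, H.s = F.s P ∧
    (∀ i, H.C i = -(F.s P (i + 1) * F.s P (i + 2)).trace / 2) :=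
  ⟨{ C := fun i => -(F.s P (i + 1) * F.s P (i + 2)).trace / 2
     hC := F.fh_C_ge P
     s := F.s P
     tr := F.trace_s P
     det := F.det_s P
     gram := fun i => by ring
     orient := F.orient P
     outward := F.outward P }, rfl, fun _ => rfl⟩

/-- in `H = hexagon of P`: cosine of a side, and the outward normals -/
theorem hex_C_side (H : Hex) (e : Fin G.d) (b : Bool) (hs : H.s = F.s (G.side e b).1) :
    H.C (G.side e b).2 = Real.cosh (len x e / 2) := by
  have h1 := H.gram (G.side e b).2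
  have h2 := F.gram_side e b
  rw [hs] at h1
  linarith

theorem hex_C_le (P : Fin G.V) (H : Hex) (hs : H.s = F.s P) (hx : ∀ e, len x e ≤ 1) (i : Fin 3) :
    H.C i ≤ 5 / 4 := by
  rcases fh_cuff_cases (G := G) (P, i) with ⟨e, b, h⟩ | ⟨j, h⟩
  · have h0 : (G.side e b).1 = P := by rw [h]
    have h1 := F.hex_C_side H e b (by rw [h0]; exact hs)
    rw [h] at h1
    simp only at h1
    rw [h1]
    have h2 : Real.cosh (len x e / 2) ≤ Real.exp ((len x e / 2) ^ 2 / 2) :=
      Real.cosh_le_exp_half_sq _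
    have h3 : (len x e / 2) ^ 2 / 2 ≤ 1 / 8 := by
      have h4 := fh_len_pos (x := x) e
      have h5 := hx e
      nlinarith
    have h4 : Real.exp ((len x e / 2) ^ 2 / 2) ≤ Real.exp (1 / 8) := Real.exp_le_exp.2 h3
    have h5 : (1 : ℝ) - 1 / 8 ≤ Real.exp (-(1 / 8)) := by
      have := Real.add_one_le_exp (-(1 / 8 : ℝ))
      linarith
    have h6 : Real.exp (1 / 8) * Real.exp (-(1 / 8)) = 1 := by
      rw [← Real.exp_add, add_neg_cancel, Real.exp_zero]
    have h7 := Real.exp_pos (1 / 8 : ℝ)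
    nlinarith
  · have h1 := F.gram_puncture j
    rw [h] at h1
    simp only at h1
    have h2 := H.gram i
    rw [hs, h1] at h2
    linarith

theorem hex_a (H : Hex) (e : Fin G.d) (b : Bool) (hs : H.s = F.s (G.side e b).1) :
    H.a (G.side e b).2 = F.aa (e, b) := by
  have hC := F.hex_C_side H e b hs
  have hl := fh_len_pos (x := x) e
  have hsh : 0 < Real.sinh (len x e / 2) := Real.sinh_pos_iff.2 (by linarith)
  have hS : H.S (G.side e b).2 = Real.sinh (len x e / 2) := by
    unfold Hex.S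
    rw [hC]
    have : Real.cosh (len x e / 2) ^ 2 - 1 = Real.sinh (len x e / 2) ^ 2 := by
      rw [Real.cosh_sq]; ring
    rw [this, Real.sqrt_sq hsh.le]
  have hu : H.u (G.side e b).2 = (-Real.sinh (len x e / 2)) • F.aa (e, b) := by
    unfold Hex.u
    rw [hs, hC, F.N_cuff e b, Matrix.SpecialLinearGroup.coe_mul, Matrix.SpecialLinearGroup.coe_mul,
      fh_dil_split]
    unfold aa ad
    simp only [Matrix.mul_add, Matrix.add_mul, Matrix.mul_smul, Matrix.smul_mul, Matrix.mul_one,
      fh_coe_mul_inv]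
    rw [neg_smul]
    abel
  unfold Hex.a
  rw [hS, hu, smul_smul]
  have : -(Real.sinh (len x e / 2))⁻¹ * -Real.sinh (len x e / 2) = 1 := by
    field_simp
  rw [this, one_smul]

private theorem fh_edge_aa (e : Fin G.d) : ad (F.edgeM e) (F.aa (e, true)) = -F.aa (e, false) := by
  unfold edgeM aa
  simp only [fh_ad_mul]
  rw [fh_ad_inv, fh_ad_turn, fh_ad_neg, fh_ad_dil, fh_ad_neg]

theorem hol_oe_aa (e : Fin G.d × Bool) : ad (F.hol (oe e)) (F.aa (e.1, !e.2)) = -F.aa e := by
  obtain ⟨e, b⟩ := e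
  have h := F.fh_edge_aa e
  cases b
  · simpa [oe] using h
  · simp only [oe, if_true, Bool.not_true, map_inv, hol_edge]
    have h2 : F.aa (e, false) = -ad (F.edgeM e) (F.aa (e, true)) := by rw [h, neg_neg]
    rw [h2, fh_ad_neg, fh_ad_inv]

private theorem fh_hol_cuff (P : Fin G.V) (i : Fin 3) :
    (F.hol (G.cuff (P, i)) : M2) = F.s P (i + 1) * F.s P (i + 2) := by
  rw [hol_cuff]
  rfl

private theorem fh_hol_cuff_inv (P : Fin G.V) (i : Fin 3) :
    (((F.hol (G.cuff (P, i)))⁻¹ : SL2) : M2) = F.s P (i + 2) * F.s P (i + 1) := by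
  have h : (F.hol (G.cuff (P, i)) : M2) * (F.s P (i + 2) * F.s P (i + 1)) = 1 := by
    rw [fh_hol_cuff, Matrix.mul_assoc, ← Matrix.mul_assoc (F.s P (i + 2)), F.s_sq, Matrix.one_mul,
      F.s_sq]
  calc (((F.hol (G.cuff (P, i)))⁻¹ : SL2) : M2)
      = (((F.hol (G.cuff (P, i)))⁻¹ : SL2) : M2) *
        ((F.hol (G.cuff (P, i)) : M2) * (F.s P (i + 2) * F.s P (i + 1))) := by
        rw [h, Matrix.mul_one]
    _ = _ := by
        rw [← Matrix.mul_assoc, ← Matrix.SpecialLinearGroup.coe_mul, inv_mul_cancel,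
          Matrix.SpecialLinearGroup.coe_one, Matrix.one_mul]

private theorem fh_hol_cc (P : Fin G.V) (i j : Fin 3) :
    (F.hol (cc P i j) : M2) = F.s P i * F.s P j := by
  unfold cc
  by_cases h1 : j = i + 1
  · rw [if_pos h1, fh_hol_cuff]
    have e1 : i + 2 + 1 = i := by fin_cases i <;> rfl
    have e2 : i + 2 + 2 = j := by rw [h1]; fin_cases i <;> rfl
    rw [e1, e2]
  · rw [if_neg h1]
    by_cases h2 : i = j + 1
    · rw [if_pos h2, map_inv, fh_hol_cuff_inv]
      have e1 : j + 2 + 1 = j := by fin_cases j <;> rfl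
      have e2 : j + 2 + 2 = i := by rw [h2]; fin_cases j <;> rfl
      rw [e1, e2]
    · rw [if_neg h2, map_one, Matrix.SpecialLinearGroup.coe_one]
      have h3 : i = j := by
        fin_cases i <;> fin_cases j <;> simp_all
      rw [h3, F.s_sq]

theorem hol_cw (P : Fin G.V) (H : Hex) (hs : H.s = F.s P) (w : List (Fin 3)) (hw : Even w.length) :
    (F.hol (cw P w) : M2) = H.W w := by
  obtain ⟨m, hm⟩ := hw
  induction m generalizing w with
  | zero =>
    have h0 : w = [] := List.length_eq_zero_iff.1 (by simpa using hm)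
    subst h0
    simp [cw, Hex.W]
  | succ m ih =>
    match w, hm with
    | i :: j :: w, hm =>
      have h1 : w.length = m + m := by
        simp only [List.length_cons] at hm
        omega
      have h2 := ih w h1
      show (F.hol (cc P i j * cw P w) : M2) = H.W (i :: j :: w)
      rw [map_mul, Matrix.SpecialLinearGroup.coe_mul, h2, fh_hol_cc]
      unfold Hex.W
      rw [hs]
      simp [Matrix.mul_assoc]
    | [i], hm =>
      simp only [List.length_cons, List.length_nil] at hm
      omega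
    | [], hm =>
      simp only [List.length_nil] at hm
      omega

private theorem fh_trace_neg_zpow (A : SL2) (n : ℤ) :
    |(((-A) ^ n : SL2) : M2).trace| = |((A ^ n : SL2) : M2).trace| := by
  rcases Int.even_or_odd n with h | h
  · rw [h.neg_zpow]
  · rw [h.neg_zpow, Matrix.SpecialLinearGroup.coe_neg, Matrix.trace_neg, abs_neg]

theorem trace_cuff_side (e : Fin G.d) (b : Bool) (n : ℤ) :
    |(F.hol (G.cuff (G.side e b) ^ n) : M2).trace| = 2 * Real.cosh (n * len x e / 2) := by
  have h1 : F.hol (G.cuff (G.side e b)) = -(F.N e b * dil (len x e) * (F.N e b)⁻¹) := by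
    rw [hol_cuff]
    apply Subtype.ext
    rw [Matrix.SpecialLinearGroup.coe_neg]
    exact F.N_cuff e b
  rw [map_zpow, h1, fh_trace_neg_zpow, conj_zpow, fh_trace_conj, fh_dil_zpow, fh_dil_trace,
    abs_of_pos (by positivity)]

private theorem fh_unip_pow (B : SL2) (hB : (B : M2).trace = 2) (m : ℕ) :
    ((B ^ m : SL2) : M2) = 1 + (m : ℝ) • ((B : M2) - 1) := by
  have hdet : (B : M2).det = 1 := B.2
  have hsq : ((B : M2) - 1) * ((B : M2) - 1) = 0 := by
    rw [Matrix.trace_fin_two] at hB
    rw [Matrix.det_fin_two] at hdet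
    have h2 : (B : M2) 1 1 = 2 - (B : M2) 0 0 := by linarith
    rw [h2] at hdet
    ext i j
    fin_cases i <;> fin_cases j <;>
      simp [Matrix.mul_apply, Fin.sum_univ_two, h2] <;> nlinarith
  induction m with
  | zero => simp
  | succ m ih =>
    rw [pow_succ, Matrix.SpecialLinearGroup.coe_mul, ih]
    have h3 : (B : M2) = 1 + ((B : M2) - 1) := by abel
    have h4 : (1 + (m : ℝ) • ((B : M2) - 1)) * (B : M2) =
        1 + (m : ℝ) • ((B : M2) - 1) + ((B : M2) - 1) +
          (m : ℝ) • (((B : M2) - 1) * ((B : M2) - 1)) := by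
      nth_rw 2 [h3]
      rw [Matrix.mul_add, Matrix.mul_one, Matrix.add_mul, Matrix.one_mul, Matrix.smul_mul]
      abel
    rw [h4, hsq, smul_zero, add_zero]
    push_cast
    rw [add_smul, one_smul, add_assoc]

private theorem fh_trace_inv (B : SL2) : ((B⁻¹ : SL2) : M2).trace = (B : M2).trace := by
  rw [Matrix.SpecialLinearGroup.coe_inv, Matrix.adjugate_fin_two, Matrix.trace_fin_two_of,
    Matrix.trace_fin_two]
  ring

private theorem fh_unip_trace (B : SL2) (hB : (B : M2).trace = 2) (n : ℤ) :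
    ((B ^ n : SL2) : M2).trace = 2 := by
  have h : ∀ m : ℕ, ((B ^ m : SL2) : M2).trace = 2 := by
    intro m
    rw [fh_unip_pow B hB, Matrix.trace_add, Matrix.trace_smul, Matrix.trace_sub, hB,
      Matrix.trace_one]
    simp
  cases n with
  | ofNat m => simpa using h m
  | negSucc m => rw [zpow_negSucc, fh_trace_inv, h]

theorem trace_cuff_puncture (j : Fin G.n) (n : ℤ) :
    |(F.hol (G.cuff (G.puncture j) ^ n) : M2).trace| = 2 := by
  have h0 : (F.hol (G.cuff (G.puncture j)) : M2).trace = -2 := by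
    rw [hol_cuff]
    exact F.gram_puncture j
  have h1 : ((-F.hol (G.cuff (G.puncture j)) : SL2) : M2).trace = 2 := by
    rw [Matrix.SpecialLinearGroup.coe_neg, Matrix.trace_neg, h0]
    norm_num
  have h2 := fh_trace_neg_zpow (-F.hol (G.cuff (G.puncture j))) n
  rw [neg_neg, fh_unip_trace _ h1] at h2
  rw [map_zpow, h2]
  norm_num

end FN

end PantsGraph

end Pool.Agent.DC
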