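import Pool.Agent.DC.D.Primitive

/-!
# Project DC, D6: the pigeonhole argument (helper95)
-/

open scoped ENNReal UpperHalfPlane Matrix ContDiff
open MeasureTheory Set

set_option linter.unusedVariables false

namespace Pool.Agent.DC

namespace PantsGraph
variable {G : PantsGraph}

theorem len_pos (x : G.Teich) (e : Fin G.d) : 0 < len x e := Real.exp_pos _

/-- a closed path at the base around a curve -/
theorem conj_mem {P : Fin G.V} {w : G.PathGroup} (hw : G.IsPath G.base P w) (i : Fin 3) :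
    w * G.cuff (P, i) * w⁻¹ ∈ G.pi1 :=
  (hw.cuff i).mul hw.inv

theorem tl_cuff {x : G.Teich} (F : FN x) (e : Fin G.d) (w : G.PathGroup) (k : ℤ) :
    tl (F.hol (w * G.cuff (G.side e false) ^ k * w⁻¹)) = |(k : ℝ)| * len x e := by
  rw [map_mul, map_mul, map_inv, tl_conj]
  have h1 := F.trace_cuff_side e false k
  rw [tl_of_cosh h1, abs_mul, abs_of_pos (len_pos x e)]

theorem tr_cuff {x : G.Teich} (F : FN x) (e : Fin G.d) (w : G.PathGroup) (k : ℤ) :
    |(F.hol (w * G.cuff (G.side e false) ^ k * w⁻¹) : M2).trace| =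
      2 * Real.cosh (k * len x e / 2) := by
  rw [map_mul, map_mul, map_inv, trace_conj]
  exact F.trace_cuff_side e false k

theorem cosh_half_sq_lt {t : ℝ} (h0 : 0 ≤ t) (h1 : t ≤ 1) :
    (2 * Real.cosh (t / 2)) ^ 2 < 8 := by
  have h2 : Real.cosh (t / 2) ≤ Real.cosh (1 / 2) := by
    rw [Real.cosh_le_cosh, abs_of_nonneg (by linarith), abs_of_nonneg (by norm_num)]
    linarith
  have h3 : Real.cosh (1 / 2) ≤ Real.exp ((1 / 2) ^ 2 / 2) := Real.cosh_le_exp_half_sq _
  have h4 : Real.exp ((1 / 2) ^ 2 / 2) ≤ 1.2 := by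
    have h5 := Real.exp_bound' (x := (1 / 2) ^ 2 / 2) (by norm_num) (by norm_num) (n := 3)
      (by norm_num)
    refine h5.trans ?_
    simp only [Finset.sum_range_succ, Finset.sum_range_zero]
    norm_num [Nat.factorial]
  have h6 : 0 < Real.cosh (t / 2) := Real.cosh_pos _
  have h7 : Real.cosh (t / 2) ≤ 1.2 := h2.trans (h3.trans h4)
  nlinarith

/-- one step of the pigeonhole -/
theorem faces_step {x y : G.Teich} (Fx : FN x) (Fy : FN y) (hx : ∀ e, len x e ≤ 1)
    (i : Fin G.d) (L : ℝ)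
    (hxi : ∀ j, j < i → len x i ≤ len x j)
    (hyi : ∀ j, i < j → len y j ≤ len y i)
    (hxy : Real.exp (2 * L) * len y i = len x i)
    (φ : MulAut G.pi1) (K : ℝ) (hKL : K < Real.exp (2 * L))
    (h : ∀ γ : G.pi1,
      2 < |((Fy.hol ((φ γ : G.pi1) : G.PathGroup) : SL2) : M2).trace| →
        2 < |((Fx.hol (γ : G.PathGroup) : SL2) : M2).trace| ∧
        tl (Fx.hol (γ : G.PathGroup)) ≤ K * tl (Fy.hol ((φ γ : G.pi1) : G.PathGroup)))
    (j : Fin G.d) (hj : i ≤ j) :
    ∃ (m : Fin G.d) (v w : G.PathGroup) (l : ℤ) (u : G.pi1), i < m ∧ (l = 1 ∨ l = -1) ∧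
      G.IsPath G.base (G.side m false).1 v ∧
      (u : G.PathGroup) = v * G.cuff (G.side m false) ^ l * v⁻¹ ∧
      ((φ u : G.pi1) : G.PathGroup) = w * G.cuff (G.side j false) * w⁻¹ := by
  obtain ⟨w, hw⟩ := isPath_conn (G := G) (G.side j false).1
  have hmem : w * G.cuff (G.side j false) * w⁻¹ ∈ G.pi1 := conj_mem hw (G.side j false).2
  obtain ⟨u, hu⟩ : ∃ u : G.pi1, φ u = ⟨w * G.cuff (G.side j false) * w⁻¹, hmem⟩ :=
    φ.surjective _
  have hu' : ((φ u : G.pi1) : G.PathGroup) = w * G.cuff (G.side j false) * w⁻¹ := by rw [hu]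
  have hu1 : ((φ u : G.pi1) : G.PathGroup) = w * G.cuff (G.side j false) ^ (1 : ℤ) * w⁻¹ := by
    rw [hu', zpow_one]
  have hly := len_pos y j
  have htr : 2 < |((Fy.hol ((φ u : G.pi1) : G.PathGroup) : SL2) : M2).trace| := by
    rw [hu1, tr_cuff]
    have : 1 < Real.cosh (((1 : ℤ) : ℝ) * len y j / 2) := by
      rw [Real.one_lt_cosh]
      push_cast
      linarith
    linarith
  obtain ⟨h1, h2⟩ := h u htr
  have htl : tl (Fy.hol ((φ u : G.pi1) : G.PathGroup)) = len y j := by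
    rw [hu1, tl_cuff]; simp
  rw [htl] at h2
  have hpos : 0 < tl (Fx.hol (u : G.PathGroup)) := tl_pos h1
  have hK : 0 < K := by
    by_contra hneg
    have : K * len y j ≤ 0 := mul_nonpos_of_nonpos_of_nonneg (not_lt.mp hneg) hly.le
    linarith
  have hyj : len y j ≤ len y i := by
    rcases eq_or_lt_of_le hj with rfl | hlt
    · exact le_rfl
    · exact hyi j hlt
  have hlt : tl (Fx.hol (u : G.PathGroup)) < len x i := by
    calc tl (Fx.hol (u : G.PathGroup)) ≤ K * len y j := h2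
      _ ≤ K * len y i := mul_le_mul_of_nonneg_left hyj hK.le
      _ < Real.exp (2 * L) * len y i := mul_lt_mul_of_pos_right hKL (len_pos y i)
      _ = len x i := hxy
  have h8 : ((Fx.hol (u : G.PathGroup) : SL2) : M2).trace ^ 2 < 8 := by
    rw [← sq_abs, trace_eq_cosh h1.le]
    exact cosh_half_sq_lt hpos.le (hlt.le.trans (hx i))
  obtain ⟨m, v, k, hv, huv⟩ := Fx.short_curve hx G.base (u : G.PathGroup) u.2 h1 h8
  have htlu : tl (Fx.hol (u : G.PathGroup)) = |(k : ℝ)| * len x m := by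
    rw [huv, tl_cuff]
  have hmem2 : v * G.cuff (G.side m false) * v⁻¹ ∈ G.pi1 := conj_mem hv (G.side m false).2
  set c : G.pi1 := ⟨v * G.cuff (G.side m false) * v⁻¹, hmem2⟩ with hc
  have huc : u = c ^ k := by
    apply Subtype.ext
    rw [huv, SubgroupClass.coe_zpow, hc, conj_zpow]
  have hk : k = 1 ∨ k = -1 := by
    refine cuff_primitive j G.base w ((φ c : G.pi1) : G.PathGroup) hw (φ c).2 k ?_
    rw [← hu', huc, map_zpow, SubgroupClass.coe_zpow]
  have hkabs : |(k : ℝ)| = 1 := by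
    rcases hk with rfl | rfl <;> simp
  rw [htlu, hkabs, one_mul] at hlt
  have him : i < m := by
    by_contra hcon
    rcases eq_or_lt_of_le (not_lt.mp hcon) with heq | hlt2
    · rw [heq] at hlt
      exact lt_irrefl _ hlt
    · exact absurd (hxi m hlt2) (not_le.mpr hlt)
  exact ⟨m, v, w, k, u, him, hk, hv, huv, hu'⟩

/-- The pigeonhole with translation lengths. -/
theorem faces_tl {x y : G.Teich} (Fx : FN x) (Fy : FN y) (hx : ∀ e, len x e ≤ 1)
    (i : Fin G.d) (L : ℝ)
    (hxi : ∀ j, j < i → len x i ≤ len x j)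
    (hyi : ∀ j, i < j → len y j ≤ len y i)
    (hxy : Real.exp (2 * L) * len y i = len x i)
    (φ : MulAut G.pi1) (K : ℝ)
    (h : ∀ γ : G.pi1,
      2 < |((Fy.hol ((φ γ : G.pi1) : G.PathGroup) : SL2) : M2).trace| →
        2 < |((Fx.hol (γ : G.PathGroup) : SL2) : M2).trace| ∧
        tl (Fx.hol (γ : G.PathGroup)) ≤ K * tl (Fy.hol ((φ γ : G.pi1) : G.PathGroup))) :
    Real.exp (2 * L) ≤ K := by
  by_contra hcon
  have hKL := not_le.mp hcon
  have hstep := fun j : {j : Fin G.d // i ≤ j} =>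
    faces_step Fx Fy hx i L hxi hyi hxy φ K hKL h j.1 j.2
  choose m v w l u him hl hv hu hphi using hstep
  have hcard : Fintype.card {m : Fin G.d // i < m} < Fintype.card {j : Fin G.d // i ≤ j} := by
    apply Fintype.card_lt_of_injective_of_notMem
      (fun a : {m : Fin G.d // i < m} => (⟨a.1, a.2.le⟩ : {j : Fin G.d // i ≤ j}))
      (b := ⟨i, le_rfl⟩)
    · intro a b hab
      exact Subtype.ext (congrArg (fun z : {j : Fin G.d // i ≤ j} => z.1) hab)
    · rintro ⟨a, ha⟩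
      have h1 : a.1 = i := congrArg (fun z : {j : Fin G.d // i ≤ j} => z.1) ha
      exact absurd a.2 (by rw [h1]; exact lt_irrefl i)
  obtain ⟨j, j', hne, hjj⟩ := Fintype.exists_ne_map_eq_of_card_lt
    (fun j : {j : Fin G.d // i ≤ j} => (⟨m j, him j⟩ : {m : Fin G.d // i < m})) hcard
  have hm : m j = m j' := congrArg (fun z : {m : Fin G.d // i < m} => z.1) hjj
  have hz : v j * (v j')⁻¹ ∈ G.pi1 := by
    have h1 := hv j
    have h2 := hv j'
    rw [← hm] at h2
    exact h1.mul h2.inv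
  -- the exponent
  have hex : ∃ e : ℤ, (e = 1 ∨ e = -1) ∧ l j = l j' * e := by
    rcases hl j with h1 | h1 <;> rcases hl j' with h2 | h2
    · exact ⟨1, Or.inl rfl, by rw [h1, h2]; norm_num⟩
    · exact ⟨-1, Or.inr rfl, by rw [h1, h2]; norm_num⟩
    · exact ⟨-1, Or.inr rfl, by rw [h1, h2]; norm_num⟩
    · exact ⟨1, Or.inl rfl, by rw [h1, h2]; norm_num⟩
  obtain ⟨e, he, hle⟩ := hex
  have huj : u j = (⟨_, hz⟩ : G.pi1) * (u j') ^ e * (⟨_, hz⟩ : G.pi1)⁻¹ := by
    apply Subtype.ext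
    rw [Subgroup.coe_mul, Subgroup.coe_mul, Subgroup.coe_inv, SubgroupClass.coe_zpow, hu j, hu j',
      conj_zpow, ← zpow_mul, ← hle, ← hm]
    group
  have h3 := congrArg (fun g : G.pi1 => ((φ g : G.pi1) : G.PathGroup)) huj
  simp only [map_mul, map_inv, map_zpow, Subgroup.coe_mul, Subgroup.coe_inv,
    SubgroupClass.coe_zpow, hphi] at h3
  have hne' : (j : Fin G.d) ≠ (j' : Fin G.d) := fun hh => hne (Subtype.ext hh)
  set Z : G.PathGroup := ((φ (⟨v j * (v j')⁻¹, hz⟩ : G.pi1) : G.pi1) : G.PathGroup) with hZ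
  have he0 : e ≠ 0 := by rcases he with rfl | rfl <;> norm_num
  refine cuff_not_conj hne' ((w j)⁻¹ * Z * w j') 1 e he0 ?_
  rw [conj_zpow] at h3
  have h4 : G.cuff (G.side (j : Fin G.d) false) = (w j)⁻¹ *
      (w j * G.cuff (G.side (j : Fin G.d) false) * (w j)⁻¹) * w j := by group
  rw [zpow_one, h4, h3]
  group

/-- If the translation lengths at `x` are at most `K` times those at `y` (after an automorphism),
the curve `i` is `exp (2 L)` times longer at `x` than at `y`, and the curves are ordered by length,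
then `exp (2 L) ≤ K`. -/
theorem faces {x y : G.Teich} (Fx : FN x) (Fy : FN y) (hx : ∀ e, len x e ≤ 1)
    (i : Fin G.d) (L : ℝ)
    (hxi : ∀ j, j < i → len x i ≤ len x j)
    (hyi : ∀ j, i < j → len y j ≤ len y i)
    (hxy : Real.exp (2 * L) * len y i = len x i)
    (K : ℝ) (hc : LenDom Fx Fy K) : Real.exp (2 * L) ≤ K := by
  obtain ⟨φ, h⟩ := hc
  exact faces_tl Fx Fy hx i L hxi hyi hxy φ K h

end PantsGraph

end Pool.Agent.DC
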