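import Pool.Agent.DC.D.HexNormal

/-!
# Project DC, row D04: growth of coordinates along reduced words
-/

open scoped ENNReal UpperHalfPlane Matrix ContDiff
open MeasureTheory Set

namespace Pool.Agent.DC

namespace Hex
variable (H : Hex)

theorem act_trace (w : List (Fin 3)) {X : M2} (hX : X.trace = 0) : (H.act w X).trace = 0 := by
  induction w with
  | nil => exact hX
  | cons j w ih => exact H.refl_trace j ih

theorem ip_act (w : List (Fin 3)) (X Y : M2) : ip (H.act w X) (H.act w Y) = ip X Y := by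
  induction w with
  | nil => rfl
  | cons j w ih =>
    show ip (H.refl j (H.act w X)) (H.refl j (H.act w Y)) = ip X Y
    rw [H.ip_refl, ih]

theorem act_append (v w : List (Fin 3)) (X : M2) : H.act (v ++ w) X = H.act v (H.act w X) := by
  induction v with
  | nil => rfl
  | cons j v ih =>
    show H.refl j (H.act (v ++ w) X) = H.refl j (H.act v (H.act w X))
    rw [ih]

/-- the first letter of the word -/
private theorem d4_base {k : Fin 3} (hk : 1 < H.C k) :
    (∀ m, 0 ≤ H.xi m (H.refl k (H.a k))) ∧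
    (∀ m, H.xi m (H.refl k (H.a k)) ≤ H.xi k (H.refl k (H.a k))) ∧
    8 / H.S k ≤ H.xi k (H.refl k (H.a k)) := by
  have hS := H.S_pos hk
  have hS2 := H.S_sq k
  have h0 := H.hC k
  have h1 := H.hC (k + 1)
  have h2 := H.hC (k + 2)
  have n1 : k + 1 ≠ k := by clear * -; revert k; decide
  have n2 : k + 2 ≠ k := by clear * -; revert k; decide
  have e1 : H.xi (k + 1) (H.refl k (H.a k)) = (H.C (k + 2) + H.C k * H.C (k + 1)) / H.S k := by
    rw [H.xi_refl_ne k (k + 1) n1 (H.a_trace k), H.xi_a_1 hk]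
  have e2 : H.xi (k + 2) (H.refl k (H.a k)) = (H.C (k + 1) + H.C k * H.C (k + 2)) / H.S k := by
    rw [H.xi_refl_ne k (k + 2) n2 (H.a_trace k), H.xi_a_2 hk]
  have e0 : H.xi k (H.refl k (H.a k)) = (H.S k ^ 2 + 2 * H.C (k + 2) ^ 2 + 2 * H.C (k + 1) ^ 2 +
      4 * H.C k * H.C (k + 1) * H.C (k + 2)) / H.S k := by
    rw [H.xi_refl_self k (H.a_trace k), H.xi_a_self hk, H.xi_a_1 hk, H.xi_a_2 hk]
    field_simp
    ring
  have p01 : 1 ≤ H.C k * H.C (k + 1) := by nlinarith
  have p02 : 1 ≤ H.C k * H.C (k + 2) := by nlinarith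
  have p012 : H.C k * H.C (k + 1) ≤ H.C k * H.C (k + 1) * H.C (k + 2) := by nlinarith
  have p021 : H.C k * H.C (k + 2) ≤ H.C k * H.C (k + 1) * H.C (k + 2) := by nlinarith
  have hS20 : 0 ≤ H.S k ^ 2 := sq_nonneg _
  have q1 : H.C (k + 1) ≤ H.C (k + 1) ^ 2 := by nlinarith
  have q2 : H.C (k + 2) ≤ H.C (k + 2) ^ 2 := by nlinarith
  have hcov : ∀ m : Fin 3, m = k ∨ m = k + 1 ∨ m = k + 2 := by
    intro m
    clear * -
    revert m k
    decide
  have g0 : 8 / H.S k ≤ H.xi k (H.refl k (H.a k)) := by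
    rw [e0, div_le_div_iff_of_pos_right hS]
    nlinarith
  have g00 : 0 ≤ H.xi k (H.refl k (H.a k)) := le_trans (by positivity) g0
  refine ⟨?_, ?_, g0⟩
  · intro m
    rcases hcov m with rfl | rfl | rfl
    · exact g00
    · rw [e1]
      exact div_nonneg (by linarith) hS.le
    · rw [e2]
      exact div_nonneg (by linarith) hS.le
  · intro m
    rcases hcov m with rfl | rfl | rfl
    · exact le_rfl
    · rw [e1, e0, div_le_div_iff_of_pos_right hS]
      nlinarith
    · rw [e2, e0, div_le_div_iff_of_pos_right hS]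
      nlinarith

/-- one more letter -/
private theorem d4_step {j j' : Fin 3} (hj : j ≠ j') {Y : M2} (hY : Y.trace = 0)
    (h0 : ∀ m, 0 ≤ H.xi m Y) (h1 : ∀ m, H.xi m Y ≤ H.xi j' Y) :
    (∀ m, 0 ≤ H.xi m (H.refl j Y)) ∧ (∀ m, H.xi m (H.refl j Y) ≤ H.xi j (H.refl j Y)) ∧
    H.xi j' Y ≤ H.xi j (H.refl j Y) := by
  have hC1 := H.hC (j + 1)
  have hC2 := H.hC (j + 2)
  have hge : H.xi j' Y ≤ H.xi j (H.refl j Y) := by
    rw [H.xi_refl_self j hY]
    have hcov : j' = j + 1 ∨ j' = j + 2 := by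
      clear * - hj
      revert j j'
      decide
    have a0 := h1 j
    have a1 := h0 (j + 1)
    have a2 := h0 (j + 2)
    rcases hcov with rfl | rfl
    · nlinarith [mul_nonneg (sub_nonneg.2 hC2) a1, mul_nonneg (zero_le_one.trans hC1) a2]
    · nlinarith [mul_nonneg (sub_nonneg.2 hC1) a2, mul_nonneg (zero_le_one.trans hC2) a1]
  refine ⟨?_, ?_, hge⟩
  · intro m
    by_cases hm : m = j
    · subst hm
      exact (h0 j').trans hge
    · rw [H.xi_refl_ne j m hm hY]
      exact h0 m
  · intro m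
    by_cases hm : m = j
    · subst hm
      exact le_rfl
    · rw [H.xi_refl_ne j m hm hY]
      exact (h1 m).trans hge

/-- growth: reduced word ending with the letter `k` -/
theorem growth {k : Fin 3} (hk : 1 < H.C k) (j : Fin 3) (w : List (Fin 3))
    (hw : List.IsChain (· ≠ ·) ((j :: w))) (hlast : (j :: w).getLast? = some k) :
    (∀ m, 0 ≤ H.xi m (H.act (j :: w) (H.a k))) ∧
    (∀ m, H.xi m (H.act (j :: w) (H.a k)) ≤ H.xi j (H.act (j :: w) (H.a k))) ∧
    8 / H.S k ≤ H.xi j (H.act (j :: w) (H.a k)) := by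
  induction w generalizing j with
  | nil =>
    have hjk : j = k := by simpa using hlast
    subst hjk
    exact H.d4_base hk
  | cons j' w ih =>
    have hw' := List.isChain_cons_cons.1 hw
    have hl' : (j' :: w).getLast? = some k := by
      rw [List.getLast?_cons_cons] at hlast
      exact hlast
    obtain ⟨i0, i1, i2⟩ := ih j' hw'.2 hl'
    obtain ⟨s0, s1, s2⟩ := H.d4_step hw'.1 (H.act_trace (j' :: w) (H.a_trace k)) i0 i1
    exact ⟨s0, s1, i2.trans s2⟩

/-- strip letters -/
theorem ip_a_act_strip (i : Fin 3) (v w : List (Fin 3)) (hv : ∀ m ∈ v, m ≠ i) (X : M2) :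
    ip (H.a i) (H.act (v ++ w) X) = ip (H.a i) (H.act w X) := by
  induction v with
  | nil => rfl
  | cons m v ih =>
    have hm : m ≠ i := hv m List.mem_cons_self
    have h1 := ih (fun m hm => hv m (List.mem_cons_of_mem _ hm))
    show ip (H.a i) (H.refl m (H.act (v ++ w) X)) = ip (H.a i) (H.act w X)
    rw [← h1]
    have h2 := H.ip_refl m (H.a i) (H.act (v ++ w) X)
    rwa [H.refl_a hm] at h2

theorem act_a_strip (k : Fin 3) (v w : List (Fin 3)) (hw : ∀ m ∈ w, m ≠ k) :
    H.act (v ++ w) (H.a k) = H.act v (H.a k) := by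
  rw [H.act_append]
  congr 1
  induction w with
  | nil => rfl
  | cons m w ih =>
    show H.refl m (H.act w (H.a k)) = H.a k
    rw [ih (fun m hm => hw m (List.mem_cons_of_mem _ hm)), H.refl_a (hw m List.mem_cons_self)]

end Hex

end Pool.Agent.DC
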