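import Pool.Agent.DC.D.Causal

/-!
# Project DC, block D: identities in a hexagon (part 1)
-/

open scoped ENNReal UpperHalfPlane Matrix ContDiff
open MeasureTheory Set

namespace Pool.Agent.DC

namespace HexId

/-- coordinates of a matrix of trace zero -/
theorem exists_abc {X : M2} (h : X.trace = 0) :
    ∃ a b c : ℝ, X = !![a, b; c, -a] := by
  refine ⟨X 0 0, X 0 1, X 1 0, ?_⟩
  rw [Matrix.trace_fin_two] at h
  have h1 : X 1 1 = -X 0 0 := by linarith
  ext i j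
  fin_cases i <;> fin_cases j <;> simp [h1]

theorem ip_abc (a b c a' b' c' : ℝ) :
    ip !![a, b; c, -a] !![a', b'; c', -a'] = a * a' + (b * c' + c * b') / 2 := by
  simp only [ip, Matrix.mul_fin_two, Matrix.trace_fin_two, Matrix.of_apply, Matrix.cons_val',
    Matrix.cons_val_zero, Matrix.cons_val_one, Matrix.cons_val_fin_one]
  ring

theorem i1 (k : Fin 3) : k + 1 + 1 = k + 2 := by fin_cases k <;> rfl
theorem i2 (k : Fin 3) : k + 1 + 2 = k := by fin_cases k <;> rfl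
theorem i3 (k : Fin 3) : k + 2 + 1 = k := by fin_cases k <;> rfl
theorem i4 (k : Fin 3) : k + 2 + 2 = k + 1 := by fin_cases k <;> rfl

theorem cases3 (j k : Fin 3) (h : k ≠ j) : k = j + 1 ∨ k = j + 2 := by
  fin_cases j <;> fin_cases k <;> simp_all

/-- coordinates of the three normals, starting with `k` -/
theorem data (H : Hex) (k : Fin 3) : ∃ a1 b1 c1 a2 b2 c2 a3 b3 c3 : ℝ,
    H.s k = !![a1, b1; c1, -a1] ∧ H.s (k + 1) = !![a2, b2; c2, -a2] ∧
    H.s (k + 2) = !![a3, b3; c3, -a3] ∧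
    a1 ^ 2 + b1 * c1 = 1 ∧ a2 ^ 2 + b2 * c2 = 1 ∧ a3 ^ 2 + b3 * c3 = 1 ∧
    H.C k = -(a2 * a3 + (b2 * c3 + c2 * b3) / 2) ∧
    H.C (k + 1) = -(a3 * a1 + (b3 * c1 + c3 * b1) / 2) ∧
    H.C (k + 2) = -(a1 * a2 + (b1 * c2 + c1 * b2) / 2) := by
  obtain ⟨a1, b1, c1, e1⟩ := exists_abc (H.tr k)
  obtain ⟨a2, b2, c2, e2⟩ := exists_abc (H.tr (k + 1))
  obtain ⟨a3, b3, c3, e3⟩ := exists_abc (H.tr (k + 2))
  have d1 := H.det k
  have d2 := H.det (k + 1)
  have d3 := H.det (k + 2)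
  have g1 := H.gram k
  have g2 := H.gram (k + 1)
  have g3 := H.gram (k + 2)
  rw [i1, i2] at g2
  rw [i3, i4] at g3
  rw [e1] at d1
  rw [e2] at d2
  rw [e3] at d3
  rw [e2, e3] at g1
  rw [e3, e1] at g2
  rw [e1, e2] at g3
  rw [Matrix.det_fin_two_of] at d1 d2 d3
  simp only [Matrix.mul_fin_two, Matrix.trace_fin_two, Matrix.of_apply, Matrix.cons_val',
    Matrix.cons_val_zero, Matrix.cons_val_one, Matrix.cons_val_fin_one] at g1 g2 g3
  refine ⟨a1, b1, c1, a2, b2, c2, a3, b3, c3, e1, e2, e3, by linarith, by linarith, by linarith,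
    by linarith, by linarith, by linarith⟩

theorem u_eq (H : Hex) (k : Fin 3) {a1 b1 c1 a2 b2 c2 : ℝ}
    (e1 : H.s (k + 1) = !![a1, b1; c1, -a1]) (e2 : H.s (k + 2) = !![a2, b2; c2, -a2])
    (hC : H.C k = -(a1 * a2 + (b1 * c2 + c1 * b2) / 2)) :
    H.u k = !![(b1 * c2 - c1 * b2) / 2, a1 * b2 - b1 * a2;
      c1 * a2 - a1 * c2, -((b1 * c2 - c1 * b2) / 2)] := by
  rw [Hex.u, e1, e2, hC]
  ext i j
  fin_cases i <;> fin_cases j <;>
    simp <;> ring

end HexId

open HexId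

namespace Hex
variable (H : Hex)

theorem s_sq (i : Fin 3) : H.s i * H.s i = 1 := by
  obtain ⟨a1, b1, c1, a2, b2, c2, a3, b3, c3, e1, -, -, h1, -⟩ := data H i
  rw [e1]
  ext i j
  fin_cases i <;> fin_cases j <;> simp <;>
    first
    | linear_combination h1
    | ring

theorem ip_s_s (i : Fin 3) : ip (H.s i) (H.s i) = 1 := by
  rw [ip, s_sq]; simp

theorem ip_s_12 (i : Fin 3) : ip (H.s (i + 1)) (H.s (i + 2)) = -H.C i := by
  rw [ip, H.gram]; ring

theorem u_trace (k : Fin 3) : (H.u k).trace = 0 := by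
  rw [u, Matrix.trace_add, H.gram, Matrix.trace_smul, Matrix.trace_one]
  simp; ring

theorem ip_u_u (k : Fin 3) : ip (H.u k) (H.u k) = H.C k ^ 2 - 1 := by
  obtain ⟨a1, b1, c1, a2, b2, c2, a3, b3, c3, e1, e2, e3, h1, h2, h3, g1, g2, g3⟩ := data H k
  rw [u_eq H k e2 e3 g1, ip_abc, g1]
  linear_combination (-(a3 ^ 2 + b3 * c3)) * h2 - h3

theorem ip_u_u1 (k : Fin 3) :
    ip (H.u k) (H.u (k + 1)) = -(H.C (k + 2) + H.C k * H.C (k + 1)) := by
  obtain ⟨a1, b1, c1, a2, b2, c2, a3, b3, c3, e1, e2, e3, h1, h2, h3, g1, g2, g3⟩ := data H k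
  have e3' : H.s (k + 1 + 1) = !![a3, b3; c3, -a3] := by rw [i1, e3]
  have e1' : H.s (k + 1 + 2) = !![a1, b1; c1, -a1] := by rw [i2, e1]
  rw [u_eq H k e2 e3 g1, u_eq H (k + 1) e3' e1' g2, ip_abc, g1, g2, g3]
  linear_combination (a1 * a2 + (b1 * c2 + c1 * b2) / 2) * h3

theorem ip_u_s_all (k : Fin 3) : ip (H.u k) (H.s k) = (H.s 0 * H.s 1 * H.s 2).trace / 2 := by
  have h1 : (H.s 0 * H.s 1 * H.s 2).trace = (H.s (k + 1) * H.s (k + 2) * H.s k).trace := by
    fin_cases k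
    · show (H.s 0 * H.s 1 * H.s 2).trace = (H.s 1 * H.s 2 * H.s 0).trace
      rw [Matrix.mul_assoc, Matrix.trace_mul_comm]
    · show (H.s 0 * H.s 1 * H.s 2).trace = (H.s 2 * H.s 0 * H.s 1).trace
      rw [Matrix.trace_mul_comm, Matrix.mul_assoc]
    · rfl
  rw [h1, ip, u, Matrix.add_mul, Matrix.trace_add, Matrix.smul_mul, Matrix.one_mul,
    Matrix.trace_smul, H.tr]
  simp

theorem ip_u_s_self (k : Fin 3) : 0 < ip (H.u k) (H.s k) := by
  rw [ip_u_s_all]
  have := H.orient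
  positivity

theorem ip_u_s1 (k : Fin 3) : ip (H.u k) (H.s (k + 1)) = 0 := by
  obtain ⟨a1, b1, c1, a2, b2, c2, a3, b3, c3, e1, e2, e3, h1, h2, h3, g1, g2, g3⟩ := data H k
  rw [u_eq H k e2 e3 g1, e2, ip_abc]
  ring

theorem ip_u_s2 (k : Fin 3) : ip (H.u k) (H.s (k + 2)) = 0 := by
  obtain ⟨a1, b1, c1, a2, b2, c2, a3, b3, c3, e1, e2, e3, h1, h2, h3, g1, g2, g3⟩ := data H k
  rw [u_eq H k e2 e3 g1, e3, ip_abc]
  ring

/-- cross product identity -/
theorem s_expand (j : Fin 3) : ip (H.u j) (H.s j) • H.s j =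
    H.u j - H.C (j + 2) • H.u (j + 1) - H.C (j + 1) • H.u (j + 2) := by
  obtain ⟨a1, b1, c1, a2, b2, c2, a3, b3, c3, e1, e2, e3, h1, h2, h3, g1, g2, g3⟩ := data H j
  have e3' : H.s (j + 1 + 1) = !![a3, b3; c3, -a3] := by rw [i1, e3]
  have e1' : H.s (j + 1 + 2) = !![a1, b1; c1, -a1] := by rw [i2, e1]
  have e1'' : H.s (j + 2 + 1) = !![a1, b1; c1, -a1] := by rw [i3, e1]
  have e2'' : H.s (j + 2 + 2) = !![a2, b2; c2, -a2] := by rw [i4, e2]
  rw [u_eq H j e2 e3 g1, u_eq H (j + 1) e3' e1' g2, u_eq H (j + 2) e1'' e2'' g3, e1, ip_abc,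
    g2, g3]
  ext i k
  fin_cases i <;> fin_cases k <;> simp
  · linear_combination ((b2 * c3 - c2 * b3) / 2) * h1
  · linear_combination (a2 * b3 - b2 * a3) * h1
  · linear_combination (c2 * a3 - a2 * c3) * h1
  · linear_combination (-((b2 * c3 - c2 * b3) / 2)) * h1

theorem refl_eq (j : Fin 3) {X : M2} (hX : X.trace = 0) :
    H.refl j X = X - (2 * ip X (H.s j)) • H.s j := by
  obtain ⟨a1, b1, c1, a2, b2, c2, a3, b3, c3, e1, e2, e3, h1, h2, h3, g1, g2, g3⟩ := data H j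
  obtain ⟨a, b, c, rfl⟩ := exists_abc hX
  rw [refl, e1, ip_abc]
  ext i k
  fin_cases i <;> fin_cases k <;> simp
  · linear_combination a * h1
  · linear_combination b * h1
  · linear_combination c * h1
  · linear_combination (-a) * h1

theorem refl_trace (j : Fin 3) {X : M2} (hX : X.trace = 0) : (H.refl j X).trace = 0 := by
  rw [refl, Matrix.trace_neg, Matrix.trace_mul_comm, ← Matrix.mul_assoc, s_sq, Matrix.one_mul, hX,
    neg_zero]

theorem ip_refl (j : Fin 3) (X Y : M2) : ip (H.refl j X) (H.refl j Y) = ip X Y := by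
  have h : H.refl j X * H.refl j Y = H.s j * (X * Y * H.s j) := by
    calc H.refl j X * H.refl j Y = H.s j * X * (H.s j * H.s j) * Y * H.s j := by
          rw [refl, refl]; noncomm_ring
      _ = H.s j * (X * Y * H.s j) := by rw [s_sq]; noncomm_ring
  rw [ip, ip, h, Matrix.trace_mul_comm, Matrix.mul_assoc, Matrix.mul_assoc, s_sq, Matrix.mul_one]

theorem refl_refl (j : Fin 3) (X : M2) : H.refl j (H.refl j X) = X := by
  calc H.refl j (H.refl j X) = (H.s j * H.s j) * X * (H.s j * H.s j) := by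
        rw [refl, refl]; noncomm_ring
    _ = X := by rw [s_sq, Matrix.one_mul, Matrix.mul_one]

theorem refl_s_self (j : Fin 3) : H.refl j (H.s j) = -H.s j := by
  rw [refl, s_sq, Matrix.one_mul]

theorem xi_refl_gen (j k : Fin 3) {X : M2} (hX : X.trace = 0) :
    H.xi k (H.refl j X) = H.xi k X - 2 * ip X (H.s j) * ip (H.u k) (H.s j) := by
  rw [xi, xi, refl_eq H j hX, ip, ip, ip, Matrix.sub_mul, Matrix.trace_sub, Matrix.smul_mul,
    Matrix.trace_smul, ip, Matrix.trace_mul_comm (H.s j) (H.u k), smul_eq_mul]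
  ring

theorem xi_refl_self (j : Fin 3) {X : M2} (hX : X.trace = 0) : H.xi j (H.refl j X) =
    -H.xi j X + 2 * H.C (j + 2) * H.xi (j + 1) X + 2 * H.C (j + 1) * H.xi (j + 2) X := by
  have h := congrArg (fun Z => ip X Z) (s_expand H j)
  simp only [ip, Matrix.mul_smul, Matrix.mul_sub, Matrix.trace_smul, Matrix.trace_sub,
    smul_eq_mul] at h
  rw [xi_refl_gen H j j hX]
  simp only [xi, ip]
  linear_combination (-2) * h

theorem xi_refl_ne (j k : Fin 3) (hjk : k ≠ j) {X : M2} (hX : X.trace = 0) :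
    H.xi k (H.refl j X) = H.xi k X := by
  have h0 : ip (H.u k) (H.s j) = 0 := by
    rcases cases3 j k hjk with h | h
    · have := ip_u_s2 H k
      rw [h, i2] at this
      rw [h]; exact this
    · have := ip_u_s1 H k
      rw [h, i3] at this
      rw [h]; exact this
  rw [xi_refl_gen H j k hX, h0]
  ring

end Hex

end Pool.Agent.DC
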