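import Pool.Agent.DC.D.HexId

/-!
# Project DC, block D: identities in a hexagon (part 2): the normals of the cuffs, the future cone
-/

open scoped ENNReal UpperHalfPlane Matrix ContDiff
open MeasureTheory Set

namespace Pool.Agent.DC

open HexId

namespace Hex
variable (H : Hex)

theorem S_pos {k : Fin 3} (hk : 1 < H.C k) : 0 < H.S k := by
  unfold S
  exact Real.sqrt_pos.2 (by nlinarith)

theorem S_sq (k : Fin 3) : H.S k ^ 2 = H.C k ^ 2 - 1 := by
  unfold S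
  exact Real.sq_sqrt (by nlinarith [H.hC k])

theorem a_trace (k : Fin 3) : (H.a k).trace = 0 := by
  rw [a, Matrix.trace_smul, u_trace, smul_zero]

theorem ip_a_eq (i : Fin 3) (X : M2) : ip (H.a i) X = -(H.xi i X / H.S i) := by
  rw [a, ip_smul_left, xi, ip_comm X (H.u i)]
  rw [div_eq_mul_inv]
  ring

theorem ip_a_a {k : Fin 3} (hk : 1 < H.C k) : ip (H.a k) (H.a k) = 1 := by
  have h1 := H.S_pos hk
  have h2 := H.S_sq k
  rw [a, ip_smul_left, ip_comm, ip_smul_left, ip_u_u, ← h2]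
  field_simp

theorem hn_refl_smul (j : Fin 3) (c : ℝ) (X : M2) : H.refl j (c • X) = c • H.refl j X := by
  rw [refl, refl, Matrix.mul_smul, Matrix.smul_mul, smul_neg]

theorem hn_ip_u_s {k m : Fin 3} (hm : m ≠ k) : ip (H.u k) (H.s m) = 0 := by
  rcases cases3 k m hm with h | h
  · rw [h]; exact ip_u_s1 H k
  · rw [h]; exact ip_u_s2 H k

theorem refl_a {k m : Fin 3} (hm : m ≠ k) : H.refl m (H.a k) = H.a k := by
  rw [a, hn_refl_smul, refl_eq H m (u_trace H k), hn_ip_u_s H hm, mul_zero, zero_smul, sub_zero]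

theorem xi_a_self {k : Fin 3} (hk : 1 < H.C k) : H.xi k (H.a k) = -H.S k := by
  have h1 := H.S_pos hk
  have h2 := H.S_sq k
  rw [xi, a, ip_smul_left, ip_u_u, ← h2]
  field_simp

theorem xi_a_1 {k : Fin 3} (hk : 1 < H.C k) :
    H.xi (k + 1) (H.a k) = (H.C (k + 2) + H.C k * H.C (k + 1)) / H.S k := by
  rw [xi, a, ip_smul_left, ip_u_u1, div_eq_mul_inv]
  ring

theorem hn_ip_u_u2 (k : Fin 3) :
    ip (H.u k) (H.u (k + 2)) = -(H.C (k + 1) + H.C k * H.C (k + 2)) := by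
  have h := ip_u_u1 H (k + 2)
  rw [i3, i4] at h
  rw [ip_comm, h]
  ring

theorem xi_a_2 {k : Fin 3} (hk : 1 < H.C k) :
    H.xi (k + 2) (H.a k) = (H.C (k + 1) + H.C k * H.C (k + 2)) / H.S k := by
  rw [xi, a, ip_smul_left, hn_ip_u_u2, div_eq_mul_inv]
  ring

theorem refl_fut (j : Fin 3) {X : M2} (hX : Fut X) : Fut (H.refl j X) := by
  obtain ⟨a1, b1, c1, a2, b2, c2, a3, b3, c3, e1, e2, e3, h1, h2, h3, g1, g2, g3⟩ := data H j
  obtain ⟨t, hc, hb, hd⟩ := hX
  have ht := H.refl_trace j t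
  obtain ⟨a, b, c, rfl⟩ := exists_abc t
  simp only [Matrix.of_apply, Matrix.cons_val', Matrix.cons_val_zero, Matrix.cons_val_one,
    Matrix.cons_val_fin_one] at hc hb hd
  have k1 := Causal.psd_aux hc hb hd a1 (-c1)
  have k2 := Causal.psd_aux hc hb hd b1 a1
  have f00 : H.refl j !![a, b; c, -a] 0 0 =
      -((a1 * a + b1 * c) * a1 + (a1 * b - b1 * a) * c1) := by
    rw [refl, e1]
    simp only [Matrix.mul_fin_two, Matrix.neg_apply, Matrix.of_apply, Matrix.cons_val',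
      Matrix.cons_val_zero, Matrix.cons_val_one, Matrix.cons_val_fin_one]
    ring
  have f01 : H.refl j !![a, b; c, -a] 0 1 =
      -((a1 * a + b1 * c) * b1 - (a1 * b - b1 * a) * a1) := by
    rw [refl, e1]
    simp only [Matrix.mul_fin_two, Matrix.neg_apply, Matrix.of_apply, Matrix.cons_val',
      Matrix.cons_val_zero, Matrix.cons_val_one, Matrix.cons_val_fin_one]
    ring
  have f10 : H.refl j !![a, b; c, -a] 1 0 =
      -((c1 * a - a1 * c) * a1 + (c1 * b + a1 * a) * c1) := by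
    rw [refl, e1]
    simp only [Matrix.mul_fin_two, Matrix.neg_apply, Matrix.of_apply, Matrix.cons_val',
      Matrix.cons_val_zero, Matrix.cons_val_one, Matrix.cons_val_fin_one]
    ring
  refine ⟨ht, ?_, ?_, ?_⟩
  · rw [f10]
    nlinarith [k1]
  · rw [f01]
    nlinarith [k2]
  · rw [f00, f01, f10]
    have key : -(-((a1 * a + b1 * c) * b1 - (a1 * b - b1 * a) * a1) *
        -((c1 * a - a1 * c) * a1 + (c1 * b + a1 * a) * c1)) -
        (-((a1 * a + b1 * c) * a1 + (a1 * b - b1 * a) * c1)) ^ 2 =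
        (-(b * c) - a ^ 2) * (a1 ^ 2 + b1 * c1) ^ 2 := by ring
    rw [h1] at key
    nlinarith [key, hd]

theorem hn_ip_add_right (X Y Z : M2) : ip X (Y + Z) = ip X Y + ip X Z := by
  rw [ip_comm, ip_add_left, ip_comm Y, ip_comm Z]

/-- the sum of the normals -/
theorem hn_sum (k : Fin 3) : H.s 0 + H.s 1 + H.s 2 = H.s k + H.s (k + 1) + H.s (k + 2) := by
  fin_cases k
  · rfl
  · show H.s 0 + H.s 1 + H.s 2 = H.s 1 + H.s 2 + H.s 0
    abel
  · show H.s 0 + H.s 1 + H.s 2 = H.s 2 + H.s 0 + H.s 1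
    abel

theorem hn_ip_s (k : Fin 3) : ip (H.s k) (H.s (k + 1)) = -H.C (k + 2) := by
  have := ip_s_12 H (k + 2)
  rwa [i3, i4] at this

theorem hn_ip_s2 (k : Fin 3) : ip (H.s (k + 2)) (H.s k) = -H.C (k + 1) := by
  have := ip_s_12 H (k + 1)
  rwa [i1, i2] at this

theorem hn_ip_sum_sum : ip (H.s 0 + H.s 1 + H.s 2) (H.s 0 + H.s 1 + H.s 2) ≤ 0 := by
  have h01 := hn_ip_s H 0
  have h12 := ip_s_12 H 0
  have h20 := hn_ip_s2 H 0
  have e1 : (0 : Fin 3) + 1 = 1 := rfl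
  have e2 : (0 : Fin 3) + 2 = 2 := rfl
  rw [e1, e2] at h01 h12
  rw [e1, e2] at h20
  have c0 := H.hC 0
  have c1 := H.hC 1
  have c2 := H.hC 2
  simp only [ip_add_left, hn_ip_add_right, ip_s_s]
  rw [ip_comm (H.s 1) (H.s 0), ip_comm (H.s 2) (H.s 1), ip_comm (H.s 0) (H.s 2), h01, h12, h20]
  linarith

theorem hn_fut_sum : Fut (H.s 0 + H.s 1 + H.s 2) := by
  refine fut_of_outward ?_ (hn_ip_sum_sum H) H.outward
  rw [Matrix.trace_add, Matrix.trace_add, H.tr, H.tr, H.tr]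
  norm_num

theorem hn_fut_pair (k : Fin 3) : Fut (H.s k + H.s (k + 1)) := by
  have h1 := hn_ip_s H k
  have h2 := ip_s_12 H k
  have h3 := hn_ip_s2 H k
  have c0 := H.hC k
  have c1 := H.hC (k + 1)
  have c2 := H.hC (k + 2)
  refine fut_of_ip_neg (Y := H.s 0 + H.s 1 + H.s 2) ?_ ?_ (hn_fut_sum H) ?_
  · rw [Matrix.trace_add, H.tr, H.tr, add_zero]
  · simp only [ip_add_left, hn_ip_add_right, ip_s_s]
    rw [ip_comm (H.s (k + 1)) (H.s k), h1]
    linarith
  · rw [hn_sum H k]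
    simp only [ip_add_left, hn_ip_add_right, ip_s_s]
    rw [ip_comm (H.s (k + 1)) (H.s k), ip_comm (H.s k) (H.s (k + 2)), h1, h2, h3]
    linarith

theorem fut_s_add {i j : Fin 3} (hij : i ≠ j) : Fut (H.s i + H.s j) := by
  rcases cases3 i j hij.symm with h | h
  · rw [h]; exact hn_fut_pair H i
  · have := hn_fut_pair H j
    have e : j + 1 = i := by rw [h, i3]
    rw [e] at this
    rw [add_comm]
    exact this

/-- the centre of the hexagon -/
theorem fut_center (hC : ∀ m, H.C m ≤ 2) : Fut (-(H.u 0 + H.u 1 + H.u 2)) := by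
  have c0 := H.hC 0
  have c1 := H.hC 1
  have c2 := H.hC 2
  have d0 := hC 0
  have d1 := hC 1
  have d2 := hC 2
  have e1 : (0 : Fin 3) + 1 = 1 := rfl
  have e2 : (0 : Fin 3) + 2 = 2 := rfl
  have e3 : (1 : Fin 3) + 1 = 2 := rfl
  have e4 : (1 : Fin 3) + 2 = 0 := rfl
  have u01 := ip_u_u1 H 0
  have u12 := ip_u_u1 H 1
  have u02 := hn_ip_u_u2 H 0
  rw [e1, e2] at u01 u02
  rw [e3, e4] at u12
  have htr : (H.u 0 + H.u 1 + H.u 2).trace = 0 := by
    rw [Matrix.trace_add, Matrix.trace_add, u_trace, u_trace, u_trace]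
    norm_num
  have hUU : ip (H.u 0 + H.u 1 + H.u 2) (H.u 0 + H.u 1 + H.u 2) ≤ 0 := by
    simp only [ip_add_left, hn_ip_add_right, ip_u_u]
    rw [ip_comm (H.u 1) (H.u 0), ip_comm (H.u 2) (H.u 0), ip_comm (H.u 2) (H.u 1), u01, u02, u12]
    nlinarith [mul_nonneg (sub_nonneg.2 c0) (sub_nonneg.2 d0),
      mul_nonneg (sub_nonneg.2 c1) (sub_nonneg.2 d1),
      mul_nonneg (sub_nonneg.2 c2) (sub_nonneg.2 d2),
      mul_nonneg (by linarith : (0 : ℝ) ≤ H.C 0) (by linarith : (0 : ℝ) ≤ H.C 1),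
      mul_nonneg (by linarith : (0 : ℝ) ≤ H.C 1) (by linarith : (0 : ℝ) ≤ H.C 2),
      mul_nonneg (by linarith : (0 : ℝ) ≤ H.C 0) (by linarith : (0 : ℝ) ≤ H.C 2)]
  refine fut_of_ip_neg (Y := H.s 0 + H.s 1 + H.s 2) ?_ ?_ (hn_fut_sum H) ?_
  · rw [Matrix.trace_neg, htr, neg_zero]
  · rw [ip_neg_left, ip_comm, ip_neg_left, neg_neg]
    exact hUU
  · have p0 := ip_u_s_self H 0
    have p1 := ip_u_s_self H 1
    have p2 := ip_u_s_self H 2
    have q : ∀ k m : Fin 3, m ≠ k → ip (H.u k) (H.s m) = 0 := fun k m hm => hn_ip_u_s H hm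
    rw [ip_neg_left]
    simp only [ip_add_left, hn_ip_add_right]
    rw [q 0 1 (by decide), q 0 2 (by decide), q 1 0 (by decide), q 1 2 (by decide),
      q 2 0 (by decide), q 2 1 (by decide)]
    linarith

end Hex

end Pool.Agent.DC
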