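import Pool.Agent.DC.D.Causal

/-!
# Project DC: translation lengths, conjugation and powers (helper4)
-/

open scoped ENNReal UpperHalfPlane Matrix ContDiff
open MeasureTheory Set

namespace Pool.Agent.DC

theorem trace_conj (g h : SL2) : ((g * h * g⁻¹ : SL2) : M2).trace = (h : M2).trace := by
  rw [Matrix.SpecialLinearGroup.coe_mul, Matrix.trace_mul_comm, ← Matrix.SpecialLinearGroup.coe_mul]
  congr 2
  group

theorem tl_conj (g h : SL2) : tl (g * h * g⁻¹) = tl h := by
  unfold tl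
  rw [trace_conj]

theorem tl_nonneg {g : SL2} (h : 2 ≤ |(g : M2).trace|) : 0 ≤ tl g := by
  unfold tl
  have := Real.arcosh_nonneg (x := |(g : M2).trace| / 2) (by linarith)
  linarith

theorem tl_pos {g : SL2} (h : 2 < |(g : M2).trace|) : 0 < tl g := by
  unfold tl
  have := Real.arcosh_pos (x := |(g : M2).trace| / 2) (by linarith)
  linarith

theorem trace_eq_cosh {g : SL2} (h : 2 ≤ |(g : M2).trace|) :
    |(g : M2).trace| = 2 * Real.cosh (tl g / 2) := by
  unfold tl
  rw [mul_div_cancel_left₀ _ (by norm_num : (2 : ℝ) ≠ 0), Real.cosh_arcosh (by linarith)]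
  ring

theorem tl_of_cosh {g : SL2} {l : ℝ} (h : |(g : M2).trace| = 2 * Real.cosh (l / 2)) :
    tl g = |l| := by
  unfold tl
  rw [h, mul_div_cancel_left₀ _ (by norm_num : (2 : ℝ) ≠ 0), ← Real.cosh_abs,
    Real.arcosh_cosh (abs_nonneg _), abs_div, abs_of_pos (by norm_num : (0 : ℝ) < 2)]
  ring

theorem trace_inv (g : SL2) : ((g⁻¹ : SL2) : M2).trace = (g : M2).trace := by
  rw [Matrix.SpecialLinearGroup.coe_inv, Matrix.adjugate_fin_two, Matrix.trace_fin_two,
    Matrix.trace_fin_two]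
  simp [add_comm]

theorem sq_coe (g : SL2) : ((g * g : SL2) : M2) = (g : M2).trace • (g : M2) - 1 := by
  have hd := g.det_coe
  rw [Matrix.det_fin_two] at hd
  rw [Matrix.SpecialLinearGroup.coe_mul, Matrix.trace_fin_two]
  ext i j
  fin_cases i <;> fin_cases j <;>
    simp [Matrix.mul_apply, Fin.sum_univ_two] <;> linarith

theorem trace_rec (g : SL2) (n : ℕ) : ((g ^ (n + 2) : SL2) : M2).trace =
    (g : M2).trace * ((g ^ (n + 1) : SL2) : M2).trace - ((g ^ n : SL2) : M2).trace := by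
  have h1 : (g ^ (n + 2) : SL2) = g ^ n * (g * g) := by rw [pow_add, pow_two]
  have h2 : ((g ^ (n + 1) : SL2) : M2) = ((g ^ n : SL2) : M2) * (g : M2) := by
    rw [pow_succ, Matrix.SpecialLinearGroup.coe_mul]
  rw [h1, Matrix.SpecialLinearGroup.coe_mul, sq_coe, mul_sub, mul_one, Matrix.trace_sub,
    Matrix.mul_smul, Matrix.trace_smul, ← h2, smul_eq_mul]

theorem trace_pow_cosh (g : SL2) (ε τ : ℝ) (h : (g : M2).trace = ε * (2 * Real.cosh τ))
    (hε : ε * ε = 1) (n : ℕ) :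
    ((g ^ n : SL2) : M2).trace = ε ^ n * (2 * Real.cosh (n * τ)) ∧
    ((g ^ (n + 1) : SL2) : M2).trace = ε ^ (n + 1) * (2 * Real.cosh ((n + 1 : ℕ) * τ)) := by
  induction n with
  | zero =>
    constructor
    · simp
    · simp [h]
  | succ n ih =>
    refine ⟨ih.2, ?_⟩
    rw [show n + 1 + 1 = n + 2 from rfl, trace_rec, ih.1, ih.2, h]
    have e1 : (((n + 2 : ℕ) : ℝ)) * τ = ((n + 1 : ℕ) : ℝ) * τ + τ := by push_cast; ring
    have e2 : ((n : ℕ) : ℝ) * τ = ((n + 1 : ℕ) : ℝ) * τ - τ := by push_cast; ring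
    rw [e1, e2, Real.cosh_add, Real.cosh_sub]
    have e3 : ε ^ (n + 2) = ε ^ n := by rw [pow_add, pow_two, hε, mul_one]
    rw [e3, pow_succ]
    have e4 : ε * (2 * Real.cosh τ) * (ε ^ n * ε * (2 * Real.cosh (((n + 1 : ℕ) : ℝ) * τ))) =
      (ε * ε) * ε ^ n * (4 * (Real.cosh τ * Real.cosh (((n + 1 : ℕ) : ℝ) * τ))) := by ring
    rw [e4, hε]
    ring

theorem trace_pow_cos (g : SL2) (τ : ℝ) (h : (g : M2).trace = 2 * Real.cos τ) (n : ℕ) :
    ((g ^ n : SL2) : M2).trace = 2 * Real.cos (n * τ) ∧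
    ((g ^ (n + 1) : SL2) : M2).trace = 2 * Real.cos ((n + 1 : ℕ) * τ) := by
  induction n with
  | zero =>
    constructor
    · simp
    · simp [h]
  | succ n ih =>
    refine ⟨ih.2, ?_⟩
    rw [show n + 1 + 1 = n + 2 from rfl, trace_rec, ih.1, ih.2, h]
    have e1 : (((n + 2 : ℕ) : ℝ)) * τ = ((n + 1 : ℕ) : ℝ) * τ + τ := by push_cast; ring
    have e2 : ((n : ℕ) : ℝ) * τ = ((n + 1 : ℕ) : ℝ) * τ - τ := by push_cast; ring
    rw [e1, e2, Real.cos_add, Real.cos_sub]
    ring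

theorem zpow_cases (g : SL2) (k : ℤ) : ((g ^ k : SL2) : M2).trace =
    ((g ^ k.natAbs : SL2) : M2).trace := by
  rcases Int.natAbs_eq k with h | h
  · conv_lhs => rw [h]
    rw [zpow_natCast]
  · conv_lhs => rw [h]
    rw [zpow_neg, zpow_natCast, trace_inv]

theorem tl_zpow {g : SL2} (h : 2 ≤ |(g : M2).trace|) (k : ℤ) :
    2 ≤ |((g ^ k : SL2) : M2).trace| ∧ tl (g ^ k) = |(k : ℝ)| * tl g := by
  have h0 := trace_eq_cosh h
  have h1 : |((g ^ k : SL2) : M2).trace| = 2 * Real.cosh ((|(k : ℝ)| * tl g) / 2) := by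
    rw [zpow_cases]
    have hk : (|(k : ℝ)|) = (k.natAbs : ℝ) := by
      rw [Nat.cast_natAbs, Int.cast_abs]
    rw [hk]
    rcases le_or_gt 0 (g : M2).trace with h2 | h2
    · rw [abs_of_nonneg h2] at h0
      have h3 := (trace_pow_cosh g 1 (tl g / 2) (by rw [one_mul]; exact h0) (one_mul 1) k.natAbs).1
      rw [h3, one_pow, one_mul, abs_of_nonneg (by have := Real.cosh_pos (k.natAbs * (tl g / 2)); linarith)]
      congr 2
      ring
    · rw [abs_of_neg h2] at h0
      have h3 := (trace_pow_cosh g (-1) (tl g / 2) (by linarith) (by norm_num) k.natAbs).1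
      rw [h3, abs_mul, abs_pow, abs_neg, abs_one, one_pow, one_mul,
        abs_of_nonneg (by have := Real.cosh_pos (k.natAbs * (tl g / 2)); linarith)]
      congr 2
      ring
  constructor
  · rw [h1]
    have := Real.one_le_cosh ((|(k : ℝ)| * tl g) / 2)
    linarith
  · rw [tl_of_cosh h1, abs_of_nonneg (mul_nonneg (abs_nonneg _) (tl_nonneg h))]

theorem trace_zpow_le {g : SL2} (h : |(g : M2).trace| ≤ 2) (k : ℤ) :
    |((g ^ k : SL2) : M2).trace| ≤ 2 := by
  rw [abs_le] at h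
  have h0 : (g : M2).trace = 2 * Real.cos (Real.arccos ((g : M2).trace / 2)) := by
    rw [Real.cos_arccos (by linarith) (by linarith)]
    ring
  rw [zpow_cases, (trace_pow_cos g _ h0 k.natAbs).1, abs_mul, abs_of_pos (by norm_num : (0 : ℝ) < 2)]
  have := Real.abs_cos_le_one (k.natAbs * Real.arccos ((g : M2).trace / 2))
  linarith

theorem hyp_of_zpow {g : SL2} {k : ℤ} (h : 2 < |((g ^ k : SL2) : M2).trace|) :
    2 < |(g : M2).trace| ∧ k ≠ 0 := by
  constructor
  · by_contra h1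
    push Not at h1
    have := trace_zpow_le h1 k
    linarith
  · rintro rfl
    rw [zpow_zero] at h
    simp at h

end Pool.Agent.DC
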