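import Pool.Agent.DC.D.FNExists
import Pool.Agent.DC.D.TLen
import Pool.Agent.DC.D.PathBasic

/-!
# Project DC, block D: the traces separate the tangent vectors of the Fenchel-Nielsen model
-/

open scoped ENNReal UpperHalfPlane Matrix ContDiff
open MeasureTheory Set

namespace Pool.Agent.DC

namespace PantsGraph

namespace Imm

variable {G : PantsGraph}

theorem coe_mul_inv (g : SL2) : (g : M2) * ((g⁻¹ : SL2) : M2) = 1 := by
  rw [← Matrix.SpecialLinearGroup.coe_mul, mul_inv_cancel, Matrix.SpecialLinearGroup.coe_one]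

theorem coe_inv_mul (g : SL2) : ((g⁻¹ : SL2) : M2) * (g : M2) = 1 := by
  rw [← Matrix.SpecialLinearGroup.coe_mul, inv_mul_cancel, Matrix.SpecialLinearGroup.coe_one]

/-- the next cuff in the frame of a side has nonzero off-diagonal entries -/
theorem offdiag {x : G.Teich} (F : FN x) (e : Fin G.d) (b : Bool) :
    (((F.N e b)⁻¹ * F.cuffM ((G.side e b).1, (G.side e b).2 + 1) * F.N e b : SL2) : M2) 0 1 ≠ 0 ∧
    (((F.N e b)⁻¹ * F.cuffM ((G.side e b).1, (G.side e b).2 + 1) * F.N e b : SL2) : M2) 1 0 ≠ 0 := by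
  obtain ⟨ε, hε, hA⟩ := F.N_seam e b
  have hAB := F.N_cuff e b
  have hl : 0 < len x e := Real.exp_pos _
  set P := (G.side e b).1 with hP
  set i := (G.side e b).2 with hi
  set N : SL2 := F.N e b with hN
  set Ni : M2 := ((N⁻¹ : SL2) : M2) with hNi
  have h1 : (N : M2) * Ni = 1 := coe_mul_inv N
  have h2 : Ni * (N : M2) = 1 := coe_inv_mul N
  have hB : Ni * F.s P (i + 2) * (N : M2) = -(ε • (!![0, 1; 1, 0] * (dil (len x e) : M2))) := by
    have h3 : F.s P (i + 2) = F.s P (i + 1) * (F.s P (i + 1) * F.s P (i + 2)) := by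
      rw [← Matrix.mul_assoc, F.s_sq, Matrix.one_mul]
    rw [h3, hAB, hA]
    have h4 : ((N * dil (len x e) * N⁻¹ : SL2) : M2) = (N : M2) * (dil (len x e) : M2) * Ni := rfl
    rw [h4, Matrix.mul_neg, Matrix.mul_neg, Matrix.neg_mul, Matrix.smul_mul, Matrix.mul_smul,
      Matrix.smul_mul]
    congr 2
    calc Ni * ((N : M2) * !![0, 1; 1, 0] * Ni * ((N : M2) * (dil (len x e) : M2) * Ni)) * (N : M2)
        = (Ni * (N : M2)) * !![0, 1; 1, 0] * (Ni * (N : M2)) * (dil (len x e) : M2) *
          (Ni * (N : M2)) := by simp only [Matrix.mul_assoc]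
      _ = _ := by rw [h2]; simp only [Matrix.one_mul, Matrix.mul_one]
  set C : M2 := Ni * F.s P i * (N : M2) with hC
  have hCtr : C.trace = 0 := by
    rw [hC, Matrix.trace_mul_comm, ← Matrix.mul_assoc, h1, Matrix.one_mul, F.trace_s]
  have hM : (((F.N e b)⁻¹ * F.cuffM (P, i + 1) * F.N e b : SL2) : M2) =
      -(ε • (!![0, 1; 1, 0] * (dil (len x e) : M2))) * C := by
    have h3 : ((N⁻¹ * F.cuffM (P, i + 1) * N : SL2) : M2) =
        Ni * (F.s P (i + 1 + 1) * F.s P (i + 1 + 2)) * (N : M2) := rfl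
    have e1 : i + 1 + 1 = i + 2 := by rw [add_assoc]; rfl
    have e2 : i + 1 + 2 = i := by rw [add_assoc]; exact add_zero i
    rw [h3, e1, e2, ← hB, hC]
    calc Ni * (F.s P (i + 2) * F.s P i) * (N : M2)
        = Ni * F.s P (i + 2) * 1 * (F.s P i * (N : M2)) := by
          simp only [Matrix.mul_assoc, Matrix.one_mul]
      _ = Ni * F.s P (i + 2) * ((N : M2) * Ni) * (F.s P i * (N : M2)) := by rw [h1]
      _ = _ := by simp only [Matrix.mul_assoc]
  have htr : (F.s P (i + 1) * F.s P (i + 2) * F.s P i).trace =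
      -((dil (len x e) : M2) * C).trace := by
    have h4 : ((N * dil (len x e) * N⁻¹ : SL2) : M2) = (N : M2) * (dil (len x e) : M2) * Ni := rfl
    rw [hAB, h4, Matrix.neg_mul, Matrix.trace_neg, hC]
    congr 1
    calc ((N : M2) * (dil (len x e) : M2) * Ni * F.s P i).trace
        = ((N : M2) * ((dil (len x e) : M2) * Ni * F.s P i)).trace := by
          simp only [Matrix.mul_assoc]
      _ = ((dil (len x e) : M2) * Ni * F.s P i * (N : M2)).trace := Matrix.trace_mul_comm _ _
      _ = _ := by simp only [Matrix.mul_assoc]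
  have hor : 0 < (F.s P (i + 1) * F.s P (i + 2) * F.s P i).trace := by
    have h5 := F.orient P
    have h6 : (F.s P (i + 1) * F.s P (i + 2) * F.s P i).trace =
        (F.s P 0 * F.s P 1 * F.s P 2).trace := by
      clear_value i
      fin_cases i
      · show (F.s P 1 * F.s P 2 * F.s P 0).trace = _
        rw [Matrix.trace_mul_comm, ← Matrix.mul_assoc]
      · show (F.s P 2 * F.s P 0 * F.s P 1).trace = _
        rw [Matrix.mul_assoc, Matrix.trace_mul_comm]
      · rfl
    rw [h6]
    exact h5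
  have hp : C 0 0 ≠ 0 := by
    intro h0
    have h7 : C 1 1 = 0 := by
      rw [Matrix.trace_fin_two, h0] at hCtr
      linarith
    rw [htr, Matrix.trace_fin_two, dil_coe] at hor
    simp [Matrix.mul_apply, Fin.sum_univ_two, h0, h7] at hor
  have h11 : C 1 1 = -C 0 0 := by
    rw [Matrix.trace_fin_two] at hCtr
    linarith
  have hε0 : ε ≠ 0 := by rcases hε with h | h <;> rw [h] <;> norm_num
  rw [hM, dil_coe]
  constructor
  · have : (-(ε • (!![0, 1; 1, 0] * !![Real.exp (len x e / 2), 0; 0, Real.exp (-(len x e / 2))])) * C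
        : M2) 0 1 = ε * Real.exp (-(len x e / 2)) * C 0 0 := by
      simp [Matrix.mul_apply, Fin.sum_univ_two, h11]
    rw [this]
    exact mul_ne_zero (mul_ne_zero hε0 (Real.exp_pos _).ne') hp
  · have : (-(ε • (!![0, 1; 1, 0] * !![Real.exp (len x e / 2), 0; 0, Real.exp (-(len x e / 2))])) * C
        : M2) 1 0 = -(ε * Real.exp (len x e / 2) * C 0 0) := by
      simp [Matrix.mul_apply, Fin.sum_univ_two]
    rw [this]
    exact neg_ne_zero.2 (mul_ne_zero (mul_ne_zero hε0 (Real.exp_pos _).ne') hp)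

/-- trace of a path crossing a curve twice, as a function of the twist -/
theorem trace_cross (Nf Nt U Z : SL2) (τ : ℝ) :
    (((Nf * dil τ * turn * Nt⁻¹) * U * (Nf * dil τ * turn * Nt⁻¹)⁻¹ * Z : SL2) : M2).trace =
      ((turn * (Nt⁻¹ * U * Nt) * turn⁻¹ : SL2) : M2) 0 0 * ((Nf⁻¹ * Z * Nf : SL2) : M2) 0 0 +
      ((turn * (Nt⁻¹ * U * Nt) * turn⁻¹ : SL2) : M2) 1 1 * ((Nf⁻¹ * Z * Nf : SL2) : M2) 1 1 +
      Real.exp τ * (((turn * (Nt⁻¹ * U * Nt) * turn⁻¹ : SL2) : M2) 0 1 *
        ((Nf⁻¹ * Z * Nf : SL2) : M2) 1 0) +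
      Real.exp (-τ) * (((turn * (Nt⁻¹ * U * Nt) * turn⁻¹ : SL2) : M2) 1 0 *
        ((Nf⁻¹ * Z * Nf : SL2) : M2) 0 1) := by
  have h1 : (Nf * dil τ * turn * Nt⁻¹) * U * (Nf * dil τ * turn * Nt⁻¹)⁻¹ * Z =
      Nf * (dil τ * (turn * (Nt⁻¹ * U * Nt) * turn⁻¹) * (dil τ)⁻¹ * (Nf⁻¹ * Z * Nf)) * Nf⁻¹ := by
    group
  rw [h1, trace_conj]
  generalize turn * (Nt⁻¹ * U * Nt) * turn⁻¹ = U'
  generalize Nf⁻¹ * Z * Nf = Z'
  have e1 : Real.exp (τ / 2) * Real.exp (τ / 2) = Real.exp τ := by
    rw [← Real.exp_add]; congr 1; ring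
  have e2 : Real.exp (-(τ / 2)) * Real.exp (-(τ / 2)) = Real.exp (-τ) := by
    rw [← Real.exp_add]; congr 1; ring
  have e3 : Real.exp (τ / 2) * Real.exp (-(τ / 2)) = 1 := by
    rw [← Real.exp_add]; simp
  rw [Matrix.SpecialLinearGroup.coe_mul, Matrix.SpecialLinearGroup.coe_mul,
    Matrix.SpecialLinearGroup.coe_mul, Matrix.SpecialLinearGroup.coe_inv, dil_coe,
    Matrix.trace_fin_two]
  simp only [Matrix.mul_apply, Fin.sum_univ_two, Matrix.adjugate_fin_two, Matrix.of_apply,
    Matrix.cons_val', Matrix.cons_val_zero, Matrix.cons_val_one, Matrix.cons_val_fin_one]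
  rw [← e1, ← e2]
  linear_combination ((U' 0 0 : ℝ) * (Z' 0 0 : ℝ) + (U' 1 1 : ℝ) * (Z' 1 1 : ℝ)) * e3

theorem turn_offdiag (A : SL2) (h : (A : M2) 0 1 ≠ 0 ∧ (A : M2) 1 0 ≠ 0) :
    ((turn * A * turn⁻¹ : SL2) : M2) 0 1 ≠ 0 ∧ ((turn * A * turn⁻¹ : SL2) : M2) 1 0 ≠ 0 := by
  have h1 : ((turn * A * turn⁻¹ : SL2) : M2) 0 1 = -(A : M2) 1 0 := by
    rw [Matrix.SpecialLinearGroup.coe_mul, Matrix.SpecialLinearGroup.coe_mul,
      Matrix.SpecialLinearGroup.coe_inv, turn_coe]
    simp only [Matrix.mul_apply, Fin.sum_univ_two, Matrix.adjugate_fin_two, Matrix.of_apply,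
      Matrix.cons_val', Matrix.cons_val_zero, Matrix.cons_val_one, Matrix.cons_val_fin_one]
    ring
  have h2 : ((turn * A * turn⁻¹ : SL2) : M2) 1 0 = -(A : M2) 0 1 := by
    rw [Matrix.SpecialLinearGroup.coe_mul, Matrix.SpecialLinearGroup.coe_mul,
      Matrix.SpecialLinearGroup.coe_inv, turn_coe]
    simp only [Matrix.mul_apply, Fin.sum_univ_two, Matrix.adjugate_fin_two, Matrix.of_apply,
      Matrix.cons_val', Matrix.cons_val_zero, Matrix.cons_val_one, Matrix.cons_val_fin_one]
    ring
  rw [h1, h2]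
  exact ⟨neg_ne_zero.2 h.2, neg_ne_zero.2 h.1⟩

theorem dil_add' (s t : ℝ) : dil s * dil t = dil (s + t) := by
  apply Subtype.ext
  rw [Matrix.SpecialLinearGroup.coe_mul, dil_coe, dil_coe, dil_coe]
  ext i j
  fin_cases i <;> fin_cases j <;> simp [Matrix.mul_apply, Fin.sum_univ_two, ← Real.exp_add] <;> ring

theorem dil_inv' (t : ℝ) : (dil t)⁻¹ = dil (-t) := by
  rw [inv_eq_iff_mul_eq_one, dil_add']
  apply Subtype.ext
  rw [dil_coe]
  ext i j
  fin_cases i <;> fin_cases j <;> simp

/-- the pure calculus: a sum of two exponentials with nonzero coefficients cannot have a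
horizontal tangent at two points -/
theorem two_points (α a b σ l κ : ℝ) (ha : a ≠ 0) (hl : 0 < l)
    (h0 : HasDerivAt (fun t : ℝ => α + Real.exp (σ + t * κ) * a + Real.exp (-(σ + t * κ)) * b) 0 0)
    (h1 : HasDerivAt (fun t : ℝ => α + Real.exp (σ - l + t * κ) * a +
      Real.exp (-(σ - l + t * κ)) * b) 0 0) : κ = 0 := by
  have key : ∀ σ : ℝ, HasDerivAt (fun t : ℝ => α + Real.exp (σ + t * κ) * a +
      Real.exp (-(σ + t * κ)) * b) (κ * (Real.exp σ * a - Real.exp (-σ) * b)) 0 := by
    intro σ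
    have k1 : HasDerivAt (fun t : ℝ => σ + t * κ) κ 0 := by
      have := ((hasDerivAt_id (0 : ℝ)).mul_const κ).const_add σ
      simpa using this
    have k2 := (k1.exp.mul_const a).const_add α
    have k3 := k1.neg.exp.mul_const b
    have k4 := k2.add k3
    refine (k4.congr_deriv ?_).congr_of_eventuallyEq ?_
    · simp only [Pi.neg_apply, zero_mul, add_zero]
      ring
    · exact Filter.Eventually.of_forall fun t => rfl
  by_contra hκ
  have e0 := (key σ).unique h0
  have e1 := (key (σ - l)).unique h1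
  have f0 : Real.exp σ * a - Real.exp (-σ) * b = 0 := by
    rcases mul_eq_zero.1 e0 with h | h
    · exact absurd h hκ
    · exact h
  have f1 : Real.exp (σ - l) * a - Real.exp (-(σ - l)) * b = 0 := by
    rcases mul_eq_zero.1 e1 with h | h
    · exact absurd h hκ
    · exact h
  have g1 : Real.exp (σ - l) = Real.exp σ * Real.exp (-l) := by
    rw [← Real.exp_add]; congr 1
  have g2 : Real.exp (-(σ - l)) = Real.exp (-σ) * Real.exp l := by
    rw [← Real.exp_add]; congr 1; ring
  rw [g1, g2] at f1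
  have g3 : Real.exp σ * a * (Real.exp (-l) - Real.exp l) = 0 := by
    linear_combination f1 - Real.exp l * f0
  have g4 : Real.exp (-l) < Real.exp l := Real.exp_lt_exp.2 (by linarith)
  have g5 : Real.exp σ * a ≠ 0 := mul_ne_zero (Real.exp_pos _).ne' ha
  rcases mul_eq_zero.1 g3 with h | h
  · exact g5 h
  · linarith

end Imm

variable {G : PantsGraph}

open Imm

/-- THE TRACES SEPARATE THE TANGENT VECTORS. -/
theorem immersion (F : ∀ x : G.Teich, FN x)
    (hF1 : ∀ γ i j, ContDiff ℝ ∞ fun x => (((F x).hol γ : SL2) : M2) i j)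
    (hF2 : ∀ x y : G.Teich, (∀ e, x (Fin.castAdd G.d e) = y (Fin.castAdd G.d e)) →
      (F x).s = (F y).s ∧ (F x).N = (F y).N)
    (x v : G.Teich)
    (h : ∀ γ : G.pi1, fderiv ℝ (fun y : G.Teich =>
      (((F y).hol (γ : G.PathGroup) : SL2) : M2).trace) x v = 0) : v = 0 := by
  have hsm : ∀ γ : G.PathGroup, ContDiff ℝ ∞ fun y : G.Teich =>
      (((F y).hol γ : SL2) : M2).trace := by
    intro γ
    simp only [Matrix.trace_fin_two]
    exact (hF1 γ 0 0).add (hF1 γ 1 1)
  -- closed paths at an arbitrary pair of pants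
  have hcl : ∀ (P : Fin G.V) (w : G.PathGroup), G.IsPath P P w →
      fderiv ℝ (fun y : G.Teich => (((F y).hol w : SL2) : M2).trace) x v = 0 := by
    intro P w hw
    obtain ⟨u, hu⟩ := isPath_conn (G := G) P
    have h1 := h ⟨u * w * u⁻¹, (hu.mul hw).mul hu.inv⟩
    have h2 : (fun y : G.Teich => (((F y).hol (u * w * u⁻¹) : SL2) : M2).trace) =
        fun y : G.Teich => (((F y).hol w : SL2) : M2).trace := by
      funext y
      rw [map_mul, map_mul, map_inv, trace_conj]
    simpa only [h2] using h1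
  -- derivative along the line
  have hline : ∀ (P : Fin G.V) (w : G.PathGroup), G.IsPath P P w →
      HasDerivAt (fun t : ℝ => (((F (x + t • v)).hol w : SL2) : M2).trace) 0 0 := by
    intro P w hw
    have h1 : HasFDerivAt (fun y : G.Teich => (((F y).hol w : SL2) : M2).trace)
        (fderiv ℝ (fun y : G.Teich => (((F y).hol w : SL2) : M2).trace) x) (x + (0 : ℝ) • v) := by
      rw [zero_smul, add_zero]
      exact ((hsm w).differentiable (by simp)).differentiableAt.hasFDerivAt
    have h2 : HasDerivAt (fun t : ℝ => x + t • v) v 0 := by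
      have := ((hasDerivAt_id (0 : ℝ)).smul_const v).const_add x
      simpa using this
    have h3 := h1.comp_hasDerivAt (0 : ℝ) h2
    rw [hcl P w hw] at h3
    exact h3
  -- the lengths
  have hlen : ∀ e, v (Fin.castAdd G.d e) = 0 := by
    intro e
    have h1 := hline (G.side e false).1 (G.cuff (G.side e false))
      (by simpa using (IsPath.refl (G := G) (G.side e false).1).cuff (G.side e false).2)
    have h2 : (fun t : ℝ => (((F (x + t • v)).hol (G.cuff (G.side e false)) : SL2) : M2).trace) =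
        fun t : ℝ => -2 * Real.cosh (Real.exp (x (Fin.castAdd G.d e) +
          t * v (Fin.castAdd G.d e)) / 2) := by
      funext t
      rw [FN.hol_cuff]
      exact (F (x + t • v)).gram_side e false
    rw [h2] at h1
    have h3 : HasDerivAt (fun t : ℝ => x (Fin.castAdd G.d e) + t * v (Fin.castAdd G.d e))
        (v (Fin.castAdd G.d e)) 0 := by
      have := ((hasDerivAt_id (0 : ℝ)).mul_const (v (Fin.castAdd G.d e))).const_add
        (x (Fin.castAdd G.d e))
      simpa using this
    have h4 := ((h3.exp.div_const 2).cosh).const_mul (-2)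
    have h5 := h4.unique h1
    simp only [zero_mul, add_zero] at h5
    have h6 : 0 < Real.sinh (Real.exp (x (Fin.castAdd G.d e)) / 2) :=
      Real.sinh_pos_iff.2 (by positivity)
    have h7 : 0 < Real.exp (x (Fin.castAdd G.d e)) := Real.exp_pos _
    have h8 : (Real.sinh (Real.exp (x (Fin.castAdd G.d e)) / 2) *
        Real.exp (x (Fin.castAdd G.d e))) * v (Fin.castAdd G.d e) = 0 := by
      linear_combination (-1) * h5
    rcases mul_eq_zero.1 h8 with h9 | h9
    · exact absurd h9 (mul_pos h6 h7).ne'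
    · exact h9
  -- the frames are constant along the line
  have hfr : ∀ t : ℝ, (F (x + t • v)).s = (F x).s ∧ (F (x + t • v)).N = (F x).N := by
    intro t
    refine hF2 _ _ fun e => ?_
    have : (x + t • v) (Fin.castAdd G.d e) = x (Fin.castAdd G.d e) +
      t * v (Fin.castAdd G.d e) := rfl
    rw [this, hlen e, mul_zero, add_zero]
  have hcuffM : ∀ (t : ℝ) (p : Fin G.V × Fin 3), (F (x + t • v)).cuffM p = (F x).cuffM p := by
    intro t p
    apply Subtype.ext
    show (F (x + t • v)).s p.1 (p.2 + 1) * (F (x + t • v)).s p.1 (p.2 + 2) =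
      (F x).s p.1 (p.2 + 1) * (F x).s p.1 (p.2 + 2)
    rw [(hfr t).1]
  -- the twists
  have htw : ∀ e, v (Fin.natAdd G.d e) = 0 := by
    intro e
    set Nf : SL2 := (F x).N e false with hNf
    set Nt : SL2 := (F x).N e true with hNt
    set l : ℝ := len x e with hl
    have hlpos : 0 < l := Real.exp_pos _
    set κ : ℝ := l * v (Fin.natAdd G.d e) / (2 * Real.pi) with hκ
    have hedge : ∀ t : ℝ, (F (x + t • v)).edgeM e =
        Nf * dil (shift x e + t * κ) * turn * Nt⁻¹ := by
      intro t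
      have h1 : shift (x + t • v) e = shift x e + t * κ := by
        have h2 : len (x + t • v) e = l := by
          rw [len, hl, len]
          have : (x + t • v) (Fin.castAdd G.d e) = x (Fin.castAdd G.d e) +
            t * v (Fin.castAdd G.d e) := rfl
          rw [this, hlen e, mul_zero, add_zero]
        have h3 : (x + t • v) (Fin.natAdd G.d e) = x (Fin.natAdd G.d e) +
          t * v (Fin.natAdd G.d e) := rfl
        rw [shift, h2, h3, shift, hκ, ← hl]
        ring
      rw [FN.edgeM, h1, (hfr t).2]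
    -- the two closed paths
    set p : Fin G.V × Fin 3 := ((G.side e false).1, (G.side e false).2 + 1) with hp
    set q : Fin G.V × Fin 3 := ((G.side e true).1, (G.side e true).2 + 1) with hq
    have hpath : ∀ z : G.PathGroup, G.IsPath (G.side e false).1 (G.side e false).1 z →
        G.IsPath (G.side e false).1 (G.side e false).1
          (G.edge e * G.cuff q * (G.edge e)⁻¹ * z) := by
      intro z hz
      have h1 := (((IsPath.refl (G := G) (G.side e false).1).edge e).cuff
        ((G.side e true).2 + 1)).edgeInv e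
      rw [one_mul] at h1
      exact h1.mul hz
    have hz0 : G.IsPath (G.side e false).1 (G.side e false).1 (G.cuff p) := by
      simpa using (IsPath.refl (G := G) (G.side e false).1).cuff ((G.side e false).2 + 1)
    have hz1 : G.IsPath (G.side e false).1 (G.side e false).1
        (G.cuff (G.side e false) * G.cuff p * (G.cuff (G.side e false))⁻¹) := by
      simpa using (((IsPath.refl (G := G) (G.side e false).1).cuff (G.side e false).2).cuff
        ((G.side e false).2 + 1)).cuffInv (G.side e false).2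
    have d0 := hline _ _ (hpath _ hz0)
    have d1 := hline _ _ (hpath _ hz1)
    set U : SL2 := turn * (Nt⁻¹ * (F x).cuffM q * Nt) * turn⁻¹ with hU
    set Z : SL2 := Nf⁻¹ * (F x).cuffM p * Nf with hZ
    have hUo : (U : M2) 0 1 ≠ 0 ∧ (U : M2) 1 0 ≠ 0 := turn_offdiag _ (offdiag (F x) e true)
    have hZo : (Z : M2) 0 1 ≠ 0 ∧ (Z : M2) 1 0 ≠ 0 := offdiag (F x) e false
    have f0 : (fun t : ℝ => (((F (x + t • v)).hol
        (G.edge e * G.cuff q * (G.edge e)⁻¹ * G.cuff p) : SL2) : M2).trace) =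
        fun t : ℝ => ((U : M2) 0 0 * (Z : M2) 0 0 + (U : M2) 1 1 * (Z : M2) 1 1) +
          Real.exp (shift x e + t * κ) * ((U : M2) 0 1 * (Z : M2) 1 0) +
          Real.exp (-(shift x e + t * κ)) * ((U : M2) 1 0 * (Z : M2) 0 1) := by
      funext t
      rw [map_mul, map_mul, map_mul, map_inv, FN.hol_edge, FN.hol_cuff, FN.hol_cuff, hcuffM,
        hcuffM, hedge, trace_cross]
    have hcf : (F x).cuffM (G.side e false) = -(Nf * dil l * Nf⁻¹) := by
      apply Subtype.ext
      rw [Matrix.SpecialLinearGroup.coe_neg]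
      exact (F x).N_cuff e false
    have f1 : (fun t : ℝ => (((F (x + t • v)).hol
        (G.edge e * G.cuff q * (G.edge e)⁻¹ *
          (G.cuff (G.side e false) * G.cuff p * (G.cuff (G.side e false))⁻¹)) : SL2) : M2).trace) =
        fun t : ℝ => ((U : M2) 0 0 * (Z : M2) 0 0 + (U : M2) 1 1 * (Z : M2) 1 1) +
          Real.exp (shift x e - l + t * κ) * ((U : M2) 0 1 * (Z : M2) 1 0) +
          Real.exp (-(shift x e - l + t * κ)) * ((U : M2) 1 0 * (Z : M2) 0 1) := by
      funext t
      have k1 : (F (x + t • v)).hol (G.edge e * G.cuff q * (G.edge e)⁻¹ *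
          (G.cuff (G.side e false) * G.cuff p * (G.cuff (G.side e false))⁻¹)) =
          (F x).cuffM (G.side e false) * ((Nf * dil (shift x e - l + t * κ) * turn * Nt⁻¹) *
            (F x).cuffM q * (Nf * dil (shift x e - l + t * κ) * turn * Nt⁻¹)⁻¹ *
            (F x).cuffM p) * ((F x).cuffM (G.side e false))⁻¹ := by
        simp only [map_mul, map_inv, FN.hol_edge, FN.hol_cuff, hcuffM, hedge]
        rw [hcf]
        have k2 : dil (shift x e + t * κ) = dil l * dil (shift x e - l + t * κ) := by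
          rw [dil_add']
          congr 1
          ring
        rw [k2]
        have k3 : ∀ A : SL2, (-A)⁻¹ = -A⁻¹ := fun A => by
          apply Subtype.ext
          rw [Matrix.SpecialLinearGroup.coe_neg, Matrix.SpecialLinearGroup.coe_inv,
            Matrix.SpecialLinearGroup.coe_inv, Matrix.SpecialLinearGroup.coe_neg]
          simp [Matrix.adjugate_fin_two]
        rw [k3]
        simp only [neg_mul, mul_neg, neg_neg]
        group
      rw [k1, trace_conj, trace_cross]
    rw [f0] at d0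
    rw [f1] at d1
    have hκ0 := two_points _ _ _ _ l κ (mul_ne_zero hUo.1 hZo.2) hlpos
      d0 d1
    rw [hκ, div_eq_zero_iff] at hκ0
    rcases hκ0 with h1 | h1
    · rcases mul_eq_zero.1 h1 with h2 | h2
      · exact absurd h2 hlpos.ne'
      · exact h2
    · exact absurd h1 (by positivity)
  ext i
  refine Fin.addCases (fun e => ?_) (fun e => ?_) i
  · simpa using hlen e
  · simpa using htw e

/-- The same with half the absolute values of the traces. -/
theorem immersion_abs (F : ∀ x : G.Teich, FN x)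
    (hF1 : ∀ γ i j, ContDiff ℝ ∞ fun x => (((F x).hol γ : SL2) : M2) i j)
    (hF2 : ∀ x y : G.Teich, (∀ e, x (Fin.castAdd G.d e) = y (Fin.castAdd G.d e)) →
      (F x).s = (F y).s ∧ (F x).N = (F y).N)
    (x v : G.Teich)
    (h0 : ∀ γ : G.pi1, (((F x).hol (γ : G.PathGroup) : SL2) : M2).trace ≠ 0)
    (h : ∀ γ : G.pi1, fderiv ℝ (fun y : G.Teich =>
      |(((F y).hol (γ : G.PathGroup) : SL2) : M2).trace| / 2) x v = 0) : v = 0 := by
  refine immersion F hF1 hF2 x v fun γ => ?_
  have hd : DifferentiableAt ℝ (fun y : G.Teich =>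
      (((F y).hol (γ : G.PathGroup) : SL2) : M2).trace) x := by
    simp only [Matrix.trace_fin_two]
    exact (((hF1 _ 0 0).add (hF1 _ 1 1)).differentiable (by simp)).differentiableAt
  have h1 := h γ
  rcases lt_or_gt_of_ne (h0 γ) with hn | hp
  · have h2 : (fun y : G.Teich => |(((F y).hol (γ : G.PathGroup) : SL2) : M2).trace| / 2) =ᶠ[nhds x]
        fun y => (-1 / 2 : ℝ) * (((F y).hol (γ : G.PathGroup) : SL2) : M2).trace := by
      filter_upwards [hd.continuousAt.eventually_lt continuousAt_const hn] with y hy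
      rw [abs_of_neg hy]
      ring
    rw [h2.fderiv_eq, fderiv_const_mul hd] at h1
    simpa using h1
  · have h2 : (fun y : G.Teich => |(((F y).hol (γ : G.PathGroup) : SL2) : M2).trace| / 2) =ᶠ[nhds x]
        fun y => (1 / 2 : ℝ) * (((F y).hol (γ : G.PathGroup) : SL2) : M2).trace := by
      filter_upwards [(continuousAt_const (y := (0:ℝ))).eventually_lt hd.continuousAt hp] with y hy
      rw [abs_of_pos hy]
      ring
    rw [h2.fderiv_eq, fderiv_const_mul hd] at h1
    simpa using h1

end PantsGraph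

end Pool.Agent.DC
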