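import Pool.Agent.DC.D.PantsWord

/-!
# Project DC, row D09: cyclically reduced words of the pants group
-/

open scoped ENNReal UpperHalfPlane Matrix ContDiff
open MeasureTheory Set

namespace Pool.Agent.DC

namespace PantsGraph
variable {G : PantsGraph}

theorem pc_cw_cons (P : Fin G.V) (i j : Fin 3) (w : List (Fin 3)) :
    cw P (i :: j :: w) = cc P i j * cw P w := by
  rw [cw]

theorem pc_cw_nil (P : Fin G.V) : cw P [] = 1 := by
  rw [cw]
  intro i j w h
  exact absurd h (by simp)

/-- adjacent equal letters cancel -/
theorem pc_cancel (P : Fin G.V) (l₁ l₂ : List (Fin 3)) (a : Fin 3)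
    (hev : Even (l₁ ++ a :: a :: l₂).length) :
    cw P (l₁ ++ a :: a :: l₂) = cw P (l₁ ++ l₂) := by
  have hlen : (l₁ ++ a :: a :: l₂).length = l₁.length + (l₂.length + 2) := by
    simp
  rw [hlen] at hev
  rcases Nat.even_or_odd l₁.length with h1 | h1
  · rw [cw_append P _ _ h1, cw_append P _ _ h1, pc_cw_cons, cc_self, one_mul]
  · have h2 : Odd l₂.length := by
      rw [Nat.even_add, Nat.even_add] at hev
      rw [← Nat.not_even_iff_odd] at h1 ⊢
      intro h3
      exact h1 (hev.mpr (iff_of_true h3 (by decide)))
    rcases List.eq_nil_or_concat l₁ with rfl | ⟨l, c, rfl⟩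
    · simp at h1
    · rcases l₂ with _ | ⟨e, m⟩
      · simp at h2
      · have h3 : Even l.length := by
          simpa [Nat.odd_add_one] using h1
        rw [List.concat_eq_append, List.append_assoc, List.append_assoc, cw_append P _ _ h3,
          cw_append P _ _ h3, List.singleton_append, List.singleton_append, pc_cw_cons,
          pc_cw_cons, pc_cw_cons, ← mul_assoc (cc P c a), cc_mul]

/-- every element is conjugate in the pants group to a cyclically reduced even word -/
theorem pg_cyc_word (P : Fin G.V) {g : G.PathGroup} (hg : g ∈ PG P) :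
    ∃ v ∈ PG P, ∃ w : List (Fin 3), Even w.length ∧ List.IsChain (· ≠ ·) w ∧
      (∀ a b, w.head? = some a → w.getLast? = some b → a ≠ b) ∧ g = v * cw P w * v⁻¹ := by
  classical
  have hex : ∃ n : ℕ, ∃ v ∈ PG P, ∃ w : List (Fin 3), Even w.length ∧ w.length = n ∧
      g = v * cw P w * v⁻¹ := by
    obtain ⟨w, hw, -, hgw⟩ := pg_word P hg
    exact ⟨w.length, 1, one_mem _, w, hw, rfl, by rw [hgw]; simp⟩
  obtain ⟨v, hv, w, hw, hlen, hgw⟩ := Nat.find_spec hex
  have hmin : ∀ v' ∈ PG P, ∀ w' : List (Fin 3), Even w'.length → g = v' * cw P w' * v'⁻¹ →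
      w.length ≤ w'.length := by
    intro v' hv' w' hw' hg'
    rw [hlen]
    exact Nat.find_min' hex ⟨v', hv', w', hw', rfl, hg'⟩
  refine ⟨v, hv, w, hw, ?_, ?_, hgw⟩
  · rw [List.isChain_iff_forall_rel_of_append_cons_cons]
    rintro a b l₁ l₂ hl rfl
    subst hl
    have h1 := pc_cancel P l₁ l₂ a hw
    have h2 : Even (l₁ ++ l₂).length := by
      have h3 : (l₁ ++ a :: a :: l₂).length = (l₁ ++ l₂).length + 2 := by
        simp [add_assoc]
      rw [h3, Nat.even_add] at hw
      exact hw.mpr (by decide)
    have h4 := hmin v hv (l₁ ++ l₂) h2 (by rw [← h1]; exact hgw)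
    simp at h4
  · rintro a b ha hb rfl
    rcases w with _ | ⟨c, t⟩
    · simp at ha
    · simp only [List.head?_cons, Option.some.injEq] at ha
      subst ha
      rcases t with _ | ⟨b, t⟩
      · simp at hw
      · rcases List.eq_nil_or_concat t with rfl | ⟨t', e, rfl⟩
        · simp only [List.getLast?_cons_cons, List.getLast?_singleton, Option.some.injEq] at hb
          subst hb
          have h1 := pc_cancel P [] [] b (by simp)
          have h4 := hmin v hv [] (by simp) (by
            rw [List.nil_append] at h1
            rw [List.nil_append] at h1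
            rw [← h1]
            exact hgw)
          simp at h4
        · rw [List.concat_eq_append] at *
          have he : e = c := by
            have h1 : (c :: b :: (t' ++ [e])) = (c :: b :: t') ++ [e] := by simp
            rw [h1, List.getLast?_append] at hb
            simpa using hb
          subst he
          have ht : Even (t' ++ [e]).length := by
            have h3 : (e :: b :: (t' ++ [e])).length = (t' ++ [e]).length + 2 := by simp
            rw [h3, Nat.even_add] at hw
            exact hw.mpr (by decide)
          have h5 : Even (t' ++ [b]).length := by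
            simpa using ht
          have h6 : Even (t' ++ e :: e :: [b]).length := by
            have h3 : (t' ++ e :: e :: [b]).length = (t' ++ [b]).length + 2 := by simp
            rw [h3, Nat.even_add]
            exact iff_of_true h5 (by decide)
          have h7 := pc_cancel P t' [b] e h6
          have h8 : cw P (t' ++ [e]) * cc P e b = cw P (t' ++ [b]) := by
            rw [← h7]
            have h9 : t' ++ e :: e :: [b] = (t' ++ [e]) ++ [e, b] := by simp
            rw [h9, cw_append P _ _ ht, pc_cw_cons, pc_cw_nil, mul_one]
          have h10 := hmin (v * cc P e b) (mul_mem hv (cc_mem P e b)) (t' ++ [b]) h5 (by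
            rw [← h8, hgw, pc_cw_cons]
            group)
          simp at h10

end PantsGraph

end Pool.Agent.DC
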