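import Pool.Agent.DC.D.Base

/-!
# Project DC, block D: words in the group of a pair of pants
-/

open scoped ENNReal UpperHalfPlane Matrix ContDiff
open MeasureTheory Set

namespace Pool.Agent.DC

namespace PantsGraph
variable {G : PantsGraph}

theorem cuff_mul (P : Fin G.V) : G.cuff (P, 0) * G.cuff (P, 1) * G.cuff (P, 2) = 1 := by
  have h : PresentedGroup.mk G.rels (FreeGroup.of (Sum.inl (P, 0)) *
      FreeGroup.of (Sum.inl (P, 1)) * FreeGroup.of (Sum.inl (P, 2))) = 1 :=
    PresentedGroup.one_of_mem (Or.inl ⟨P, rfl⟩)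
  rw [map_mul, map_mul] at h
  exact h

theorem f3a : ∀ k : Fin 3, k + 1 + 1 = k + 2 := by decide

theorem f3b : ∀ k : Fin 3, k + 1 + 2 = k := by decide

theorem f3c : ∀ k i j : Fin 3, i ≠ j → k ≠ i → k ≠ j →
    (i = k + 1 ∧ j = k + 2) ∨ (i = k + 2 ∧ j = k + 1) := by decide

theorem cc_self (P : Fin G.V) (i : Fin 3) : cc P i i = 1 := by
  unfold cc
  rw [if_neg (by revert i; decide), if_neg (by revert i; decide)]

theorem cc_succ (P : Fin G.V) (i : Fin 3) : cc P i (i + 1) = G.cuff (P, i + 2) := by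
  unfold cc
  rw [if_pos rfl]

theorem cc_succ_symm (P : Fin G.V) (i : Fin 3) : cc P (i + 1) i = (G.cuff (P, i + 2))⁻¹ := by
  unfold cc
  rw [if_neg (by revert i; decide), if_pos rfl]

theorem cc_mul (P : Fin G.V) (i j k : Fin 3) : cc P i j * cc P j k = cc P i k := by
  have h := cuff_mul P
  have e01 : cc P 0 1 = G.cuff (P, 2) := cc_succ P 0
  have e12 : cc P 1 2 = G.cuff (P, 0) := cc_succ P 1
  have e20 : cc P 2 0 = G.cuff (P, 1) := cc_succ P 2
  have e10 : cc P 1 0 = (G.cuff (P, 2))⁻¹ := cc_succ_symm P 0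
  have e21 : cc P 2 1 = (G.cuff (P, 0))⁻¹ := cc_succ_symm P 1
  have e02 : cc P 0 2 = (G.cuff (P, 1))⁻¹ := cc_succ_symm P 2
  have hz : ∀ a b c : G.PathGroup, a * b * c = 1 → b * c = a⁻¹ ∧ c * a = b⁻¹ ∧ a * b = c⁻¹ := by
    intro a b c hab
    refine ⟨?_, ?_, ?_⟩
    · exact eq_inv_of_mul_eq_one_right (by rw [← mul_assoc]; exact hab)
    · have h1 : a * b = c⁻¹ := eq_inv_of_mul_eq_one_left hab
      have h2 : c * (a * b) = 1 := by rw [h1]; exact mul_inv_cancel c
      exact eq_inv_of_mul_eq_one_left (by rw [mul_assoc]; exact h2)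
    · exact eq_inv_of_mul_eq_one_left hab
  obtain ⟨h1, h2, h3⟩ := hz _ _ _ h
  fin_cases i <;> fin_cases j <;> fin_cases k <;>
    simp only [Fin.zero_eta, Fin.mk_one, Fin.reduceFinMk, cc_self, one_mul, mul_one, e01, e12, e20,
      e10, e21, e02, mul_inv_cancel, inv_mul_cancel, h1, h2, h3]
  · rw [← mul_inv_rev, h3, inv_inv]
  · rw [← mul_inv_rev, h1, inv_inv]
  · rw [← mul_inv_rev, h2, inv_inv]

theorem cc_inv (P : Fin G.V) (i j : Fin 3) : (cc P i j)⁻¹ = cc P j i :=
  inv_eq_of_mul_eq_one_right (by rw [cc_mul, cc_self])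

theorem cuff_mem_PG (P : Fin G.V) (i : Fin 3) : G.cuff (P, i) ∈ PG P :=
  Subgroup.subset_closure ⟨i, rfl⟩

theorem cc_mem (P : Fin G.V) (i j : Fin 3) : cc P i j ∈ PG P := by
  unfold cc
  split_ifs
  · exact cuff_mem_PG P _
  · exact (PG P).inv_mem (cuff_mem_PG P _)
  · exact (PG P).one_mem

theorem cw_nil (P : Fin G.V) : cw P [] = 1 := rfl

theorem cw_cons_cons (P : Fin G.V) (i j : Fin 3) (w : List (Fin 3)) :
    cw P (i :: j :: w) = cc P i j * cw P w := rfl

theorem cw_mem (P : Fin G.V) : ∀ w : List (Fin 3), cw P w ∈ PG P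
  | [] => (PG P).one_mem
  | [_] => (PG P).one_mem
  | i :: j :: w => (PG P).mul_mem (cc_mem P i j) (cw_mem P w)

theorem cw_append (P : Fin G.V) : ∀ (v w : List (Fin 3)), Even v.length →
    cw P (v ++ w) = cw P v * cw P w
  | [], w, _ => by rw [List.nil_append, cw_nil, one_mul]
  | [_], _, hv => by simp at hv
  | i :: j :: v, w, hv => by
    have hv' : Even v.length := by
      have h : Even (v.length + 2) := hv
      simpa [Nat.even_add] using h
    rw [List.cons_append, List.cons_append, cw_cons_cons, cw_cons_cons, cw_append P v w hv',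
      mul_assoc]

theorem even_reverse {w : List (Fin 3)} (hw : Even w.length) : Even w.reverse.length := by
  rwa [List.length_reverse]

theorem cw_reverse (P : Fin G.V) : ∀ w : List (Fin 3), Even w.length →
    cw P w.reverse = (cw P w)⁻¹
  | [], _ => by rw [List.reverse_nil, cw_nil, inv_one]
  | [_], hv => by simp at hv
  | i :: j :: v, hv => by
    have hv' : Even v.length := by
      have h : Even (v.length + 2) := hv
      simpa [Nat.even_add] using h
    rw [List.reverse_cons, List.reverse_cons, List.append_assoc,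
      cw_append P _ _ (even_reverse hv'), cw_reverse P v hv', cw_cons_cons, mul_inv_rev, cc_inv]
    congr 1
    change cc P j i * cw P [] = _
    rw [cw_nil, mul_one]

/-- every element of the pants group is an even word -/
theorem pg_word_even (P : Fin G.V) {g : G.PathGroup} (hg : g ∈ PG P) :
    ∃ w : List (Fin 3), Even w.length ∧ g = cw P w := by
  unfold PG at hg
  induction hg using Subgroup.closure_induction with
  | mem x hx =>
    obtain ⟨i, rfl⟩ := hx
    refine ⟨[i + 1, i + 2], by simp, ?_⟩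
    have h : cc P (i + 1) (i + 2) = G.cuff (P, i) := by
      have h1 := cc_succ P (i + 1)
      rw [f3a, f3b] at h1
      exact h1
    rw [cw_cons_cons, cw_nil, mul_one, h]
  | one => exact ⟨[], by simp, rfl⟩
  | mul x y _ _ hx hy =>
    obtain ⟨v, hv, rfl⟩ := hx
    obtain ⟨w, hw, rfl⟩ := hy
    refine ⟨v ++ w, ?_, (cw_append P v w hv).symm⟩
    rw [List.length_append]
    exact hv.add hw
  | inv x _ hx =>
    obtain ⟨v, hv, rfl⟩ := hx
    exact ⟨v.reverse, even_reverse hv, (cw_reverse P v hv).symm⟩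

theorem cw_cons_red (P : Fin G.V) (i j : Fin 3) (u : List (Fin 3)) (hev : Even u.length)
    (hch : List.IsChain (· ≠ ·) u) : ∃ w : List (Fin 3), Even w.length ∧
      List.IsChain (· ≠ ·) w ∧ cc P i j * cw P u = cw P w := by
  by_cases hij : i = j
  · subst hij
    exact ⟨u, hev, hch, by rw [cc_self, one_mul]⟩
  rcases u with _ | ⟨k, _ | ⟨l, u⟩⟩
  · refine ⟨[i, j], by simp, ?_, rfl⟩
    simpa using hij
  · simp at hev
  · have hev' : Even u.length := by
      have h : Even (u.length + 2) := hev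
      simpa [Nat.even_add] using h
    have hkl := (List.isChain_cons_cons.1 hch).1
    have hlu := (List.isChain_cons_cons.1 hch).2
    by_cases hjk : j = k
    · subst hjk
      by_cases hil : i = l
      · subst hil
        refine ⟨u, hev', hlu.tail, ?_⟩
        rw [cw_cons_cons, ← mul_assoc, cc_mul, cc_self, one_mul]
      · refine ⟨i :: l :: u, hev, List.isChain_cons_cons.2 ⟨hil, hlu⟩, ?_⟩
        rw [cw_cons_cons, ← mul_assoc, cc_mul, cw_cons_cons]
    · refine ⟨i :: j :: k :: l :: u, ?_, List.isChain_cons_cons.2 ⟨hij,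
        List.isChain_cons_cons.2 ⟨hjk, hch⟩⟩, rfl⟩
      have h : Even ((k :: l :: u).length + 2) := hev.add even_two
      exact h

theorem cw_red (P : Fin G.V) : ∀ w : List (Fin 3), Even w.length →
    ∃ w' : List (Fin 3), Even w'.length ∧ List.IsChain (· ≠ ·) w' ∧ cw P w = cw P w'
  | [], _ => ⟨[], by simp, by simp, rfl⟩
  | [_], hv => by simp at hv
  | i :: j :: v, hv => by
    have hv' : Even v.length := by
      have h : Even (v.length + 2) := hv
      simpa [Nat.even_add] using h
    obtain ⟨u, hu, hch, he⟩ := cw_red P v hv'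
    obtain ⟨w, hw, hch', he'⟩ := cw_cons_red P i j u hu hch
    exact ⟨w, hw, hch', by rw [cw_cons_cons, he, he']⟩

/-- every element of the pants group is an even reduced word -/
theorem pg_word (P : Fin G.V) {g : G.PathGroup} (hg : g ∈ PG P) :
    ∃ w : List (Fin 3), Even w.length ∧ List.IsChain (· ≠ ·) w ∧ g = cw P w := by
  obtain ⟨w, hw, rfl⟩ := pg_word_even P hg
  exact cw_red P w hw

/-- a reduced even word without the letter `k` is a power of the cuff `k` -/
theorem cw_two_letters (P : Fin G.V) (k : Fin 3) : ∀ (w : List (Fin 3)), Even w.length →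
    List.IsChain (· ≠ ·) w → k ∉ w → ∃ n : ℤ, cw P w = G.cuff (P, k) ^ n
  | [], _, _, _ => ⟨0, by rw [cw_nil, zpow_zero]⟩
  | [_], hv, _, _ => by simp at hv
  | i :: j :: v, hv, hch, hk => by
    have hv' : Even v.length := by
      have h : Even (v.length + 2) := hv
      simpa [Nat.even_add] using h
    have hij := (List.isChain_cons_cons.1 hch).1
    have hjv := (List.isChain_cons_cons.1 hch).2
    have hki : k ≠ i := fun h => hk (by simp [h])
    have hkj : k ≠ j := fun h => hk (by simp [h])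
    have hkv : k ∉ v := fun h => hk (by simp [h])
    obtain ⟨n, hn⟩ := cw_two_letters P k v hv' hjv.tail hkv
    rcases f3c k i j hij hki hkj with ⟨rfl, rfl⟩ | ⟨rfl, rfl⟩
    · have h1 := cc_succ P (k + 1)
      rw [f3a, f3b] at h1
      refine ⟨1 + n, ?_⟩
      rw [cw_cons_cons, hn, h1, zpow_add, zpow_one]
    · have h1 := cc_succ_symm P (k + 1)
      rw [f3a, f3b] at h1
      refine ⟨-1 + n, ?_⟩
      rw [cw_cons_cons, hn, h1, zpow_add, zpow_neg_one]

end PantsGraph

end Pool.Agent.DC
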