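import Pool.Agent.DC.D.Short
import Pool.Agent.DC.D.FNExists
import Pool.Agent.DC.D.TLen

/-!
# Project DC, D4: cuffs are primitive and pairwise non conjugate (helper4)
-/

open scoped ENNReal UpperHalfPlane Matrix ContDiff
open MeasureTheory Set

set_option linter.unusedVariables false

namespace Pool.Agent.DC

namespace PantsGraph
variable {G : PantsGraph}

theorem cosh_inj_abs {a b : ℝ} (h : 2 * Real.cosh a = 2 * Real.cosh b) : |a| = |b| := by
  have h1 : Real.cosh a = Real.cosh b := by linarith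
  rw [← Real.cosh_abs a, ← Real.cosh_abs b] at h1
  have h2 := congrArg Real.arcosh h1
  rwa [Real.arcosh_cosh (abs_nonneg _), Real.arcosh_cosh (abs_nonneg _)] at h2

/-- lengths of conjugate powers of cuffs agree for every hyperbolic structure -/
theorem len_of_conj (x : G.Teich) (e f : Fin G.d) (w : G.PathGroup) (k l : ℤ)
    (h : G.cuff (G.side e false) ^ k = w * G.cuff (G.side f false) ^ l * w⁻¹) :
    |(k : ℝ)| * len x e = |(l : ℝ)| * len x f := by
  obtain ⟨F, _, _⟩ := exists_FN_smooth G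
  have h1 := (F x).trace_cuff_side e false k
  have h2 := (F x).trace_cuff_side f false l
  have h3 : ((F x).hol (G.cuff (G.side e false) ^ k) : M2).trace =
      ((F x).hol (G.cuff (G.side f false) ^ l) : M2).trace := by
    rw [h, map_mul, map_mul, map_inv, trace_conj]
  rw [h3] at h1
  have h4 := cosh_inj_abs (h1.symm.trans h2)
  rw [abs_div, abs_div, abs_mul, abs_mul] at h4
  have e1 : |len x e| = len x e := abs_of_pos (Real.exp_pos _)
  have e2 : |len x f| = len x f := abs_of_pos (Real.exp_pos _)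
  rw [e1, e2] at h4
  have e3 : |(2 : ℝ)| = 2 := abs_of_pos (by norm_num)
  rw [e3] at h4
  linarith

theorem cuff_not_conj {e f : Fin G.d} (hef : e ≠ f) (w : G.PathGroup) (k l : ℤ) (hl : l ≠ 0) :
    G.cuff (G.side e false) ^ k ≠ w * G.cuff (G.side f false) ^ l * w⁻¹ := by
  intro h
  have h1 := len_of_conj (0 : G.Teich) e f w k l h
  have h2 := len_of_conj (EuclideanSpace.single (Fin.castAdd G.d e) (1 : ℝ)) e f w k l h
  have a1 : len (0 : G.Teich) e = 1 := by simp [len]
  have a2 : len (0 : G.Teich) f = 1 := by simp [len]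
  have b1 : len (EuclideanSpace.single (Fin.castAdd G.d e) (1 : ℝ) : G.Teich) e = Real.exp 1 := by
    simp [len]
  have b2 : len (EuclideanSpace.single (Fin.castAdd G.d e) (1 : ℝ) : G.Teich) f = 1 := by
    have hne : Fin.castAdd G.d f ≠ Fin.castAdd G.d e := by
      intro h
      exact hef (Fin.castAdd_injective _ _ h).symm
    simp [len, hne]
  rw [a1, a2, mul_one, mul_one] at h1
  rw [b1, b2, mul_one, h1] at h2
  have h3 : (0 : ℝ) < |(l : ℝ)| := abs_pos.2 (by exact_mod_cast hl)
  have h4 : (1 : ℝ) < Real.exp 1 := by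
    have := Real.add_one_lt_exp (x := 1) one_ne_zero
    linarith
  nlinarith

theorem cuff_pow_conj (e : Fin G.d) (w : G.PathGroup) (k l : ℤ)
    (h : G.cuff (G.side e false) ^ k = w * G.cuff (G.side e false) ^ l * w⁻¹) : |k| = |l| := by
  have h1 := len_of_conj (0 : G.Teich) e e w k l h
  have a1 : len (0 : G.Teich) e = 1 := by simp [len]
  rw [a1, mul_one, mul_one] at h1
  exact_mod_cast h1

/-- cuffs are primitive in the group of closed paths -/
theorem cuff_primitive (e : Fin G.d) (P : Fin G.V) (w u : G.PathGroup)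
    (hw : G.IsPath P (G.side e false).1 w) (hu : G.IsPath P P u) (k : ℤ)
    (h : w * G.cuff (G.side e false) * w⁻¹ = u ^ k) : k = 1 ∨ k = -1 := by
  obtain ⟨F', _, _⟩ := exists_FN_smooth G
  have hlen : ∀ e', len (0 : G.Teich) e' = 1 := fun e' => by simp [len]
  set F := F' (0 : G.Teich) with hF
  have h1 := F.trace_cuff_side e false 1
  rw [hlen, zpow_one, Int.cast_one, one_mul] at h1
  have h2 : ((F.hol u ^ k : SL2) : M2).trace = (F.hol (G.cuff (G.side e false)) : M2).trace := by
    rw [← map_zpow, ← h, map_mul, map_mul, map_inv, trace_conj]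
  rw [← h2] at h1
  have hc : (1 : ℝ) < Real.cosh (1 / 2) := by
    rw [Real.one_lt_cosh]
    norm_num
  obtain ⟨h3, h4⟩ := hyp_of_zpow (g := F.hol u) (k := k) (by rw [h1]; linarith)
  have h5 := (tl_zpow h3.le k).2
  rw [tl_of_cosh h1, abs_one] at h5
  have hk1 : (1 : ℝ) ≤ |(k : ℝ)| := by
    have : (1 : ℤ) ≤ |k| := Int.one_le_abs h4
    exact_mod_cast this
  have h6 := tl_nonneg h3.le
  have h7 : tl (F.hol u) ≤ 1 := by nlinarith
  have h8 : (F.hol u : M2).trace ^ 2 < 8 := by
    rw [← sq_abs, trace_eq_cosh h3.le]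
    have h9 : Real.cosh (tl (F.hol u) / 2) ≤ Real.cosh (1 / 2) := by
      rw [Real.cosh_le_cosh, abs_of_nonneg (by linarith), abs_of_nonneg (by norm_num)]
      linarith
    have h10 : Real.cosh (1 / 2) ≤ 5 / 4 := by
      have hb := Real.cosh_le_exp_half_sq (1 / 2)
      have he : Real.exp ((1 / 2) ^ 2 / 2) ≤ 5 / 4 := by
        have : Real.exp ((1 / 2 : ℝ) ^ 2 / 2) ≤ 1 / (1 - (1 / 2 : ℝ) ^ 2 / 2) := by
          have h11 := Real.one_sub_le_exp_neg ((1 / 2 : ℝ) ^ 2 / 2)
          rw [Real.exp_neg] at h11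
          rw [le_div_iff₀ (by norm_num)]
          have h12 := Real.exp_pos ((1 / 2 : ℝ) ^ 2 / 2)
          calc Real.exp ((1 / 2 : ℝ) ^ 2 / 2) * (1 - (1 / 2 : ℝ) ^ 2 / 2)
              ≤ Real.exp ((1 / 2 : ℝ) ^ 2 / 2) * (Real.exp ((1 / 2 : ℝ) ^ 2 / 2))⁻¹ :=
                mul_le_mul_of_nonneg_left h11 h12.le
            _ = 1 := mul_inv_cancel₀ h12.ne'
        refine this.trans ?_
        norm_num
      exact hb.trans he
    have h11 := Real.cosh_pos (tl (F.hol u) / 2)
    nlinarith
  obtain ⟨f, v, l, _, hv⟩ := F.short_curve (fun e' => (hlen e').le) P u hu h3 h8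
  have hl : l ≠ 0 := by
    rintro rfl
    rw [zpow_zero, mul_one, mul_inv_cancel] at hv
    rw [hv, map_one] at h3
    simp at h3
  have h12 : G.cuff (G.side e false) ^ (1 : ℤ) =
      (w⁻¹ * v) * G.cuff (G.side f false) ^ (l * k) * (w⁻¹ * v)⁻¹ := by
    have h13 : u ^ k = v * G.cuff (G.side f false) ^ (l * k) * v⁻¹ := by
      rw [hv, ← MulAut.conj_apply, ← map_zpow, MulAut.conj_apply, zpow_mul]
    rw [h13] at h
    have h14 : G.cuff (G.side e false) = w⁻¹ * (w * G.cuff (G.side e false) * w⁻¹) * w := by group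
    rw [zpow_one, h14, h]
    group
  by_cases hef : e = f
  · subst hef
    have h13 := cuff_pow_conj e _ _ _ h12
    rw [abs_one, abs_mul] at h13
    have h14 : |k| = 1 := by
      have h15 : |k| ∣ 1 := ⟨|l|, by rw [h13]; ring⟩
      exact Int.eq_one_of_dvd_one (abs_nonneg _) h15
    rcases abs_eq (by norm_num : (0 : ℤ) ≤ 1) |>.1 h14 with h15 | h15
    · exact Or.inl h15
    · exact Or.inr h15
  · exact absurd h12 (cuff_not_conj hef _ _ _ (mul_ne_zero hl h4))

end PantsGraph

end Pool.Agent.DC
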