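import Pool.Agent.DC.D.Passage
import Pool.Agent.DC.D.CycReduce
import Pool.Agent.DC.D.CycTrace
import Pool.Agent.DC.D.PantsCyc

/-!
# Project DC, block D: the short curve lemma
-/

open scoped ENNReal UpperHalfPlane Matrix ContDiff
open MeasureTheory Set

namespace Pool.Agent.DC

namespace PantsGraph
variable {G : PantsGraph}

theorem short_trace_conj (g h : SL2) :
    ((g * h * g⁻¹ : SL2) : M2).trace = (h : M2).trace := by
  have h1 : ((g * h * g⁻¹ : SL2) : M2) = ((g : M2) * (h : M2)) * ((g⁻¹ : SL2) : M2) := by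
    rw [Matrix.SpecialLinearGroup.coe_mul, Matrix.SpecialLinearGroup.coe_mul]
  have h2 : ((g⁻¹ : SL2) : M2) * (g : M2) = 1 := by
    rw [← Matrix.SpecialLinearGroup.coe_mul, inv_mul_cancel, Matrix.SpecialLinearGroup.coe_one]
  rw [h1, Matrix.trace_mul_comm, ← Matrix.mul_assoc, h2, Matrix.one_mul]

/-- the element of a periodic word with two letters -/
theorem short_cw_replicate (P : Fin G.V) (i j : Fin 3) (n : ℕ) :
    cw (G := G) P (List.replicate n [i, j]).flatten = cc P i j ^ n := by
  induction n with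
  | zero => simp [cw]
  | succ n ih =>
    rw [List.replicate_succ, List.flatten_cons, pow_succ']
    show cc P i j * cw P (List.replicate n [i, j]).flatten = _
    rw [ih]

theorem short_cc_pow (P : Fin G.V) (i j : Fin 3) (hij : i ≠ j) (n : ℕ) :
    ∃ (k : Fin 3) (m : ℤ), cc (G := G) P i j ^ n = G.cuff (P, k) ^ m := by
  have h : j = i + 1 ∨ i = j + 1 := by
    revert hij
    fin_cases i <;> fin_cases j <;> simp
  by_cases h1 : j = i + 1
  · refine ⟨i + 2, n, ?_⟩
    rw [cc, if_pos h1, zpow_natCast]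
  · have h2 : i = j + 1 := h.resolve_left h1
    refine ⟨j + 2, -n, ?_⟩
    rw [cc, if_neg h1, if_pos h2, zpow_neg, zpow_natCast, inv_pow]

theorem short_conj_zpow (v c : G.PathGroup) (w e : G.PathGroup) (n : ℤ)
    (h : c = e⁻¹ * w⁻¹ * e) : v * c ^ n * v⁻¹ = (v * e⁻¹) * w ^ (-n) * (v * e⁻¹)⁻¹ := by
  have h1 : c = e⁻¹ * w⁻¹ * (e⁻¹)⁻¹ := by rw [inv_inv]; exact h
  rw [h1, conj_zpow, inv_zpow, zpow_neg]
  group

namespace FN
variable {x : G.Teich} (F : FN x)

/-- elements of pants groups: powers of cuffs or long -/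
theorem pg_short (P : Fin G.V) (p : G.PathGroup) (hp : p ∈ PG P) :
    8 ≤ (F.hol p : M2).trace ^ 2 ∨
    ∃ (v : G.PathGroup) (i : Fin 3) (n : ℤ), v ∈ PG P ∧ p = v * G.cuff (P, i) ^ n * v⁻¹ := by
  obtain ⟨v, hv, w, hev, hch, hcyc, he⟩ := pg_cyc_word P hp
  obtain ⟨H, hs, -⟩ := F.exists_hex P
  rcases H.cyc_trace w hev hch hcyc with h | h | ⟨i, j, n, hij, h⟩
  · left
    rw [he, map_mul, map_mul, map_inv, short_trace_conj, F.hol_cw P H hs w hev]
    exact h
  · right
    refine ⟨v, 0, 0, hv, ?_⟩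
    rw [he, h, zpow_zero]
    rfl
  · right
    obtain ⟨k, m, hk⟩ := short_cc_pow (G := G) P i j hij n
    refine ⟨v, k, m, hv, ?_⟩
    rw [he, h, short_cw_replicate, hk]

/-- THE SHORT CURVE LEMMA -/
theorem short_curve (hx : ∀ e, len x e ≤ 1) (P : Fin G.V) (u : G.PathGroup) (hu : G.IsPath P P u)
    (h1 : 2 < |(F.hol u : M2).trace|) (h2 : (F.hol u : M2).trace ^ 2 < 8) :
    ∃ (e : Fin G.d) (w : G.PathGroup) (k : ℤ), G.IsPath P (G.side e false).1 w ∧
      u = w * G.cuff (G.side e false) ^ k * w⁻¹ := by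
  rcases cyc_reduce P u hu with ⟨Q, v, p, hv, hp, he⟩ | ⟨c, v, hv, he⟩
  · have htr : (F.hol u : M2).trace = (F.hol p : M2).trace := by
      rw [he, map_mul, map_mul, map_inv, short_trace_conj]
    rcases F.pg_short Q p hp with h | ⟨v', i, n, hv', hp'⟩
    · rw [htr] at h2
      exact absurd h (not_le.2 h2)
    · have hw : G.IsPath P Q (v * v') := hv.mul (isPath_pg Q hv')
      have hu' : u = (v * v') * G.cuff (Q, i) ^ n * (v * v')⁻¹ := by
        rw [he, hp', mul_inv_rev]
        simp only [mul_assoc]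
      obtain ⟨t, ht⟩ := G.bij.2 (Q, i)
      rcases t with ⟨e, b⟩ | j
      · have ht' : G.side e b = (Q, i) := ht
        cases b with
        | false =>
          refine ⟨e, v * v', n, ?_, ?_⟩
          · rw [ht']; exact hw
          · rw [ht']; exact hu'
        | true =>
          have hpath : G.IsPath P (G.side e false).1 (v * v' * (G.edge e)⁻¹) := by
            refine IsPath.edgeInv e ?_
            rw [ht']; exact hw
          refine ⟨e, v * v' * (G.edge e)⁻¹, -n, hpath, ?_⟩
          rw [hu', ← ht']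
          refine short_conj_zpow (v * v') _ _ _ n ?_
          have hr := edge_rel (G := G) e
          have h3 : G.edge e * G.cuff (G.side e true) * (G.edge e)⁻¹ =
              (G.cuff (G.side e false))⁻¹ := mul_eq_one_iff_eq_inv.1 hr
          rw [← h3]
          group
      · have ht' : G.puncture j = (Q, i) := ht
        exfalso
        have h3 : (F.hol u : M2).trace = (F.hol (G.cuff (G.puncture j) ^ n) : M2).trace := by
          rw [hu', ht', map_mul, map_mul, map_inv, short_trace_conj]
        rw [h3, F.trace_cuff_puncture j n] at h1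
        exact lt_irrefl _ h1
  · exfalso
    have htr : (F.hol u : M2).trace = (F.hol (c.w c.r) : M2).trace := by
      rw [he, map_mul, map_mul, map_inv, short_trace_conj]
    rw [htr] at h2
    exact absurd (F.cyc_long hx c) (not_le.2 h2)

end FN

end PantsGraph

end Pool.Agent.DC
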