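import Pool.Agent.DC.D.StdHex

/-!
# Project DC, block D, row D16: explicit frames
-/

open scoped ENNReal UpperHalfPlane Matrix ContDiff
open MeasureTheory Set

namespace Pool.Agent.DC

/-- frame: first column a `+1` eigenvector of `Z`, second column its mirror image by `s` -/
noncomputable def frameM (s Z : M2) : M2 :=
  let w0 := s 0 0 * (1 + Z 0 0) + s 0 1 * Z 1 0
  let w1 := s 1 0 * (1 + Z 0 0) + s 1 1 * Z 1 0
  let δ := (1 + Z 0 0) * w1 - Z 1 0 * w0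
  (Real.sqrt |δ|)⁻¹ • !![1 + Z 0 0, (δ / |δ|) * w0; Z 1 0, (δ / |δ|) * w1]

/-- the entries of the conditions -/
theorem frame_entries {s Z : M2} (hs : s.trace = 0) (hss : ip s s = 1) (hZ : Z.trace = 0)
    (hZZ : ip Z Z = 1) (hsZ : ip s Z = 0) :
    s 1 1 = -s 0 0 ∧ Z 1 1 = -Z 0 0 ∧ s 0 0 ^ 2 + s 0 1 * s 1 0 = 1 ∧
      Z 0 0 ^ 2 + Z 0 1 * Z 1 0 = 1 ∧
      2 * (s 0 0 * Z 0 0) + s 0 1 * Z 1 0 + s 1 0 * Z 0 1 = 0 := by
  rw [Matrix.trace_fin_two] at hs hZ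
  have h1 : s 1 1 = -s 0 0 := by linarith
  have h2 : Z 1 1 = -Z 0 0 := by linarith
  simp only [ip, Matrix.trace_fin_two, Matrix.mul_apply, Fin.sum_univ_two, h1, h2] at hss hZZ hsZ
  exact ⟨h1, h2, by linarith, by linarith, by linarith⟩

/-- the determinant of the two eigenvectors is not zero -/
theorem frame_delta_ne {s Z : M2} (hs : s.trace = 0) (hss : ip s s = 1) (hZ : Z.trace = 0)
    (hZZ : ip Z Z = 1) (hsZ : ip s Z = 0) (h : Z 1 0 ≠ 0) :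
    (1 + Z 0 0) * (s 1 0 * (1 + Z 0 0) + s 1 1 * Z 1 0) -
      Z 1 0 * (s 0 0 * (1 + Z 0 0) + s 0 1 * Z 1 0) ≠ 0 := by
  obtain ⟨h1, h2, h3, h4, h5⟩ := frame_entries hs hss hZ hZZ hsZ
  rw [h1]
  generalize s 0 0 = a at *
  generalize s 0 1 = b at *
  generalize s 1 0 = c at *
  generalize Z 0 0 = p at *
  generalize Z 0 1 = q at *
  generalize Z 1 0 = r at *
  intro h0
  -- `w = lam v`
  have hw1 : c * (1 + p) + -a * r = 0 := by
    -- `Z w = -w` and `w` parallel to `v`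
    have e1 : r * (a * (1 + p) + b * r) + -p * (c * (1 + p) + -a * r) =
        -(c * (1 + p) + -a * r) := by
      linear_combination r * h5 - c * h4
    have e2 : r * (r * (a * (1 + p) + b * r)) = (1 + p) * (r * (c * (1 + p) + -a * r)) := by
      linear_combination (-r) * h0
    have e3 : r * (c * (1 + p) + -a * r) = 0 := by
      linear_combination (1 / 2 : ℝ) * r * e1 - (1 / 2 : ℝ) * e2
    rcases mul_eq_zero.1 e3 with h6 | h6
    · exact absurd h6 h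
    · exact h6
  have hw0 : a * (1 + p) + b * r = 0 := by
    have : r * (a * (1 + p) + b * r) = 0 := by rw [hw1] at h0; linarith
    rcases mul_eq_zero.1 this with h6 | h6
    · exact absurd h6 h
    · exact h6
  apply h
  -- `r = c w0 - a w1`
  linear_combination (-r) * h3 + c * hw0 - a * hw1

theorem frameM_spec (s Z : M2) (hs : s.trace = 0) (hss : ip s s = 1) (hZ : Z.trace = 0)
    (hZZ : ip Z Z = 1) (hsZ : ip s Z = 0) (h : Z 1 0 ≠ 0) :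
    (frameM s Z).det = 1 ∧ Z * frameM s Z = frameM s Z * !![1, 0; 0, -1] ∧
    ∃ ε : ℝ, (ε = 1 ∨ ε = -1) ∧ s * frameM s Z = ε • (frameM s Z * !![0, 1; 1, 0]) := by
  have hδ := frame_delta_ne hs hss hZ hZZ hsZ h
  obtain ⟨h1, h2, h3, h4, h5⟩ := frame_entries hs hss hZ hZZ hsZ
  set δ := (1 + Z 0 0) * (s 1 0 * (1 + Z 0 0) + s 1 1 * Z 1 0) -
      Z 1 0 * (s 0 0 * (1 + Z 0 0) + s 0 1 * Z 1 0) with hδdef
  set k := (Real.sqrt |δ|)⁻¹ with hk
  have hk2 : k * k * |δ| = 1 := by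
    have hp : 0 < |δ| := abs_pos.2 hδ
    have : Real.sqrt |δ| * Real.sqrt |δ| = |δ| := Real.mul_self_sqrt hp.le
    have hsq : Real.sqrt |δ| ≠ 0 := (Real.sqrt_pos.2 hp).ne'
    rw [hk]
    field_simp
    linarith [this, sq (Real.sqrt |δ|)]
  set σ := δ / |δ| with hσ
  have hσδ : σ * δ = |δ| := by
    rw [hσ]
    have hp : |δ| ≠ 0 := (abs_pos.2 hδ).ne'
    field_simp
    rw [sq_abs]
  have hσ1 : σ = 1 ∨ σ = -1 := by
    rcases lt_or_gt_of_ne hδ with hlt | hgt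
    · right; rw [hσ, abs_of_neg hlt, div_neg, div_self hδ]
    · left; rw [hσ, abs_of_pos hgt, div_self hδ]
  have hσσ : σ * σ = 1 := by rcases hσ1 with h | h <;> rw [h] <;> norm_num
  have hF : frameM s Z = k • !![1 + Z 0 0, σ * (s 0 0 * (1 + Z 0 0) + s 0 1 * Z 1 0);
      Z 1 0, σ * (s 1 0 * (1 + Z 0 0) + s 1 1 * Z 1 0)] := rfl
  refine ⟨?_, ?_, σ, hσ1, ?_⟩
  · rw [hF, Matrix.det_smul, Matrix.det_fin_two_of, Fintype.card_fin]
    have : k ^ 2 * ((1 + Z 0 0) * (σ * (s 1 0 * (1 + Z 0 0) + s 1 1 * Z 1 0)) -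
        σ * (s 0 0 * (1 + Z 0 0) + s 0 1 * Z 1 0) * Z 1 0) = k * k * (σ * δ) := by
      rw [hδdef]; ring
    rw [this, hσδ, hk2]
  · rw [hF, Matrix.mul_smul, Matrix.smul_mul]
    congr 1
    ext i j
    fin_cases i <;> fin_cases j <;>
      simp [Matrix.mul_apply, Fin.sum_univ_two, h1, h2]
    · linear_combination h4
    · linear_combination σ * (1 + Z 0 0) * h5 - σ * s 0 0 * h4
    · ring
    · linear_combination σ * Z 1 0 * h5 - σ * s 1 0 * h4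
  · rw [hF, Matrix.mul_smul, Matrix.smul_mul, smul_comm σ k]
    congr 1
    ext i j
    fin_cases i <;> fin_cases j <;>
      simp [Matrix.mul_apply, Fin.sum_univ_two, h1]
    · linear_combination (-(s 0 0 * (1 + Z 0 0) + s 0 1 * Z 1 0)) * hσσ
    · linear_combination σ * (1 + Z 0 0) * h3
    · linear_combination (-(s 1 0 * (1 + Z 0 0) - s 0 0 * Z 1 0)) * hσσ
    · linear_combination σ * Z 1 0 * h3

theorem frameM_smooth (a b : Fin 2) {W : Type} [NormedAddCommGroup W] [NormedSpace ℝ W]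
    (s Z : W → M2) (hs : ∀ i j, ContDiff ℝ ∞ fun x => s x i j)
    (hZ : ∀ i j, ContDiff ℝ ∞ fun x => Z x i j)
    (h0 : ∀ x, (s x).trace = 0 ∧ ip (s x) (s x) = 1 ∧ (Z x).trace = 0 ∧ ip (Z x) (Z x) = 1 ∧
      ip (s x) (Z x) = 0 ∧ Z x 1 0 ≠ 0) :
    ContDiff ℝ ∞ fun x => frameM (s x) (Z x) a b := by
  have hv : ContDiff ℝ ∞ fun x => 1 + Z x 0 0 := contDiff_const.add (hZ 0 0)
  have hw0 : ContDiff ℝ ∞ fun x => s x 0 0 * (1 + Z x 0 0) + s x 0 1 * Z x 1 0 :=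
    ((hs 0 0).mul hv).add ((hs 0 1).mul (hZ 1 0))
  have hw1 : ContDiff ℝ ∞ fun x => s x 1 0 * (1 + Z x 0 0) + s x 1 1 * Z x 1 0 :=
    ((hs 1 0).mul hv).add ((hs 1 1).mul (hZ 1 0))
  have hδ : ContDiff ℝ ∞ fun x => (1 + Z x 0 0) * (s x 1 0 * (1 + Z x 0 0) + s x 1 1 * Z x 1 0) -
      Z x 1 0 * (s x 0 0 * (1 + Z x 0 0) + s x 0 1 * Z x 1 0) :=
    (hv.mul hw1).sub ((hZ 1 0).mul hw0)
  have hδ0 : ∀ x, (1 + Z x 0 0) * (s x 1 0 * (1 + Z x 0 0) + s x 1 1 * Z x 1 0) -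
      Z x 1 0 * (s x 0 0 * (1 + Z x 0 0) + s x 0 1 * Z x 1 0) ≠ 0 := fun x =>
    frame_delta_ne (h0 x).1 (h0 x).2.1 (h0 x).2.2.1 (h0 x).2.2.2.1 (h0 x).2.2.2.2.1
      (h0 x).2.2.2.2.2
  have habs : ContDiff ℝ ∞ fun x =>
      |(1 + Z x 0 0) * (s x 1 0 * (1 + Z x 0 0) + s x 1 1 * Z x 1 0) -
        Z x 1 0 * (s x 0 0 * (1 + Z x 0 0) + s x 0 1 * Z x 1 0)| := hδ.abs hδ0
  have habs0 : ∀ x, |(1 + Z x 0 0) * (s x 1 0 * (1 + Z x 0 0) + s x 1 1 * Z x 1 0) -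
        Z x 1 0 * (s x 0 0 * (1 + Z x 0 0) + s x 0 1 * Z x 1 0)| ≠ 0 := fun x =>
    (abs_pos.2 (hδ0 x)).ne'
  have hk := (habs.sqrt habs0).inv fun x => (Real.sqrt_pos.2 (abs_pos.2 (hδ0 x))).ne'
  have hσ := hδ.div habs habs0
  fin_cases a <;> fin_cases b
  · exact hk.mul hv
  · exact hk.mul (hσ.mul hw0)
  · exact hk.mul (hZ 1 0)
  · exact hk.mul (hσ.mul hw1)

/-- how the frame is used -/
theorem dil_frame (N : SL2) (Z : M2) (l : ℝ) (h : Z * (N : M2) = (N : M2) * !![1, 0; 0, -1]) :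
    ((N * dil l * N⁻¹ : SL2) : M2) = Real.cosh (l / 2) • (1 : M2) + Real.sinh (l / 2) • Z := by
  have h1 : ((dil l : SL2) : M2) = Real.cosh (l / 2) • (1 : M2) +
      Real.sinh (l / 2) • !![1, 0; 0, -1] := by
    rw [dil_coe]
    ext i j
    fin_cases i <;> fin_cases j <;> simp [Real.cosh_eq, Real.sinh_eq] <;> ring
  have h2 : (N : M2) * ((N⁻¹ : SL2) : M2) = 1 := by
    rw [← Matrix.SpecialLinearGroup.coe_mul, mul_inv_cancel, Matrix.SpecialLinearGroup.coe_one]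
  rw [Matrix.SpecialLinearGroup.coe_mul, Matrix.SpecialLinearGroup.coe_mul, h1, mul_add, add_mul,
    Matrix.mul_smul, Matrix.mul_smul, Matrix.smul_mul, Matrix.smul_mul, mul_one, h2, ← h,
    Matrix.mul_assoc, h2, mul_one]

end Pool.Agent.DC
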