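import Pool.Agent.DC.D.Causal

/-!
# Project DC, D7: an explicit hexagon with given side lengths (helper4)
-/

open scoped ENNReal UpperHalfPlane Matrix ContDiff
open MeasureTheory Set

set_option linter.unusedSimpArgs false

namespace Pool.Agent.DC

/-- explicit hexagon with smooth dependence -/
noncomputable def stdS (C : Fin 3 → ℝ) : Fin 3 → M2 :=
  ![!![1, 0; 0, -1],
    !![-C 2, -(C 2 - 1); C 2 + 1, C 2],
    !![-C 1, -((C 0 + C 1 * C 2 + Real.sqrt (C 0 ^ 2 + C 1 ^ 2 + C 2 ^ 2 + 2 * C 0 * C 1 * C 2 - 1)) / (C 2 + 1));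
      (C 2 + 1) * (C 1 ^ 2 - 1) / (C 0 + C 1 * C 2 + Real.sqrt (C 0 ^ 2 + C 1 ^ 2 + C 2 ^ 2 + 2 * C 0 * C 1 * C 2 - 1)), C 1]]

theorem std_delta_pos (C : Fin 3 → ℝ) (hC : ∀ i, 1 ≤ C i) :
    0 < C 0 ^ 2 + C 1 ^ 2 + C 2 ^ 2 + 2 * C 0 * C 1 * C 2 - 1 := by
  have h0 := hC 0
  have h1 := hC 1
  have h2 := hC 2
  have h3 : 0 ≤ C 0 * C 1 * C 2 := by positivity
  nlinarith

theorem std_pack (C : Fin 3 → ℝ) (hC : ∀ i, 1 ≤ C i) : ∃ r W g b : ℝ, 0 < r ∧ 0 < W ∧ 0 ≤ g ∧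
    0 < b ∧ W = C 0 + C 1 * C 2 + r ∧ (C 2 - 1) * g = C 0 + C 1 * C 2 - r ∧ (C 2 + 1) * b = W ∧
    b * g = C 1 ^ 2 - 1 ∧ W * g = (C 2 + 1) * (C 1 ^ 2 - 1) ∧
    stdS C = ![!![1, 0; 0, -1], !![-C 2, -(C 2 - 1); C 2 + 1, C 2], !![-C 1, -b; g, C 1]] := by
  have h0 := hC 0
  have h1 := hC 1
  have h2 := hC 2
  have hD := std_delta_pos C hC
  set D := C 0 ^ 2 + C 1 ^ 2 + C 2 ^ 2 + 2 * C 0 * C 1 * C 2 - 1 with hDdef
  have hr : 0 < Real.sqrt D := Real.sqrt_pos.2 hD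
  have hrr : Real.sqrt D * Real.sqrt D = D := Real.mul_self_sqrt hD.le
  set r := Real.sqrt D with hrdef
  have h12 : 0 ≤ C 1 * C 2 := by positivity
  have hW : 0 < C 0 + C 1 * C 2 + r := by linarith
  have h21 : 0 < C 2 + 1 := by linarith
  refine ⟨r, C 0 + C 1 * C 2 + r, (C 2 + 1) * (C 1 ^ 2 - 1) / (C 0 + C 1 * C 2 + r),
    (C 0 + C 1 * C 2 + r) / (C 2 + 1), hr, hW, ?_, by positivity, rfl, ?_, ?_, ?_, ?_, rfl⟩
  · apply div_nonneg _ hW.le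
    apply mul_nonneg h21.le
    nlinarith
  · rw [← mul_div_assoc, div_eq_iff hW.ne']
    have e1 : (C 0 + C 1 * C 2 - r) * (C 0 + C 1 * C 2 + r) =
      (C 0 + C 1 * C 2) ^ 2 - D := by rw [← hrr]; ring
    rw [e1, hDdef]
    ring
  · rw [mul_div_assoc', mul_comm, mul_div_assoc, div_self h21.ne', mul_one]
  · rw [div_mul_div_comm, div_eq_iff (by positivity)]
    ring
  · rw [mul_div_assoc', mul_comm, mul_div_assoc, div_self hW.ne', mul_one]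

/-- the explicit matrices form a hexagon -/
theorem stdS_hex (C : Fin 3 → ℝ) (hC : ∀ i, 1 ≤ C i) : ∃ H : Hex, H.s = stdS C ∧ H.C = C := by
  obtain ⟨r, W, g, b, hr, hW, hg, hb, e1, e2, e3, e4, e5, e6⟩ := std_pack C hC
  have h0 := hC 0
  have h1 := hC 1
  have h2 := hC 2
  refine ⟨⟨C, hC, stdS C, ?_, ?_, ?_, ?_, ?_⟩, rfl, rfl⟩
  · intro i
    rw [e6]
    fin_cases i <;> simp [Matrix.trace_fin_two]
  · intro i
    rw [e6]
    fin_cases i
    · simp [Matrix.det_fin_two]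
    · simp [Matrix.det_fin_two]; ring
    · simp [Matrix.det_fin_two]; linarith
  · intro i
    rw [e6]
    fin_cases i
    · show (!![-C 2, -(C 2 - 1); C 2 + 1, C 2] * !![-C 1, -b; g, C 1] : M2).trace = -2 * C 0
      simp [Matrix.trace_fin_two, Matrix.mul_apply, Fin.sum_univ_two]
      linarith
    · show (!![-C 1, -b; g, C 1] * !![1, 0; 0, -1] : M2).trace = -2 * C 1
      simp [Matrix.trace_fin_two, Matrix.mul_apply, Fin.sum_univ_two]
      ring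
    · show (!![1, 0; 0, -1] * !![-C 2, -(C 2 - 1); C 2 + 1, C 2] : M2).trace = -2 * C 2
      simp [Matrix.trace_fin_two, Matrix.mul_apply, Fin.sum_univ_two]
      ring
  · rw [e6]
    show 0 < (!![1, 0; 0, -1] * !![-C 2, -(C 2 - 1); C 2 + 1, C 2] * !![-C 1, -b; g, C 1] : M2).trace
    simp [Matrix.trace_fin_two, Matrix.mul_apply, Fin.sum_univ_two]
    linarith
  · rw [e6]
    show 0 < (!![1, 0; 0, -1] + !![-C 2, -(C 2 - 1); C 2 + 1, C 2] + !![-C 1, -b; g, C 1] : M2) 1 0 -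
      (!![1, 0; 0, -1] + !![-C 2, -(C 2 - 1); C 2 + 1, C 2] + !![-C 1, -b; g, C 1] : M2) 0 1
    simp
    linarith

/-- the axes of the cuffs do not end at `∞` -/
theorem stdS_ne (C : Fin 3 → ℝ) (hC : ∀ i, 1 ≤ C i) (i : Fin 3) (hi : 1 < C i) :
    (stdS C (i + 1) * stdS C (i + 2)) 1 0 ≠ 0 := by
  obtain ⟨r, W, g, b, hr, hW, hg, hb, e1, e2, e3, e4, e5, e6⟩ := std_pack C hC
  have h0 := hC 0
  have h1 := hC 1
  have h2 := hC 2
  rw [e6]
  fin_cases i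
  · show (!![-C 2, -(C 2 - 1); C 2 + 1, C 2] * !![-C 1, -b; g, C 1] : M2) 1 0 ≠ 0
    simp [Matrix.mul_apply, Fin.sum_univ_two]
    intro h
    have e7 : W * (C 2 * g) = W * ((C 2 + 1) * C 1) := by
      have : C 2 * g = (C 2 + 1) * C 1 := by linarith
      rw [this]
    have e8 : W * (C 2 * g) = C 2 * ((C 2 + 1) * (C 1 ^ 2 - 1)) := by rw [← e5]; ring
    rw [e8, e1] at e7
    have e9 : (C 2 + 1) * (C 2 * (C 1 ^ 2 - 1)) = (C 2 + 1) * ((C 0 + C 1 * C 2 + r) * C 1) := by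
      linarith
    have e10 : C 2 * (C 1 ^ 2 - 1) = (C 0 + C 1 * C 2 + r) * C 1 :=
      mul_left_cancel₀ (by linarith : C 2 + 1 ≠ 0) e9
    have e11 : 0 < C 0 * C 1 := by positivity
    have e12 : 0 < r * C 1 := by positivity
    nlinarith
  · show (!![-C 1, -b; g, C 1] * !![1, 0; 0, -1] : M2) 1 0 ≠ 0
    simp [Matrix.mul_apply, Fin.sum_univ_two]
    intro h
    have hi' : 1 < C 1 := hi
    rw [h, mul_zero] at e4
    nlinarith
  · show (!![1, 0; 0, -1] * !![-C 2, -(C 2 - 1); C 2 + 1, C 2] : M2) 1 0 ≠ 0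
    simp [Matrix.mul_apply, Fin.sum_univ_two]
    intro h
    linarith

theorem stdS_smooth (i : Fin 3) (a b : Fin 2) {W : Type} [NormedAddCommGroup W] [NormedSpace ℝ W]
    (C : W → Fin 3 → ℝ) (hC : ∀ x i, 1 ≤ C x i) (hs : ∀ i, ContDiff ℝ ∞ fun x => C x i) :
    ContDiff ℝ ∞ fun x => stdS (C x) i a b := by
  have h0 := hs 0
  have h1 := hs 1
  have h2 := hs 2
  have hr : ContDiff ℝ ∞ fun x => Real.sqrt (C x 0 ^ 2 + C x 1 ^ 2 + C x 2 ^ 2 +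
      2 * C x 0 * C x 1 * C x 2 - 1) := by
    apply ContDiff.sqrt
    · exact ((((h0.pow 2).add (h1.pow 2)).add (h2.pow 2)).add
        (((contDiff_const.mul h0).mul h1).mul h2)).sub contDiff_const
    · intro x
      exact (std_delta_pos (C x) (hC x)).ne'
  have hW : ContDiff ℝ ∞ fun x => C x 0 + C x 1 * C x 2 + Real.sqrt (C x 0 ^ 2 + C x 1 ^ 2 +
      C x 2 ^ 2 + 2 * C x 0 * C x 1 * C x 2 - 1) := (h0.add (h1.mul h2)).add hr
  have hW0 : ∀ x, C x 0 + C x 1 * C x 2 + Real.sqrt (C x 0 ^ 2 + C x 1 ^ 2 +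
      C x 2 ^ 2 + 2 * C x 0 * C x 1 * C x 2 - 1) ≠ 0 := by
    intro x
    have a0 := hC x 0
    have a1 := hC x 1
    have a2 := hC x 2
    have := Real.sqrt_nonneg (C x 0 ^ 2 + C x 1 ^ 2 +
      C x 2 ^ 2 + 2 * C x 0 * C x 1 * C x 2 - 1)
    positivity
  have h20 : ∀ x, C x 2 + 1 ≠ 0 := by
    intro x
    have a2 := hC x 2
    linarith
  have h2' : ContDiff ℝ ∞ fun x => C x 2 + 1 := h2.add contDiff_const
  fin_cases i <;> fin_cases a <;> fin_cases b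
  · show ContDiff ℝ ∞ fun x => (1 : ℝ)
    exact contDiff_const
  · show ContDiff ℝ ∞ fun x => (0 : ℝ)
    exact contDiff_const
  · show ContDiff ℝ ∞ fun x => (0 : ℝ)
    exact contDiff_const
  · show ContDiff ℝ ∞ fun x => (-1 : ℝ)
    exact contDiff_const
  · show ContDiff ℝ ∞ fun x => -C x 2
    exact h2.neg
  · show ContDiff ℝ ∞ fun x => -(C x 2 - 1)
    exact (h2.sub contDiff_const).neg
  · show ContDiff ℝ ∞ fun x => C x 2 + 1
    exact h2'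
  · show ContDiff ℝ ∞ fun x => C x 2
    exact h2
  · show ContDiff ℝ ∞ fun x => -C x 1
    exact h1.neg
  · show ContDiff ℝ ∞ fun x => -((C x 0 + C x 1 * C x 2 + Real.sqrt (C x 0 ^ 2 + C x 1 ^ 2 +
      C x 2 ^ 2 + 2 * C x 0 * C x 1 * C x 2 - 1)) / (C x 2 + 1))
    exact (hW.div h2' h20).neg
  · show ContDiff ℝ ∞ fun x => (C x 2 + 1) * (C x 1 ^ 2 - 1) / (C x 0 + C x 1 * C x 2 +
      Real.sqrt (C x 0 ^ 2 + C x 1 ^ 2 + C x 2 ^ 2 + 2 * C x 0 * C x 1 * C x 2 - 1))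
    exact (h2'.mul ((h1.pow 2).sub contDiff_const)).div hW hW0
  · show ContDiff ℝ ∞ fun x => C x 1
    exact h1

end Pool.Agent.DC
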