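import Pool.Agent.DC.D.Short
import Pool.Agent.DC.D.Passage
import Pool.Agent.DC.D.Discrete
import Pool.Agent.DC.D.Displ

/-!
Project DC, block D (helper6): (b4) traces of closed paths, (b3) the action is free, and it moves
one point by a definite amount.
-/

open scoped ENNReal UpperHalfPlane Matrix ContDiff
open MeasureTheory Set

namespace Pool.Agent.DC

theorem tc_trace_conj (g h : SL2) : ((g * h * g⁻¹ : SL2) : M2).trace = (h : M2).trace := by
  rw [Matrix.SpecialLinearGroup.coe_mul, Matrix.SpecialLinearGroup.coe_mul, Matrix.trace_mul_comm,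
    ← Matrix.mul_assoc, Causal.coe_inv_mul, Matrix.one_mul]

namespace PantsGraph
variable {G : PantsGraph}

namespace FN
variable {x : G.Teich} (F : FN x)

/-- (b4) the traces of closed paths -/
theorem trace_class (hx : ∀ e, len x e ≤ 1) (P : Fin G.V) (u : G.PathGroup)
    (hu : G.IsPath P P u) :
    4 < (F.hol u : M2).trace ^ 2 ∨ u = 1 ∨ ∃ (j : Fin G.n) (w : G.PathGroup) (k : ℤ),
      G.IsPath P (G.puncture j).1 w ∧ u = w * G.cuff (G.puncture j) ^ k * w⁻¹ := by
  rcases cyc_reduce P u hu with ⟨Q, v, p, hv, hp, rfl⟩ | ⟨c, v, hv, rfl⟩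
  · have htr : (F.hol (v * p * v⁻¹) : M2).trace = (F.hol p : M2).trace := by
      rw [map_mul, map_mul, map_inv, tc_trace_conj]
    rw [htr]
    rcases F.pg_short Q p hp with h8 | ⟨v', i, k, hv', rfl⟩
    · left; linarith
    · have htr' : (F.hol (v' * G.cuff (Q, i) ^ k * v'⁻¹) : M2).trace =
          (F.hol (G.cuff (Q, i) ^ k) : M2).trace := by
        rw [map_mul, map_mul, map_inv, tc_trace_conj]
      rw [htr']
      obtain ⟨y, hy⟩ := G.bij.surjective (Q, i)
      rcases y with ⟨e, b⟩ | j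
      · have hy' : G.side e b = (Q, i) := hy
        rw [← hy']
        have h1 := F.trace_cuff_side e b k
        by_cases hk : k = 0
        · right; left
          rw [hk, zpow_zero]
          group
        · left
          have hl : 0 < len x e := Real.exp_pos _
          have h2 : (k * len x e / 2 : ℝ) ≠ 0 := by
            have : (k : ℝ) ≠ 0 := by exact_mod_cast hk
            positivity
          have h3 := Real.one_lt_cosh.2 h2
          have h4 : (F.hol (G.cuff (G.side e b) ^ k) : M2).trace ^ 2 =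
              (2 * Real.cosh (k * len x e / 2)) ^ 2 := by
            rw [← h1, sq_abs]
          rw [h4]
          nlinarith
      · right; right
        have hy' : G.puncture j = (Q, i) := hy
        refine ⟨j, v * v', k, ?_, ?_⟩
        · rw [hy']; exact hv.mul (isPath_pg Q hv')
        · rw [hy']; group
  · left
    rw [map_mul, map_mul, map_inv, tc_trace_conj]
    have := F.cyc_long hx c
    linarith

theorem trace_puncture_pow (j : Fin G.n) (w : G.PathGroup) (k : ℤ) :
    (F.hol (w * G.cuff (G.puncture j) ^ k * w⁻¹) : M2).trace ^ 2 = 4 := by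
  rw [map_mul, map_mul, map_inv, tc_trace_conj, ← sq_abs, F.trace_cuff_puncture]
  norm_num

theorem trace_sq_ge (hx : ∀ e, len x e ≤ 1) (P : Fin G.V) (u : G.PathGroup)
    (hu : G.IsPath P P u) : 4 ≤ (F.hol u : M2).trace ^ 2 := by
  rcases F.trace_class hx P u hu with h | rfl | ⟨j, w, k, hw, rfl⟩
  · exact h.le
  · rw [map_one]; norm_num [Matrix.trace_fin_two]
  · exact (F.trace_puncture_pow j w k).ge

/-- the action is free -/
theorem hol_free (hx : ∀ e, len x e ≤ 1) (P : Fin G.V) (γ : G.PathGroup)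
    (hγ : G.IsPath P P γ) (hne : γ ≠ 1) (z : ℍ) : F.hol γ • z ≠ z := by
  intro h
  obtain ⟨H, hs, -⟩ := F.exists_hex P
  have hC : ∀ m, H.C m ≤ 5 / 4 := F.hex_C_le _ H hs hx
  have h1 := F.ctr_moved hx P H hs γ hγ hne
  rw [ad_eq_of_fixed h (F.trace_sq_ge hx P γ hγ)] at h1
  have := H.ip_ctr_ctr hC
  linarith

/-- a point is moved by a definite amount -/
theorem exists_moved (hx : ∀ e, len x e ≤ 1) (P : Fin G.V) : ∃ (z : ℍ) (r : ℝ), 0 < r ∧
    ∀ γ, G.IsPath P P γ → γ ≠ 1 → r ≤ dist z (F.hol γ • z) := by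
  obtain ⟨H, hs, -⟩ := F.exists_hex P
  have hC : ∀ m, H.C m ≤ 5 / 4 := F.hex_C_le _ H hs hx
  have hneg := H.ip_ctr_ctr hC
  obtain ⟨z, hz⟩ := exists_pt (H.ctr_fut hC) hneg
  set κ : ℝ := -ip H.ctr H.ctr with hκ
  have hκ0 : 0 < κ := by linarith
  have hs2 : Real.sqrt κ ^ 2 = κ := Real.sq_sqrt hκ0.le
  have hs1 : 1 < Real.sqrt (1 + 1 / κ) := by
    rw [Real.lt_sqrt zero_le_one]
    have : 0 < 1 / κ := by positivity
    linarith
  refine ⟨z, Real.arcosh (Real.sqrt (1 + 1 / κ)), Real.arcosh_pos hs1, ?_⟩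
  intro γ hγ hne
  have h1 := F.ctr_moved hx P H hs γ hγ hne
  have h2 : ip H.ctr (ad (F.hol γ) H.ctr) = -(κ * Real.cosh (dist z (F.hol γ • z))) := by
    rw [hz]
    have h3 : ad (F.hol γ) (Real.sqrt κ • pt z) = Real.sqrt κ • pt (F.hol γ • z) := by
      rw [← ad_pt]
      unfold ad
      rw [Matrix.mul_smul, Matrix.smul_mul]
    rw [h3, ip_smul_left, ip_comm, ip_smul_left, ip_comm, ip_pt, ← mul_assoc, ← pow_two, hs2]
    ring
  have h4 : ip H.ctr H.ctr = -κ := by rw [hκ]; ring
  rw [h2, h4] at h1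
  have hc := Real.one_le_cosh (dist z (F.hol γ • z))
  have h5 : 1 + 1 / κ ≤ Real.cosh (dist z (F.hol γ • z)) ^ 2 := by
    rw [show 1 + 1 / κ = (κ ^ 2 + κ) / κ ^ 2 by field_simp, div_le_iff₀ (by positivity)]
    nlinarith
  have h6 : Real.sqrt (1 + 1 / κ) ≤ Real.cosh (dist z (F.hol γ • z)) := by
    rw [Real.sqrt_le_left (by linarith)]
    exact h5
  rw [← Real.arcosh_cosh (dist_nonneg (x := z) (y := F.hol γ • z))]
  exact (Real.arcosh_le_arcosh (by linarith) (by linarith)).2 h6

end FN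
end PantsGraph

end Pool.Agent.DC
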