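import Pool.Agent.DC.D.Base

/-! Project DC: the ends of the annulus. -/

open scoped ENNReal UpperHalfPlane Matrix ContDiff
open MeasureTheory Set

namespace Pool.Agent.DC

namespace EndsAux

theorem dil_cc (t : ℝ) (z : ℍ) : ((dil t • z : ℍ) : ℂ) = (Real.exp t : ℝ) * (z : ℂ) := by
  rw [UpperHalfPlane.coe_specialLinearGroup_apply]
  have h0 : ((Real.exp (-(t / 2)) : ℝ) : ℂ) ≠ 0 := by
    exact_mod_cast (Real.exp_pos _).ne'
  have h1 : ((Real.exp (t / 2) : ℝ) : ℂ) =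
      ((Real.exp t : ℝ) : ℂ) * ((Real.exp (-(t / 2)) : ℝ) : ℂ) := by
    rw [← Complex.ofReal_mul, ← Real.exp_add]
    congr 2
    ring
  simp only [dil_coe, Matrix.of_apply, Matrix.cons_val', Matrix.cons_val_zero,
    Matrix.cons_val_one, Matrix.cons_val_fin_one, Algebra.algebraMap_self, RingHom.id_apply]
  rw [Complex.ofReal_zero, add_zero, zero_mul, zero_add, h1]
  field_simp

/-- the real part of the dilated point -/
theorem dil_re (t : ℝ) (z : ℍ) : (dil t • z : ℍ).re = Real.exp t * z.re := by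
  have h := congrArg Complex.re (dil_cc t z)
  rw [Complex.re_ofReal_mul] at h
  exact h

theorem dil_im (t : ℝ) (z : ℍ) : (dil t • z : ℍ).im = Real.exp t * z.im := by
  have h := congrArg Complex.im (dil_cc t z)
  rw [Complex.im_ofReal_mul] at h
  exact h

/-- logarithmic coordinates on the half plane -/
noncomputable def g : ℝ × ℝ ≃ₜ ℍ where
  toFun p := ⟨⟨p.1 * Real.exp p.2, Real.exp p.2⟩, Real.exp_pos _⟩
  invFun z := (z.re / z.im, Real.log z.im)
  left_inv p := by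
    ext
    · change p.1 * Real.exp p.2 / Real.exp p.2 = p.1
      exact mul_div_cancel_right₀ _ (Real.exp_pos _).ne'
    · change Real.log (Real.exp p.2) = p.2
      exact Real.log_exp _
  right_inv z := by
    apply UpperHalfPlane.ext
    have h0 := z.im_pos
    apply Complex.ext
    · change z.re / z.im * Real.exp (Real.log z.im) = z.re
      rw [Real.exp_log h0, div_mul_cancel₀ _ h0.ne']
    · change Real.exp (Real.log z.im) = z.im
      rw [Real.exp_log h0]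
  continuous_toFun := by
    rw [UpperHalfPlane.isEmbedding_coe.continuous_iff]
    change Continuous fun p : ℝ × ℝ => (⟨p.1 * Real.exp p.2, Real.exp p.2⟩ : ℂ)
    have : (fun p : ℝ × ℝ => (⟨p.1 * Real.exp p.2, Real.exp p.2⟩ : ℂ)) =
        fun p : ℝ × ℝ => ((p.1 * Real.exp p.2 : ℝ) : ℂ) + ((Real.exp p.2 : ℝ) : ℂ) * Complex.I := by
      funext p
      rw [Complex.mk_eq_add_mul_I]
    rw [this]
    fun_prop
  continuous_invFun := by
    refine Continuous.prodMk ?_ ?_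
    · exact UpperHalfPlane.continuous_re.div₀ UpperHalfPlane.continuous_im
        (fun z => z.im_pos.ne')
    · exact UpperHalfPlane.continuous_im.log (fun z => z.im_pos.ne')

theorem g_symm_fst (z : ℍ) : (g.symm z).1 = z.re / z.im := rfl

theorem g_symm_snd (z : ℍ) : (g.symm z).2 = Real.log z.im := rfl

theorem g_symm_dil (t : ℝ) (z : ℍ) : g.symm (dil t • z) = ((g.symm z).1, (g.symm z).2 + t) := by
  have h0 := z.im_pos
  ext
  · rw [g_symm_fst, dil_re, dil_im, g_symm_fst]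
    exact mul_div_mul_left _ _ (Real.exp_pos _).ne'
  · rw [g_symm_snd, dil_im, g_symm_snd, Real.log_mul (Real.exp_pos _).ne' h0.ne', Real.log_exp]
    ring

theorem g_dil (t : ℝ) (p : ℝ × ℝ) : g (p.1, p.2 + t) = dil t • g p := by
  apply g.symm.injective
  rw [g_symm_dil, Homeomorph.symm_apply_apply, Homeomorph.symm_apply_apply]

theorem plane_per (F : ℝ × ℝ ≃ₜ ℝ × ℝ) (a b : ℝ)
    (h : ∀ p : ℝ × ℝ, F (p.1, p.2 + a) = ((F p).1, (F p).2 + b)) (k : ℤ) :
    ∀ p : ℝ × ℝ, F (p.1, p.2 + k * a) = ((F p).1, (F p).2 + k * b) := by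
  induction k using Int.induction_on with
  | zero => intro p; simp
  | succ i ih =>
    intro p
    have h1 := h (p.1, p.2 + (i : ℤ) * a)
    simp only [ih p] at h1
    have e1 : p.2 + ((((i : ℕ) : ℤ) + 1 : ℤ) : ℝ) * a = p.2 + (i : ℤ) * a + a := by push_cast; ring
    rw [e1, h1]
    ext <;> simp
    ring
  | pred i ih =>
    intro p
    have h1 := h (p.1, p.2 + ((-(i : ℤ) - 1 : ℤ) : ℝ) * a)
    have e1 : p.2 + ((-(i : ℤ) - 1 : ℤ) : ℝ) * a + a = p.2 + ((-(i : ℤ) : ℤ) : ℝ) * a := by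
      push_cast; ring
    simp only [e1, ih p] at h1
    have h2 := congrArg Prod.fst h1
    have h3 := congrArg Prod.snd h1
    simp only at h2 h3
    ext
    · exact h2.symm
    · simp only
      push_cast at h3 ⊢
      linarith

theorem plane_far (F : ℝ × ℝ ≃ₜ ℝ × ℝ) (a b : ℝ) (hb : 0 < b)
    (h : ∀ p : ℝ × ℝ, F (p.1, p.2 + a) = ((F p).1, (F p).2 + b)) (D : ℝ) :
    ∃ E : ℝ, 0 < E ∧ ∀ p : ℝ × ℝ, E ≤ |p.1| → D < |(F p).1| := by
  have hK : IsCompact (Icc (-D) D ×ˢ Icc 0 b) := isCompact_Icc.prod isCompact_Icc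
  have hK2 : IsCompact (F.symm '' (Icc (-D) D ×ˢ Icc 0 b)) := hK.image F.symm.continuous
  obtain ⟨R, hR⟩ := (hK2.image continuous_fst).isBounded.exists_norm_le
  refine ⟨max R 0 + 1, by positivity, ?_⟩
  intro p hp
  by_contra hcon
  push Not at hcon
  obtain ⟨k, hk, -⟩ := existsUnique_add_zsmul_mem_Ico hb (F p).2 0
  rw [zero_add, zsmul_eq_mul] at hk
  have h1 := plane_per F a b h k p
  have h2 : F (p.1, p.2 + k * a) ∈ Icc (-D) D ×ˢ Icc 0 b := by
    rw [h1]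
    exact ⟨abs_le.mp hcon, hk.1, hk.2.le⟩
  have h3 : p.1 ∈ Prod.fst '' (F.symm '' (Icc (-D) D ×ˢ Icc 0 b)) :=
    ⟨(p.1, p.2 + k * a), ⟨_, h2, by simp⟩, rfl⟩
  have h4 := hR _ h3
  rw [Real.norm_eq_abs] at h4
  have h5 := le_max_left R 0
  linarith

theorem plane_mid (F : ℝ × ℝ ≃ₜ ℝ × ℝ) (a b : ℝ) (ha : 0 < a)
    (h : ∀ p : ℝ × ℝ, F (p.1, p.2 + a) = ((F p).1, (F p).2 + b)) (E : ℝ) :
    ∃ B : ℝ, ∀ p : ℝ × ℝ, |p.1| ≤ E → |(F p).1| ≤ B := by
  have hK : IsCompact (Icc (-E) E ×ˢ Icc 0 a) := isCompact_Icc.prod isCompact_Icc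
  have hK2 : IsCompact (F '' (Icc (-E) E ×ˢ Icc 0 a)) := hK.image F.continuous
  obtain ⟨R, hR⟩ := (hK2.image continuous_fst).isBounded.exists_norm_le
  refine ⟨R, ?_⟩
  intro p hp
  obtain ⟨k, hk, -⟩ := existsUnique_add_zsmul_mem_Ico ha p.2 0
  rw [zero_add, zsmul_eq_mul] at hk
  have h1 := plane_per F a b h k p
  have h2 : (p.1, p.2 + k * a) ∈ Icc (-E) E ×ˢ Icc 0 a :=
    ⟨abs_le.mp hp, hk.1, hk.2.le⟩
  have h3 : (F p).1 ∈ Prod.fst '' (F '' (Icc (-E) E ×ˢ Icc 0 a)) :=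
    ⟨F (p.1, p.2 + k * a), ⟨_, h2, rfl⟩, by rw [h1]⟩
  have h4 := hR _ h3
  rwa [Real.norm_eq_abs] at h4

/-- a continuous function on a preconnected set which avoids `[-D, D]` has constant sign -/
theorem sign_const (u : ℝ × ℝ → ℝ) (hu : Continuous u) (S : Set (ℝ × ℝ)) (hS : IsPreconnected S)
    (D : ℝ) (hD : 0 < D) (hf : ∀ p ∈ S, D < |u p|) :
    (∀ p ∈ S, D ≤ u p) ∨ (∀ p ∈ S, u p ≤ -D) := by
  by_contra hcon
  push Not at hcon
  obtain ⟨⟨p, hp, hp1⟩, q, hq, hq1⟩ := hcon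
  have h1 : u p < -D := by
    have := hf p hp
    rcases lt_abs.mp this with h | h
    · linarith
    · linarith
  have h2 : D < u q := by
    have := hf q hq
    rcases lt_abs.mp this with h | h
    · exact h
    · linarith
  obtain ⟨r, hr, hr1⟩ := hS.intermediate_value₂ hp hq hu.continuousOn
    (continuous_const (y := (0 : ℝ))).continuousOn (by linarith) (by linarith)
  have := hf r hr
  rw [hr1, abs_zero] at this
  linarith

theorem plane_ends (F : ℝ × ℝ ≃ₜ ℝ × ℝ) (a b : ℝ) (ha : 0 < a) (hb : 0 < b)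
    (h : ∀ p : ℝ × ℝ, F (p.1, p.2 + a) = ((F p).1, (F p).2 + b)) (D : ℝ) (hD : 0 < D) :
    ∃ E : ℝ, 0 < E ∧
      (((∀ p : ℝ × ℝ, E ≤ p.1 → D ≤ (F p).1) ∧ (∀ p : ℝ × ℝ, p.1 ≤ -E → (F p).1 ≤ -D)) ∨
       ((∀ p : ℝ × ℝ, E ≤ p.1 → (F p).1 ≤ -D) ∧ (∀ p : ℝ × ℝ, p.1 ≤ -E → D ≤ (F p).1))) := by
  obtain ⟨E, hE, hfar⟩ := plane_far F a b hb h D
  obtain ⟨B, hB⟩ := plane_mid F a b ha h E
  refine ⟨E, hE, ?_⟩
  have hu : Continuous fun p : ℝ × ℝ => (F p).1 := continuous_fst.comp F.continuous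
  have c1 : IsPreconnected {p : ℝ × ℝ | E ≤ p.1} := by
    have : {p : ℝ × ℝ | E ≤ p.1} = Ici E ×ˢ (univ : Set ℝ) := by ext p; simp
    rw [this]
    exact isPreconnected_Ici.prod isPreconnected_univ
  have c2 : IsPreconnected {p : ℝ × ℝ | p.1 ≤ -E} := by
    have : {p : ℝ × ℝ | p.1 ≤ -E} = Iic (-E) ×ˢ (univ : Set ℝ) := by ext p; simp
    rw [this]
    exact isPreconnected_Iic.prod isPreconnected_univ
  have s1 := sign_const _ hu _ c1 D hD (fun p hp => hfar p (le_trans hp (le_abs_self _)))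
  have s2 := sign_const _ hu _ c2 D hD (fun p hp => hfar p (by
    have : E ≤ -p.1 := by
      have : p.1 ≤ -E := hp
      linarith
    exact le_trans this (neg_le_abs _)))
  simp only [mem_ofPred_eq] at s1 s2
  rcases s1 with s1 | s1 <;> rcases s2 with s2 | s2
  · exfalso
    obtain ⟨p, hp⟩ := F.surjective (-(|B| + D) - 1, 0)
    have hp1 : (F p).1 = -(|B| + D) - 1 := by rw [hp]
    rcases le_or_gt |p.1| E with h1 | h1
    · have h2 := hB p h1
      have h3 := neg_abs_le (F p).1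
      have h4 := le_abs_self B
      linarith
    · have h5 := abs_nonneg B
      rcases lt_abs.mp h1 with h2 | h2
      · have := s1 p h2.le
        linarith
      · have := s2 p (by linarith)
        linarith
  · exact Or.inl ⟨s1, s2⟩
  · exact Or.inr ⟨s1, s2⟩
  · exfalso
    obtain ⟨p, hp⟩ := F.surjective (|B| + D + 1, 0)
    have hp1 : (F p).1 = |B| + D + 1 := by rw [hp]
    rcases le_or_gt |p.1| E with h1 | h1
    · have h2 := hB p h1
      have h3 := le_abs_self (F p).1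
      have h4 := le_abs_self B
      linarith
    · have h5 := abs_nonneg B
      rcases lt_abs.mp h1 with h2 | h2
      · have := s1 p h2.le
        linarith
      · have := s2 p (by linarith)
        linarith

/-- comparison of arguments through the cotangent -/
theorem sin_diff (z : ℍ) (η : ℝ) (h0 : 0 < η) (h1 : η < Real.pi) :
    z.re / z.im - Real.cos η / Real.sin η =
      ‖(z : ℂ)‖ * Real.sin (η - (z : ℂ).arg) / (z.im * Real.sin η) := by
  have hs : 0 < Real.sin η := Real.sin_pos_of_pos_of_lt_pi h0 h1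
  have hz := z.im_pos
  have e1 : ‖(z : ℂ)‖ * Real.cos (z : ℂ).arg = z.re := Complex.norm_mul_cos_arg _
  have e2 : ‖(z : ℂ)‖ * Real.sin (z : ℂ).arg = z.im := Complex.norm_mul_sin_arg _
  rw [div_sub_div _ _ hz.ne' hs.ne', Real.sin_sub]
  congr 1
  have : ‖(z : ℂ)‖ * (Real.sin η * Real.cos (z : ℂ).arg - Real.cos η * Real.sin (z : ℂ).arg) =
      Real.sin η * (‖(z : ℂ)‖ * Real.cos (z : ℂ).arg) -
        Real.cos η * (‖(z : ℂ)‖ * Real.sin (z : ℂ).arg) := by ring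
  rw [this, e1, e2]
  ring

theorem arg_mem (z : ℍ) : 0 < (z : ℂ).arg ∧ (z : ℂ).arg < Real.pi := by
  have hz : 0 < (z : ℂ).im := z.im_pos
  refine ⟨?_, ?_⟩
  · rcases (Complex.arg_nonneg_iff.mpr hz.le).lt_or_eq with h | h
    · exact h
    · have := (Complex.arg_eq_zero_iff.mp h.symm).2
      linarith
  · exact Complex.arg_lt_pi_iff.mpr (Or.inr hz.ne')

theorem arg_le_iff (z : ℍ) (η : ℝ) (h0 : 0 < η) (h1 : η < Real.pi) :
    (z : ℂ).arg ≤ η ↔ Real.cos η / Real.sin η ≤ z.re / z.im := by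
  have hs : 0 < Real.sin η := Real.sin_pos_of_pos_of_lt_pi h0 h1
  have hz := z.im_pos
  have hn : 0 < ‖(z : ℂ)‖ := norm_pos_iff.mpr (UpperHalfPlane.ne_zero z)
  obtain ⟨ha, hb⟩ := arg_mem z
  rw [← sub_nonneg (b := Real.cos η / Real.sin η), sin_diff z η h0 h1]
  constructor
  · intro h
    have : 0 ≤ Real.sin (η - (z : ℂ).arg) :=
      Real.sin_nonneg_of_nonneg_of_le_pi (by linarith) (by linarith)
    positivity
  · intro h
    by_contra hc
    push Not at hc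
    have h2 : Real.sin (η - (z : ℂ).arg) < 0 :=
      Real.sin_neg_of_neg_of_neg_pi_lt (by linarith) (by linarith)
    have h3 : ‖(z : ℂ)‖ * Real.sin (η - (z : ℂ).arg) / (z.im * Real.sin η) < 0 :=
      div_neg_of_neg_of_pos (mul_neg_of_pos_of_neg hn h2) (by positivity)
    linarith

theorem le_arg_iff (z : ℍ) (η : ℝ) (h0 : 0 < η) (h1 : η < Real.pi) :
    η ≤ (z : ℂ).arg ↔ z.re / z.im ≤ Real.cos η / Real.sin η := by
  have hs : 0 < Real.sin η := Real.sin_pos_of_pos_of_lt_pi h0 h1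
  have hz := z.im_pos
  have hn : 0 < ‖(z : ℂ)‖ := norm_pos_iff.mpr (UpperHalfPlane.ne_zero z)
  obtain ⟨ha, hb⟩ := arg_mem z
  rw [← sub_nonpos (a := z.re / z.im), sin_diff z η h0 h1]
  constructor
  · intro h
    have h2 : Real.sin (η - (z : ℂ).arg) ≤ 0 :=
      Real.sin_nonpos_of_nonpos_of_neg_pi_le (by linarith) (by linarith)
    exact div_nonpos_of_nonpos_of_nonneg (mul_nonpos_of_nonneg_of_nonpos hn.le h2)
      (by positivity)
  · intro h
    by_contra hc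
    push Not at hc
    have h2 : 0 < Real.sin (η - (z : ℂ).arg) :=
      Real.sin_pos_of_pos_of_lt_pi (by linarith) (by linarith)
    have h3 : 0 < ‖(z : ℂ)‖ * Real.sin (η - (z : ℂ).arg) / (z.im * Real.sin η) := by
      positivity
    linarith

theorem cot_pi_sub (η : ℝ) :
    Real.cos (Real.pi - η) / Real.sin (Real.pi - η) = -(Real.cos η / Real.sin η) := by
  rw [Real.cos_pi_sub, Real.sin_pi_sub, neg_div]

theorem exists_cot (E : ℝ) (hE : 0 < E) :
    ∃ η : ℝ, 0 < η ∧ η < Real.pi / 2 ∧ Real.cos η / Real.sin η = E := by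
  have h1 := Real.arctan_pos.mpr hE
  have h2 := Real.arctan_lt_pi_div_two E
  refine ⟨Real.pi / 2 - Real.arctan E, by linarith, by linarith, ?_⟩
  rw [Real.cos_pi_div_two_sub, Real.sin_pi_div_two_sub, ← Real.tan_eq_sin_div_cos,
    Real.tan_arctan]

end EndsAux

/-- the ends of the annulus are proper and are not mixed -/
theorem ends (f : ℍ ≃ₜ ℍ) (a b : ℝ) (ha : 0 < a) (hb : 0 < b)
    (h : ∀ z, f (dil a • z) = dil b • f z) (δ : ℝ) (hδ : 0 < δ) (hδ2 : δ < Real.pi / 2) :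
    ∃ η : ℝ, 0 < η ∧ η < Real.pi / 2 ∧
      (((∀ z : ℍ, (z : ℂ).arg ≤ η → ((f z : ℍ) : ℂ).arg ≤ δ) ∧
        (∀ z : ℍ, Real.pi - η ≤ (z : ℂ).arg → Real.pi - δ ≤ ((f z : ℍ) : ℂ).arg)) ∨
       ((∀ z : ℍ, (z : ℂ).arg ≤ η → Real.pi - δ ≤ ((f z : ℍ) : ℂ).arg) ∧
        (∀ z : ℍ, Real.pi - η ≤ (z : ℂ).arg → ((f z : ℍ) : ℂ).arg ≤ δ))) := by
  have hpi := Real.pi_pos
  have hD : 0 < Real.cos δ / Real.sin δ :=
    div_pos (Real.cos_pos_of_mem_Ioo ⟨by linarith, hδ2⟩)
      (Real.sin_pos_of_pos_of_lt_pi hδ (by linarith))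
  have hper : ∀ p : ℝ × ℝ, ((EndsAux.g.trans f).trans EndsAux.g.symm) (p.1, p.2 + a) =
      ((((EndsAux.g.trans f).trans EndsAux.g.symm) p).1,
        (((EndsAux.g.trans f).trans EndsAux.g.symm) p).2 + b) := by
    intro p
    simp only [Homeomorph.trans_apply]
    rw [EndsAux.g_dil, h, EndsAux.g_symm_dil]
  obtain ⟨E, hE, hmain⟩ := EndsAux.plane_ends ((EndsAux.g.trans f).trans EndsAux.g.symm) a b ha hb
    hper _ hD
  obtain ⟨η, hη, hη2, hcot⟩ := EndsAux.exists_cot E hE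
  have key : ∀ z : ℍ, (((EndsAux.g.trans f).trans EndsAux.g.symm) (EndsAux.g.symm z)).1 =
      (f z).re / (f z).im := by
    intro z
    simp only [Homeomorph.trans_apply, Homeomorph.apply_symm_apply]
    rfl
  refine ⟨η, hη, hη2, ?_⟩
  have l1 : ∀ z : ℍ, (z : ℂ).arg ≤ η → E ≤ (EndsAux.g.symm z).1 := by
    intro z hz
    have := (EndsAux.arg_le_iff z η hη (by linarith)).mp hz
    rwa [hcot] at this
  have l2 : ∀ z : ℍ, Real.pi - η ≤ (z : ℂ).arg → (EndsAux.g.symm z).1 ≤ -E := by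
    intro z hz
    have := (EndsAux.le_arg_iff z (Real.pi - η) (by linarith) (by linarith)).mp hz
    rwa [EndsAux.cot_pi_sub, hcot] at this
  have r1 : ∀ z : ℍ, Real.cos δ / Real.sin δ ≤ (f z).re / (f z).im → ((f z : ℍ) : ℂ).arg ≤ δ := by
    intro z hz
    exact (EndsAux.arg_le_iff (f z) δ hδ (by linarith)).mpr hz
  have r2 : ∀ z : ℍ, (f z).re / (f z).im ≤ -(Real.cos δ / Real.sin δ) →
      Real.pi - δ ≤ ((f z : ℍ) : ℂ).arg := by
    intro z hz
    refine (EndsAux.le_arg_iff (f z) (Real.pi - δ) (by linarith) (by linarith)).mpr ?_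
    rwa [EndsAux.cot_pi_sub]
  rcases hmain with ⟨m1, m2⟩ | ⟨m1, m2⟩
  · left
    refine ⟨fun z hz => r1 z ?_, fun z hz => r2 z ?_⟩
    · have := m1 _ (l1 z hz)
      rwa [key] at this
    · have := m2 _ (l2 z hz)
      rwa [key] at this
  · right
    refine ⟨fun z hz => r2 z ?_, fun z hz => r1 z ?_⟩
    · have := m1 _ (l1 z hz)
      rwa [key] at this
    · have := m2 _ (l2 z hz)
      rwa [key] at this

end Pool.Agent.DC
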