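import Pool.Agent.DC.D.Wol.Core
import Pool.Agent.DC.D.Wol.Area
import Pool.Agent.DC.D.Wol.Ends
import Pool.Agent.DC.D.Wol.Charts

/-!
# Project DC, block D: Wolpert's lemma
-/

open scoped ENNReal UpperHalfPlane Matrix ContDiff
open MeasureTheory Set

namespace Pool.Agent.DC

namespace Wol

/-- the map in charts -/
noncomputable def FF {D : Set ℂ} (CA : Chart D) (CB : Chart SS) (f : ℍ → ℍ) (w : ℂ) : ℂ :=
  CB.Ψ (toC f (CA.Φ w))

theorem FF_mapsTo {D : Set ℂ} (CA : Chart D) (CB : Chart SS) (f : ℍ → ℍ) :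
    MapsTo (FF CA CB f) D SS := fun _ _ => CB.mapsΨ (toC_mem f _)

theorem FF_continuousOn {D : Set ℂ} (CA : Chart D) (CB : Chart SS) {f : ℍ → ℍ}
    (hf : Continuous f) : ContinuousOn (FF CA CB f) D :=
  CB.dΨ.continuousOn.comp ((continuousOn_toC hf).comp CA.dΦ.continuousOn CA.mapsΦ)
    fun _ _ => toC_mem f _

theorem FF_inverse {D : Set ℂ} (CA : Chart D) (CB : Chart SS) (f : ℍ ≃ₜ ℍ) {w : ℂ}
    (hw : w ∈ D) : CA.Ψ (toC f.symm (CB.Φ (FF CA CB f w))) = w := by
  unfold FF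
  rw [CB.right _ (toC_mem f _), toC_comp]
  have : (fun w => f.symm (f w)) = fun w => w := funext fun w => f.symm_apply_apply w
  rw [this, toC_id (CA.mapsΦ hw), CA.left w hw]

theorem FF_injOn {D : Set ℂ} (CA : Chart D) (CB : Chart SS) (f : ℍ ≃ₜ ℍ) :
    InjOn (FF CA CB f) D := fun w hw w' hw' h => by
  rw [← FF_inverse CA CB f hw, ← FF_inverse CA CB f hw', h]

theorem FF_period {D : Set ℂ} (CA : Chart D) (CB : Chart SS) (f : ℍ ≃ₜ ℍ) (A B : SL2)
    (h : ∀ z : ℍ, f (A • z) = B • f z) {c l : ℝ}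
    (hA : ∀ w ∈ D, CA.Φ (w + (c : ℂ)) = toC (fun z => A • z) (CA.Φ w))
    (hB : ∀ w ∈ SS, CB.Φ (w + (l : ℂ)) = toC (fun z => B • z) (CB.Φ w)) {w : ℂ}
    (hw : w ∈ D) : FF CA CB f (w + (c : ℂ)) = FF CA CB f w + (l : ℂ) := by
  have hS : FF CA CB f w ∈ SS := FF_mapsTo CA CB f hw
  have hS' : FF CA CB f w + (l : ℂ) ∈ SS := by
    refine ⟨?_, ?_⟩
    · simpa using hS.1
    · simpa using hS.2
  have h1 : FF CA CB f (w + (c : ℂ)) = CB.Ψ (toC f (toC (fun z => A • z) (CA.Φ w))) := by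
    unfold FF
    rw [hA w hw]
  have h2 : toC f (toC (fun z => A • z) (CA.Φ w)) =
      toC (fun z => B • z) (toC f (CA.Φ w)) := by
    rw [toC_comp, toC_comp]
    congr 1
    exact funext fun z => h z
  have h3 : toC f (CA.Φ w) = CB.Φ (FF CA CB f w) := by
    unfold FF
    rw [CB.right _ (toC_mem f _)]
  rw [h1, h2, h3, ← hB _ hS, CB.left _ hS']

/-- the chart turned by a quarter -/
noncomputable def turnChart (C : Chart SS) : Chart {w : ℂ | Complex.I * w ∈ SS} where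
  Φ := fun w => C.Φ (Complex.I * w)
  Ψ := fun z => -Complex.I * C.Ψ z
  mapsΦ := fun w hw => C.mapsΦ hw
  mapsΨ := fun z hz => by
    show Complex.I * (-Complex.I * C.Ψ z) ∈ SS
    have : Complex.I * (-Complex.I * C.Ψ z) = C.Ψ z := by
      rw [← mul_assoc, mul_neg, Complex.I_mul_I, neg_neg, one_mul]
    rw [this]
    exact C.mapsΨ hz
  left := fun w hw => by
    show -Complex.I * C.Ψ (C.Φ (Complex.I * w)) = w
    rw [C.left _ hw, ← mul_assoc, neg_mul, Complex.I_mul_I, neg_neg, one_mul]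
  right := fun z hz => by
    show C.Φ (Complex.I * (-Complex.I * C.Ψ z)) = z
    have : Complex.I * (-Complex.I * C.Ψ z) = C.Ψ z := by
      rw [← mul_assoc, mul_neg, Complex.I_mul_I, neg_neg, one_mul]
    rw [this]
    exact C.right z hz
  dΦ := C.dΦ.comp ((differentiable_id.const_mul Complex.I).differentiableOn) fun w hw => hw
  dΨ := C.dΨ.const_mul (-Complex.I)

theorem SS_add {w : ℂ} (hw : w ∈ SS) (c : ℝ) : w + (c : ℂ) ∈ SS := by
  refine ⟨?_, ?_⟩
  · simpa using hw.1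
  · simpa using hw.2

theorem HH_add {w : ℂ} (hw : w ∈ HH) (c : ℝ) : w + (c : ℂ) ∈ HH := by
  show 0 < (w + (c : ℂ)).im
  simpa using (show 0 < w.im from hw)

theorem isCompact_rect {a b c d : ℝ} : IsCompact (rect a b c d) := by
  have h : rect a b c d = (fun p : ℝ × ℝ => ((p.1 : ℝ) : ℂ) + (p.2 : ℂ) * Complex.I) ''
      (Icc a b ×ˢ Icc c d) := by
    ext w
    constructor
    · rintro ⟨h1, h2⟩
      exact ⟨(w.re, w.im), ⟨h1, h2⟩, Complex.re_add_im w⟩
    · rintro ⟨p, ⟨h1, h2⟩, rfl⟩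
      refine ⟨?_, ?_⟩
      · simpa using h1
      · simpa using h2
  rw [h]
  refine (isCompact_Icc.prod isCompact_Icc).image ?_
  fun_prop

/-- the inequality in the hyperbolic case, before the limit -/
theorem hyp_ineq (f : ℍ ≃ₜ ℍ) {K : ℝ} (hK : 0 ≤ K) (hf : IsQC K f) (A B : SL2)
    (h : ∀ z : ℍ, f (A • z) = B • f z) {c l : ℝ} (hc : 0 < c) (hl : 0 < l)
    (CA CB : Chart SS)
    (hA : ∀ w ∈ SS, CA.Φ (w + (c : ℂ)) = toC (fun z => A • z) (CA.Φ w))
    (hB : ∀ w ∈ SS, CB.Φ (w + (l : ℂ)) = toC (fun z => B • z) (CB.Φ w))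
    {ε : ℝ} (hε : 0 < ε) (hε1 : ε < Real.pi / 2) (N : ℕ) (hN : 1 ≤ N) :
    (Real.pi - 2 * ε) ^ 2 / ((N + 1) * (Real.pi * l)) ≤ K * (Real.pi / (N * c)) := by
  set F := FF CA CB f with hF
  set Gm : ℂ → ℂ := fun z => CA.Ψ (toC f.symm (CB.Φ z)) with hG
  have hGF : ∀ w ∈ SS, Gm (F w) = w := fun w hw => FF_inverse CA CB f hw
  have hFG : ∀ w ∈ SS, F (Gm w) = w := by
    intro w hw
    show CB.Ψ (toC f (CA.Φ (CA.Ψ (toC f.symm (CB.Φ w))))) = w
    rw [CA.right _ (toC_mem f.symm _), toC_comp]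
    have : (fun w => f (f.symm w)) = fun w => w := funext fun w => f.apply_symm_apply w
    rw [this, toC_id (CB.mapsΦ hw), CB.left w hw]
  have hGc : ContinuousOn Gm SS := FF_continuousOn CB CA f.symm.continuous
  have hper : ∀ w ∈ SS, F (w + (c : ℂ)) = F w + (l : ℂ) := fun w hw =>
    FF_period CA CB f A B h hA hB hw
  obtain ⟨η, hη, hη1, hηε, hends⟩ := ends F Gm (FF_mapsTo CA CB f)
    (FF_mapsTo CB CA f.symm) (FF_continuousOn CA CB f.continuous) hGc hGF hFG hc hl hper hε hε1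
  have hN0 : (0 : ℝ) < N := by exact_mod_cast hN
  have hpi := Real.pi_pos
  have hD : IsOpen {w : ℂ | Complex.I * w ∈ SS} :=
    isOpen_SS.preimage (continuous_const.mul continuous_id)
  have hre : ∀ w : ℂ, (Complex.I * w).re = -w.im := fun w => by simp
  have him : ∀ w : ℂ, (Complex.I * w).im = w.re := fun w => by simp
  have hNc : -(N * c) < (0 : ℝ) := by
    have := mul_pos hN0 hc
    linarith
  have hRD : rect η (Real.pi - η) (-(N * c)) 0 ⊆ {w : ℂ | Complex.I * w ∈ SS} := by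
    rintro w ⟨⟨h1, h2⟩, -⟩
    refine ⟨?_, ?_⟩
    · rw [him]; linarith
    · rw [him]; linarith
  have hkey := core f hK hf hD (turnChart CA) CB (a := η) (b := Real.pi - η) (c := -(N * c))
    (d := 0) (by linarith) hNc hRD (l := Real.pi - 2 * ε) (m := (N + 1) * (Real.pi * l))
    (by linarith) (by positivity) ?_ ?_
  · refine hkey.trans ?_
    refine mul_le_mul_of_nonneg_left ?_ hK
    have e : (0 : ℝ) - -(N * c) = N * c := by ring
    rw [e]
    refine div_le_div_of_nonneg_right (by linarith) (mul_pos hN0 hc).le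
  · rintro w hw w' hw'
    have hw1 : w.re = η := le_antisymm hw.1.2 hw.1.1
    have hw2 : w'.re = Real.pi - η := le_antisymm hw'.1.2 hw'.1.1
    refine hends (Complex.I * w) ?_ (Complex.I * w') ?_ ?_ ?_
    · refine ⟨?_, ?_⟩ <;> rw [him] <;> linarith
    · refine ⟨?_, ?_⟩ <;> rw [him] <;> linarith
    · rw [him, hw1]
    · rw [him, hw2]
  · have e : (fun w => CB.Ψ (toC f ((turnChart CA).Φ w))) '' rect η (Real.pi - η) (-(N * c)) 0 =
        F '' ((fun w : ℂ => Complex.I * w) '' rect η (Real.pi - η) (-(N * c)) 0) := by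
      rw [image_image]
      rfl
    rw [e]
    refine area_le F SS (FF_continuousOn CA CB f.continuous) (FF_injOn CA CB f)
      (FF_mapsTo CA CB f) hc hl (fun w hw => ⟨SS_add hw c, hper w hw⟩) N _ ?_ ?_ ?_
    · exact (isCompact_rect.image (continuous_const.mul continuous_id)).isClosed.measurableSet
    · rintro z ⟨w, hw, rfl⟩
      exact hRD hw
    · rintro z ⟨w, hw, rfl⟩
      show (Complex.I * w).re ∈ Icc (0 : ℝ) (N * c)
      rw [hre]
      exact ⟨by linarith [hw.2.2], by linarith [hw.2.1]⟩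

/-- the limit -/
theorem hyp_limit {K c l : ℝ} (hc : 0 < c) (hl : 0 < l)
    (h : ∀ ε : ℝ, 0 < ε → ε < Real.pi / 2 → ∀ N : ℕ, 1 ≤ N →
      (Real.pi - 2 * ε) ^ 2 / ((N + 1) * (Real.pi * l)) ≤ K * (Real.pi / (N * c))) :
    c ≤ K * l := by
  have hpi := Real.pi_pos
  -- multiply out
  have h1 : ∀ ε : ℝ, 0 < ε → ε < Real.pi / 2 → ∀ N : ℕ, 1 ≤ N →
      (Real.pi - 2 * ε) ^ 2 * c ≤ K * Real.pi ^ 2 * l * (1 + 1 / (N : ℝ)) := by
    intro ε hε hε1 N hN
    have hN0 : (0 : ℝ) < N := by exact_mod_cast hN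
    have h2 := h ε hε hε1 N hN
    rw [div_le_iff₀ (by positivity)] at h2
    have h3 : K * (Real.pi / (N * c)) * ((N + 1) * (Real.pi * l)) =
        (K * Real.pi ^ 2 * l * (1 + 1 / (N : ℝ))) / c := by
      field_simp
    rw [h3, le_div_iff₀ hc] at h2
    exact h2
  have h4 : ∀ ε : ℝ, 0 < ε → ε < Real.pi / 2 →
      (Real.pi - 2 * ε) ^ 2 * c ≤ K * Real.pi ^ 2 * l := by
    intro ε hε hε1
    have hlim : Filter.Tendsto (fun N : ℕ => K * Real.pi ^ 2 * l * (1 + 1 / (N : ℝ)))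
        Filter.atTop (nhds (K * Real.pi ^ 2 * l * (1 + 0))) :=
      (tendsto_const_nhds.add tendsto_one_div_atTop_nhds_zero_nat).const_mul _
    rw [add_zero, mul_one] at hlim
    refine ge_of_tendsto hlim ?_
    filter_upwards [Filter.eventually_ge_atTop 1] with N hN
    exact h1 ε hε hε1 N hN
  have h5 : Real.pi ^ 2 * c ≤ K * Real.pi ^ 2 * l := by
    have hlim : Filter.Tendsto (fun ε : ℝ => (Real.pi - 2 * ε) ^ 2 * c)
        (nhdsWithin 0 (Ioi 0)) (nhds ((Real.pi - 2 * 0) ^ 2 * c)) := by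
      have : Continuous fun ε : ℝ => (Real.pi - 2 * ε) ^ 2 * c := by fun_prop
      exact (this.tendsto 0).mono_left nhdsWithin_le_nhds
    rw [mul_zero, sub_zero] at hlim
    refine le_of_tendsto hlim ?_
    have h6 : Ioo (0 : ℝ) (Real.pi / 2) ∈ nhdsWithin (0 : ℝ) (Ioi 0) :=
      Ioo_mem_nhdsGT (by positivity)
    filter_upwards [h6] with ε hε
    exact h4 ε hε.1 hε.2
  have h7 : Real.pi ^ 2 * c ≤ Real.pi ^ 2 * (K * l) := by linarith
  exact le_of_mul_le_mul_left h7 (by positivity)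

/-- the parabolic case is impossible -/
theorem par_false (f : ℍ ≃ₜ ℍ) {K : ℝ} (hK : 0 ≤ K) (hf : IsQC K f) (A B : SL2)
    (h : ∀ z : ℍ, f (A • z) = B • f z) {c l : ℝ} (hc : 0 < c) (hl : 0 < l)
    (CA : Chart HH) (CB : Chart SS)
    (hA : ∀ w ∈ HH, CA.Φ (w + (c : ℂ)) = toC (fun z => A • z) (CA.Φ w))
    (hB : ∀ w ∈ SS, CB.Φ (w + (l : ℂ)) = toC (fun z => B • z) (CB.Φ w)) : False := by
  have hpi := Real.pi_pos
  set F := FF CA CB f with hF
  have hper : ∀ w ∈ HH, F (w + (c : ℂ)) = F w + (l : ℂ) := fun w hw =>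
    FF_period CA CB f A B h hA hB hw
  have hperN : ∀ N : ℕ, ∀ w ∈ HH, F (w + ((N * c : ℝ) : ℂ)) = F w + ((N * l : ℝ) : ℂ) := by
    intro N
    induction N with
    | zero => intro w hw; simp
    | succ N ih =>
      intro w hw
      have e1 : w + (((N + 1 : ℕ) * c : ℝ) : ℂ) = (w + ((N * c : ℝ) : ℂ)) + (c : ℂ) := by
        push_cast; ring
      rw [e1, hper _ (HH_add hw _), ih w hw]
      push_cast; ring
  -- the height
  set X : ℝ := 16 * Real.pi * K * c / l + 1 with hX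
  have hX0 : 0 < X := by positivity
  have hXK : K * c / X ≤ l / (16 * Real.pi) := by
    rw [div_le_div_iff₀ hX0 (by positivity)]
    have : l * X = 16 * Real.pi * K * c + l := by
      rw [hX]; field_simp
    rw [this]
    nlinarith
  have hRD : ∀ N : ℕ, rect 0 (N * c) 1 (1 + X) ⊆ HH := by
    rintro N w ⟨-, h1, -⟩
    show 0 < w.im
    linarith
  have hFc : ContinuousOn F HH := FF_continuousOn CA CB f.continuous
  -- the left side has a bounded image
  have hK0 : IsCompact (rect (0 : ℝ) 0 1 (1 + X)) := isCompact_rect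
  have hsub0 : rect (0 : ℝ) 0 1 (1 + X) ⊆ HH := by
    rintro w ⟨-, h1, -⟩
    show 0 < w.im
    linarith
  obtain ⟨M, hM⟩ := (hK0.image_of_continuousOn (hFc.mono hsub0)).isBounded.exists_norm_le
  have hM0 : 0 ≤ M := by
    have h0 : (⟨0, 1⟩ : ℂ) ∈ rect (0 : ℝ) 0 1 (1 + X) :=
      ⟨⟨le_rfl, le_rfl⟩, le_rfl, by linarith⟩
    exact (norm_nonneg _).trans (hM _ (mem_image_of_mem F h0))
  obtain ⟨N, hN⟩ := exists_nat_ge (4 * M / l + 1)
  have hN1 : (1 : ℝ) ≤ N := by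
    have : 0 ≤ 4 * M / l := by positivity
    linarith
  have hN0 : (0 : ℝ) < N := by linarith
  have hNl : 4 * M ≤ N * l := by
    have : 4 * M / l ≤ N := by linarith
    rwa [div_le_iff₀ hl] at this
  have hNN : 1 ≤ N := by exact_mod_cast hN1
  have hkey := core f hK hf isOpen_HH CA CB (a := 0) (b := N * c) (c := 1) (d := 1 + X)
    (mul_pos hN0 hc) (by linarith) (hRD N) (l := N * l / 2) (m := (N + 1) * (Real.pi * l))
    (by positivity) (by positivity) ?_ ?_
  · have e1 : (N * l / 2) ^ 2 / ((N + 1) * (Real.pi * l)) = N ^ 2 * l / (4 * Real.pi * (N + 1)) := by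
      field_simp
      ring
    have e2 : K * ((N * c - 0) / (1 + X - 1)) = N * (K * c / X) := by
      have : (1 : ℝ) + X - 1 = X := by ring
      rw [this, sub_zero]; ring
    rw [e1, e2] at hkey
    have h2 : N * (K * c / X) ≤ N * (l / (16 * Real.pi)) :=
      mul_le_mul_of_nonneg_left hXK hN0.le
    have h3 := hkey.trans h2
    rw [div_le_iff₀ (by positivity)] at h3
    have e3 : N * (l / (16 * Real.pi)) * (4 * Real.pi * (N + 1)) = N * l * (N + 1) / 4 := by
      field_simp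
      ring
    rw [e3] at h3
    have h4 : 0 < N * l := mul_pos hN0 hl
    nlinarith
  · rintro w hw w' hw'
    have hw1 : w.re = 0 := le_antisymm hw.1.2 hw.1.1
    have hw2 : w'.re = N * c := le_antisymm hw'.1.2 hw'.1.1
    set w'' : ℂ := w' - ((N * c : ℝ) : ℂ) with hw''
    have hw3 : w'' ∈ rect (0 : ℝ) 0 1 (1 + X) := by
      have hr : w''.re = 0 := by
        rw [hw'', Complex.sub_re, Complex.ofReal_re, hw2, sub_self]
      have hi : w''.im = w'.im := by
        rw [hw'', Complex.sub_im, Complex.ofReal_im, sub_zero]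
      refine ⟨?_, ?_⟩
      · rw [hr]; exact ⟨le_rfl, le_rfl⟩
      · rw [hi]; exact hw'.2
    have hw4 : w' = w'' + ((N * c : ℝ) : ℂ) := by rw [hw'']; ring
    have h5 : F w' = F w'' + ((N * l : ℝ) : ℂ) := by
      rw [hw4]
      exact hperN N w'' (hsub0 hw3)
    have h6 : ‖F w‖ ≤ M := hM _ (mem_image_of_mem F hw)
    have h7 : ‖F w''‖ ≤ M := hM _ (mem_image_of_mem F hw3)
    show N * l / 2 ≤ ‖F w - F w'‖
    rw [h5]
    have h8 : ‖((N * l : ℝ) : ℂ)‖ = N * l := by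
      rw [Complex.norm_real, Real.norm_of_nonneg (by positivity)]
    have h9 : ((N * l : ℝ) : ℂ) = -(F w - (F w'' + ((N * l : ℝ) : ℂ))) + (F w - F w'') := by ring
    have h10 : ‖((N * l : ℝ) : ℂ)‖ ≤ ‖F w - (F w'' + ((N * l : ℝ) : ℂ))‖ + (M + M) := by
      calc ‖((N * l : ℝ) : ℂ)‖
          = ‖-(F w - (F w'' + ((N * l : ℝ) : ℂ))) + (F w - F w'')‖ := by rw [← h9]
        _ ≤ ‖-(F w - (F w'' + ((N * l : ℝ) : ℂ)))‖ + ‖F w - F w''‖ := norm_add_le _ _
        _ ≤ ‖F w - (F w'' + ((N * l : ℝ) : ℂ))‖ + (M + M) := by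
          rw [norm_neg]
          gcongr
          exact (norm_sub_le _ _).trans (add_le_add h6 h7)
    rw [h8] at h10
    linarith
  · refine area_le F HH hFc (FF_injOn CA CB f) (FF_mapsTo CA CB f) hc hl
      (fun w hw => ⟨HH_add hw c, hper w hw⟩) N _ isCompact_rect.isClosed.measurableSet (hRD N) ?_
    intro w hw
    exact hw.1

end Wol

open Wol

theorem wolpert (f : ℍ ≃ₜ ℍ) {K : ℝ} (hK : 1 ≤ K) (hf : IsQC K f) (A B : SL2)
    (h : ∀ z : ℍ, f (A • z) = B • f z) (hB : 2 < |(B : M2).trace|) :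
    2 < |(A : M2).trace| ∧ tl A ≤ K * tl B := by
  have hK0 : 0 ≤ K := by linarith
  obtain ⟨hl, CB, hCB⟩ := hyp_chart B hB
  have h2 : 2 < |(A : M2).trace| := by
    by_contra hA
    rcases par_or_fix A (not_lt.1 hA) with ⟨z, hz⟩ | ⟨c, CA, hc, hCA | hCA⟩
    · refine hyp_no_fix B hB (f z) ?_
      rw [← h z, hz]
    · exact par_false f hK0 hf A B h hc hl CA CB hCA hCB
    · have hB' : 2 < |((B⁻¹ : SL2) : M2).trace| := by
        have : ((B⁻¹ : SL2) : M2).trace = (B : M2).trace := by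
          rw [Matrix.SpecialLinearGroup.coe_inv, Matrix.adjugate_fin_two, Matrix.trace_fin_two,
            Matrix.trace_fin_two]
          simp [add_comm]
        rw [this]; exact hB
      obtain ⟨hl', CB', hCB'⟩ := hyp_chart B⁻¹ hB'
      have h' : ∀ z : ℍ, f (A⁻¹ • z) = B⁻¹ • f z := by
        intro z
        rw [eq_inv_smul_iff, ← h, smul_inv_smul]
      exact par_false f hK0 hf A⁻¹ B⁻¹ h' hc hl' CA CB' hCA hCB'
  refine ⟨h2, ?_⟩
  obtain ⟨hc, CA, hCA⟩ := hyp_chart A h2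
  exact hyp_limit hc hl fun ε hε hε1 N hN => hyp_ineq f hK0 hf A B h hc hl CA CB hCA hCB hε hε1 N hN

end Pool.Agent.DC
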